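import Mathlib

/-!
Finding cliques in the random graph with few adaptive queries: definitions and task statements.
-/

namespace H761CQ

open Finset

/-- the pairs inside `K` -/
def prs {n : ℕ} (K : Finset (Fin n)) : Finset (Sym2 (Fin n)) :=
  K.sym2.filter (fun e => ¬ e.IsDiag)

/-- A (deterministic) query algorithm: the next pair to be queried and the final output, as
functions of the list of answers obtained so far (most recent answer first). -/
structure Alg (n : ℕ) where
  next : List Bool → Sym2 (Fin n)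
  out : List Bool → Finset (Fin n)

/-- The answers to the first `t` queries on the graph `G` (most recent first). -/
def ans {n : ℕ} (A : Alg n) (G : Sym2 (Fin n) → Bool) : ℕ → List Bool
  | 0 => []
  | t + 1 => G (A.next (ans A G t)) :: ans A G t

/-- The set of pairs queried in the first `t` queries. -/
def qd {n : ℕ} (A : Alg n) (G : Sym2 (Fin n) → Bool) (t : ℕ) : Finset (Sym2 (Fin n)) :=
  (Finset.range t).image (fun i => A.next (ans A G i))

/-- weight of a set of pairs at time `t` -/
noncomputable def wt {n : ℕ} (A : Alg n) (t : ℕ) (P : Finset (Sym2 (Fin n)))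
    (G : Sym2 (Fin n) → Bool) : ℝ :=
  if ∀ e ∈ P, e ∈ qd A G t → G e = true then (1 / 2 : ℝ) ^ (P \ qd A G t).card else 0

/-- `h` depends only on the history up to time `t` -/
def Meas {n : ℕ} (A : Alg n) (t : ℕ) (h : (Sym2 (Fin n) → Bool) → ℝ) : Prop :=
  ∀ G G' : Sym2 (Fin n) → Bool, (∀ e ∈ qd A G t, G e = G' e) → h G = h G'

/-- state predicate: no negative answer inside `K`, at most `u` unqueried pairs -/
def okk {n : ℕ} (A : Alg n) (G : Sym2 (Fin n) → Bool) (t u : ℕ) (K : Finset (Fin n)) : Prop :=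
  (∀ e ∈ prs K, e ∈ qd A G t → G e = true) ∧ (prs K \ qd A G t).card ≤ u

open Classical in
/-- the family of `k`-sets with no negative answer and exactly `u` unqueried pairs -/
noncomputable def fam {n : ℕ} (A : Alg n) (G : Sym2 (Fin n) → Bool) (t u k : ℕ) :
    Finset (Finset (Fin n)) :=
  Finset.univ.filter fun K => K.card = k ∧ (∀ e ∈ prs K, e ∈ qd A G t → G e = true) ∧
    (prs K \ qd A G t).card = u

/-- Pseudorandomness for long tuples in small sets. -/
def PropP (n S u W : ℕ) (ok : Finset (Fin n) → Prop) : Prop :=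
  ∀ V : Finset (Fin n), V.Nonempty → ∀ w : Fin n → ℕ, (∀ x, w x ≤ W) →
    ∑ x ∈ V, (1 / 2 : ℝ) ^ w x ≤ 1 →
    ∀ K : Fin (V.card * S) → Finset (Fin n), (∀ i, K i ⊆ V ∧ ok (K i)) →
      (Finset.univ.biUnion fun i => prs (K i)).card <
        (∑ i, ∑ x ∈ K i, w x) + V.card * S * (u + 3)

open Classical in
/-- Pseudorandomness for sunflowers. -/
def PropD (n L s u a : ℕ) (ok : Finset (Fin n) → Prop) : Prop :=
  ∀ (F : Finset (Fin n)) (o : ℕ),
    (Finset.univ.filter fun K : Fin s → Finset (Fin n) =>
      (∀ i, (K i).card = o ∧ Disjoint F (K i) ∧ ok (F ∪ K i)) ∧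
        ∀ i j, i ≠ j → Disjoint (K i) (K j)).card * 2 ^ (s * (F.card * o + o.choose 2)) ≤
      2 ^ (s * (u + o * L) + F.card * L + a)

open Classical in
/-- spread indexed families -/
def Spr {n : ℕ} {ι : Type} (c D : ℕ) (I : Finset ι) (K : ι → Finset (Fin n)) : Prop :=
  ∀ X : Finset (Fin n), (I.filter fun i => X ⊆ K i).card * 2 ^ (D * X.card) ≤ 2 ^ c * I.card

/-- there is no spread family of ok sets of size at least `(2+σ) log |V| + b` inside a set `V`
of size at most `N` -/
def NoFam (n : ℕ) (ι : Type) (ok : Finset (Fin n) → Prop) (c D N : ℕ) (σ b : ℝ) : Prop :=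
  ∀ (I : Finset ι) (K : ι → Finset (Fin n)) (V : Finset (Fin n)), I.Nonempty → V.card ≤ N →
    (∀ i ∈ I, ok (K i) ∧ K i ⊆ V ∧ (2 + σ) * Real.logb 2 V.card + b ≤ (K i).card) →
    Spr c D I K → False

open Classical in
/-- number of members of the family containing `x` -/
noncomputable def mult {n : ℕ} {ι : Type} (I : Finset ι) (K : ι → Finset (Fin n)) (x : Fin n) : ℕ :=
  (I.filter fun i => x ∈ K i).card

/-- neighbours of `x` in `V` in the set of pairs `Γ` -/
def nb {n : ℕ} (Γ : Finset (Sym2 (Fin n))) (V : Finset (Fin n)) (x : Fin n) : Finset (Fin n) :=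
  V.filter fun y => s(x, y) ∈ Γ

/-- union of the pairs of a tuple -/
def Gam {n : ℕ} {ι : Type} {s : ℕ} (K : ι → Finset (Fin n)) (f : Fin s → ι) :
    Finset (Sym2 (Fin n)) :=
  Finset.univ.biUnion fun j => prs (K (f j))

end H761CQ
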