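import Mathlib
import Pool.Agent.H761R3.CQ.Defs

/-!
Task statements of the project H761-CQ.
-/

namespace H761CQ

open Finset

/-- martingale property of the weights -/
def TaskA1 : Prop := ∀ (n : ℕ) (A : Alg n) (t τ : ℕ), t ≤ τ → ∀ (P : Finset (Sym2 (Fin n)))
  (h : (Sym2 (Fin n) → Bool) → ℝ), Meas A t h →
  ∑ G : Sym2 (Fin n) → Bool, h G * wt A τ P G = ∑ G : Sym2 (Fin n) → Bool, h G * wt A t P G

open Classical in
/-- fresh pairs argument -/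
def TaskA2 : Prop := TaskA1 → ∀ (n q u k M : ℕ) (A : Alg n), u ≤ k.choose 2 →
  ((univ.filter fun G : Sym2 (Fin n) → Bool => ∃ K : Finset (Fin n), K.card = k ∧
      ∀ e ∈ prs K, e ∈ qd A G q ∧ G e = true).card : ℝ) ≤
    ((univ.filter fun G : Sym2 (Fin n) → Bool =>
      ∃ t ≤ q, M ≤ (fam A G t u k).card).card : ℝ) +
      (q + 1) * M * (1 / 2 : ℝ) ^ u * Fintype.card (Sym2 (Fin n) → Bool)

open Classical in
/-- union bound for `PropP` -/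
def TaskC : Prop := TaskA1 → ∀ (n S u W t a : ℕ) (A : Alg n), n * (W + 1) * 2 ^ a ≤ 2 ^ S →
  ((univ.filter fun G : Sym2 (Fin n) → Bool => ¬ PropP n S u W (okk A G t u)).card : ℝ) ≤
    2 * (1 / 2 : ℝ) ^ a * Fintype.card (Sym2 (Fin n) → Bool)

open Classical in
/-- union bound for `PropD` -/
def TaskD : Prop := TaskA1 → ∀ (n L s u t a : ℕ) (A : Alg n), n ≤ 2 ^ L →
  ((univ.filter fun G : Sym2 (Fin n) → Bool => ¬ PropD n L s u a (okk A G t u)).card : ℝ) ≤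
    ((n : ℝ) + 1) ^ 2 * (1 / 2 : ℝ) ^ a * Fintype.card (Sym2 (Fin n) → Bool)

open Classical in
/-- averaging `PropP` over all tuples from a family -/
def TaskE1 : Prop := ∀ (n S u W o : ℕ) (ok : Finset (Fin n) → Prop) (ι : Type) (I : Finset ι)
  (K : ι → Finset (Fin n)) (V : Finset (Fin n)) (w : Fin n → ℕ), PropP n S u W ok → 1 ≤ S →
  V.Nonempty → I.Nonempty → (∀ x, w x ≤ W) → ∑ x ∈ V, (1 / 2 : ℝ) ^ w x ≤ 1 →
  (∀ i ∈ I, ok (K i) ∧ K i ⊆ V ∧ (K i).card = o) →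
  (o.choose 2 : ℝ) ≤ (∑ i ∈ I, ∑ x ∈ K i, (w x : ℝ)) / I.card +
    (∑ f ∈ Fintype.piFinset (fun _ : Fin (V.card * S) => I), ∑ i ∈ I,
      ((prs (K i) ∩ Gam K f).card : ℝ)) / ((I.card : ℝ) ^ (V.card * S) * I.card) + (u + 3)

open Classical in
/-- use of the induction hypothesis -/
def TaskE2 : Prop := ∀ (n L c D N' o : ℕ) (σ b : ℝ) (ok : Finset (Fin n) → Prop) (ι : Type),
  n ≤ 2 ^ L → 0 ≤ σ → 0 ≤ b → (∀ K K' : Finset (Fin n), K' ⊆ K → ok K → ok K') →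
  NoFam n ι ok (c + 3 * L) D N' σ b →
  ∀ (I : Finset ι) (K : ι → Finset (Fin n)) (V : Finset (Fin n)) (Γ : Finset (Sym2 (Fin n))),
  I.Nonempty → Spr c D I K → (∀ i ∈ I, ok (K i) ∧ K i ⊆ V ∧ (K i).card ≤ o) →
  ∑ i ∈ I, ((prs (K i) ∩ Γ).card : ℝ) ≤
    ∑ i ∈ I, ∑ x ∈ K i, ((1 + σ / 2) * Real.logb 2 (1 + (nb Γ V x).card) + b / 2) + I.card +
      o * ∑ i ∈ I, (((K i).filter fun x => N' < (nb Γ V x).card).card : ℝ)

open Classical in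
/-- average size of neighbourhoods -/
def TaskE3 : Prop := ∀ (n s o : ℕ) (ι : Type) (I : Finset ι) (K : ι → Finset (Fin n))
  (V : Finset (Fin n)) (x : Fin n), I.Nonempty → (∀ i ∈ I, (K i).card ≤ o) →
  (∑ f ∈ Fintype.piFinset (fun _ : Fin s => I), Real.logb 2 (1 + (nb (Gam K f) V x).card)) ≤
      (I.card : ℝ) ^ s * Real.logb 2 (1 + o * s * ((mult I K x : ℝ) / I.card)) ∧
  ∀ N' : ℕ, (((Fintype.piFinset (fun _ : Fin s => I)).filter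
      fun f => N' < (nb (Gam K f) V x).card).card : ℝ) * (N' + 1) ≤
      (I.card : ℝ) ^ s * (o * s * ((mult I K x : ℝ) / I.card))

open Classical in
/-- few vertices of large multiplicity -/
def TaskE4 : Prop := ∀ (n o j c D' : ℕ) (ι : Type) (I : Finset ι) (K : ι → Finset (Fin n)),
  I.Nonempty → Spr c (2 * D') I K → (∀ i ∈ I, (K i).card ≤ o) →
  o ^ (j + 1) * 2 ^ c ≤ 2 ^ (D' * j) →
  ∑ i ∈ I, ((K i).filter fun x => I.card < mult I K x * 2 ^ D').card ≤ I.card * (j + 1)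

/-- Jensen -/
def TaskE5 : Prop := ∀ (n : ℕ) (V : Finset (Fin n)) (p : Fin n → ℝ) (o R : ℝ),
  (∀ x, 0 ≤ p x) → 0 < o → ∑ x ∈ V, p x = o → 1 ≤ R →
  ∑ x ∈ V, p x * Real.logb 2 (1 + R * p x) + ∑ x ∈ V, p x * Real.logb 2 (1 / p x) ≤
    o * Real.logb 2 (V.card / o + R)

/-- code lengths -/
def TaskE6 : Prop := ∀ (n W : ℕ) (V : Finset (Fin n)) (p : Fin n → ℝ) (o : ℝ),
  (∀ x, 0 ≤ p x) → 1 ≤ o → ∑ x ∈ V, p x = o → 2 * n ≤ 2 ^ W → (∀ x, p x ≤ 1) →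
  ∃ w : Fin n → ℕ, (∀ x, w x ≤ W) ∧ ∑ x ∈ V, (1 / 2 : ℝ) ^ w x ≤ 1 ∧
    ∑ x ∈ V, p x * w x ≤ ∑ x ∈ V, p x * Real.logb 2 (1 / p x) + o * (Real.logb 2 (2 * o) + 1)

open Classical in
/-- the induction step -/
def Step : Prop := ∀ (n L S u W o j c D' D2 N' : ℕ) (σ b : ℝ) (ok : Finset (Fin n) → Prop)
  (ι : Type) (I : Finset ι) (K : ι → Finset (Fin n)) (V : Finset (Fin n)),
  n ≤ 2 ^ L → 1 ≤ S → 2 * n ≤ 2 ^ W → 0 ≤ σ → 0 ≤ b →
  (∀ K K' : Finset (Fin n), K' ⊆ K → ok K → ok K') → PropP n S u W ok →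
  NoFam n ι ok (c + 3 * L) (2 * D') N' σ b →
  I.Nonempty → V.Nonempty → 1 ≤ o →
  (∀ i ∈ I, ok (K i) ∧ K i ⊆ V ∧ (K i).card = o) → Spr c (2 * D') I K →
  (2 + σ) * Real.logb 2 V.card + b ≤ o → V.card ≤ (N' + 1) * 2 ^ D2 →
  o ^ 2 * S * 2 ^ D2 ≤ 2 ^ D' → o ^ (j + 1) * 2 ^ c ≤ 2 ^ (D' * j) →
  σ / 2 * ∑ x ∈ V, ((mult I K x : ℝ) / I.card) * Real.logb 2 (1 / ((mult I K x : ℝ) / I.card)) ≤
    u + 4 + o * (4 + j + Real.logb 2 (2 * o) + (1 + σ / 2) * Real.logb 2 (2 * o * S))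

/-- assembly of the induction step -/
def TaskStep : Prop := TaskE1 → TaskE2 → TaskE3 → TaskE4 → TaskE5 → TaskE6 → Step

open Classical in
/-- kernel lemma -/
def TaskK : Prop := ∀ (n D : ℕ) (𝒜 : Finset (Finset (Fin n))), 𝒜.Nonempty →
  ∃ F : Finset (Fin n), 𝒜.card ≤ 2 ^ (D * F.card) * (𝒜.filter fun S => F ⊆ S).card ∧
    ∀ X : Finset (Fin n), Disjoint F X →
      (𝒜.filter fun S => F ∪ X ⊆ S).card * 2 ^ (D * X.card) ≤ (𝒜.filter fun S => F ⊆ S).card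

open Classical in
/-- confinement to a small set: if at most `q` pairs have been queried and every `S ∈ 𝒜` has at
most `u` unqueried pairs then a fraction `1/(n+1)` of the family is almost contained in a set of
size at most `m` -/
def TaskV : Prop := ∀ (n q u θ d m : ℕ) (Q : Finset (Sym2 (Fin n)))
  (𝒜 : Finset (Finset (Fin n))), Q.card ≤ q → 𝒜.Nonempty → 2 * u ≤ θ * θ → 1 ≤ θ →
  d ≤ m → 2 * q ≤ d * m → 1 ≤ d → (∀ S ∈ 𝒜, (prs S \ Q).card ≤ u) →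
  ∃ V : Finset (Fin n), V.card ≤ m ∧
    𝒜.card ≤ (n + 1) * (𝒜.filter fun S => (S \ V).card ≤ θ + 1).card

open Classical in
/-- many disjoint tuples in a spread family -/
def TaskR : Prop := ∀ (n D s o : ℕ) (ℬ : Finset (Finset (Fin n))), (∀ K ∈ ℬ, K.card = o) →
  (∀ x : Fin n, (ℬ.filter fun K => x ∈ K).card * 2 ^ D ≤ ℬ.card) → 2 * s * o ≤ 2 ^ D →
  ℬ.card ^ s ≤ 2 ^ s * (univ.filter fun K : Fin s → Finset (Fin n) =>
    (∀ i, K i ∈ ℬ) ∧ ∀ i j, i ≠ j → Disjoint (K i) (K j)).card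

end H761CQ
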