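import Mathlib
import Pool.Agent.H761R3.CQ.Stmts

namespace H761CQ

open Finset

open Classical in
lemma Spr.sub {n : ℕ} {ι : Type} {c D : ℕ} {I : Finset ι} {K K' : ι → Finset (Fin n)}
    (h : Spr c D I K) (hK : ∀ i ∈ I, K' i ⊆ K i) : Spr c D I K' := by
  intro X
  refine le_trans (Nat.mul_le_mul_right _ (card_le_card ?_)) (h X)
  intro i hi
  simp only [mem_filter] at hi ⊢
  exact ⟨hi.1, hi.2.trans (hK i hi.1)⟩

lemma Spr.mono {n : ℕ} {ι : Type} {c c' D : ℕ} {I : Finset ι} {K : ι → Finset (Fin n)}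
    (h : Spr c D I K) (hc : c ≤ c') : Spr c' D I K := by
  intro X
  refine le_trans (h X) ?_
  gcongr
  norm_num

open Classical in
lemma Spr.restrict {n : ℕ} {ι : Type} {c D a : ℕ} {I I' : Finset ι} {K : ι → Finset (Fin n)}
    (h : Spr c D I K) (hI : I' ⊆ I) (ha : I.card ≤ 2 ^ a * I'.card) : Spr (c + a) D I' K := by
  intro X
  have h1 := h X
  have h2 : (I'.filter fun i => X ⊆ K i).card ≤ (I.filter fun i => X ⊆ K i).card :=
    card_le_card (filter_subset_filter _ hI)
  calc (I'.filter fun i => X ⊆ K i).card * 2 ^ (D * X.card)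
      ≤ (I.filter fun i => X ⊆ K i).card * 2 ^ (D * X.card) := Nat.mul_le_mul_right _ h2
    _ ≤ 2 ^ c * I.card := h1
    _ ≤ 2 ^ c * (2 ^ a * I'.card) := Nat.mul_le_mul_left _ ha
    _ = 2 ^ (c + a) * I'.card := by ring

lemma NoFam.mono_c {n : ℕ} {ι : Type} {ok : Finset (Fin n) → Prop} {c c' D N : ℕ} {σ b : ℝ}
    (h : NoFam n ι ok c' D N σ b) (hc : c ≤ c') : NoFam n ι ok c D N σ b :=
  fun I K V hI hV hK hS => h I K V hI hV hK (hS.mono hc)

/-- sum of multiplicities -/
lemma sum_mult {n : ℕ} {ι : Type} (I : Finset ι) (K : ι → Finset (Fin n)) (V : Finset (Fin n))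
    (hK : ∀ i ∈ I, K i ⊆ V) (g : Fin n → ℝ) :
    ∑ x ∈ V, (mult I K x : ℝ) * g x = ∑ i ∈ I, ∑ x ∈ K i, g x := by
  classical
  have h1 : ∀ x ∈ V, (mult I K x : ℝ) * g x = ∑ i ∈ I, if x ∈ K i then g x else 0 := by
    intro x _
    rw [← sum_filter, sum_const, nsmul_eq_mul]
    congr 2
  rw [sum_congr rfl h1, sum_comm]
  refine sum_congr rfl fun i hi => ?_
  rw [← sum_filter]
  refine sum_congr ?_ fun _ _ => rfl
  ext x
  simp only [mem_filter]
  exact ⟨fun h => h.2, fun h => ⟨hK i hi h, h⟩⟩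

lemma mult_le {n : ℕ} {ι : Type} (I : Finset ι) (K : ι → Finset (Fin n)) (x : Fin n) :
    mult I K x ≤ I.card := by
  classical
  exact card_le_card (filter_subset _ _)

/-- `p log (1/p) ≥ 0` -/
lemma ent_nonneg {n : ℕ} {ι : Type} (I : Finset ι) (K : ι → Finset (Fin n)) (x : Fin n) :
    0 ≤ ((mult I K x : ℝ) / I.card) * Real.logb 2 (1 / ((mult I K x : ℝ) / I.card)) := by
  have h0 : (0:ℝ) ≤ (mult I K x : ℝ) / I.card := by positivity
  rcases eq_or_lt_of_le h0 with h | h
  · rw [← h]; simp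
  · refine mul_nonneg h0 ?_
    apply Real.logb_nonneg (by norm_num)
    rw [le_div_iff₀ h]
    have : (mult I K x : ℝ) / I.card ≤ 1 := by
      apply div_le_one_of_le₀
      · exact_mod_cast mult_le I K x
      · positivity
    linarith

/-- lower bound for the entropy sum: if `P x` implies `mult * 2^m ≤ |I|`. -/
lemma ent_lower {n : ℕ} {ι : Type} (I : Finset ι) (K : ι → Finset (Fin n)) (V : Finset (Fin n))
    (hI : I.Nonempty) (hK : ∀ i ∈ I, K i ⊆ V) (m : ℕ) (P : Fin n → Prop) [DecidablePred P]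
    (hP : ∀ x, P x → mult I K x * 2 ^ m ≤ I.card) :
    (∑ i ∈ I, (((K i).filter P).card : ℝ)) * m / I.card ≤
      ∑ x ∈ V, ((mult I K x : ℝ) / I.card) *
        Real.logb 2 (1 / ((mult I K x : ℝ) / I.card)) := by
  have hc : (0:ℝ) < I.card := by exact_mod_cast hI.card_pos
  have h1 : (∑ i ∈ I, (((K i).filter P).card : ℝ)) =
      ∑ x ∈ V, (mult I K x : ℝ) * (if P x then 1 else 0) := by
    rw [sum_mult I K V hK]
    refine sum_congr rfl fun i _ => ?_
    rw [card_filter]
    push_cast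
    rfl
  rw [h1, sum_mul, sum_div]
  refine sum_le_sum fun x _ => ?_
  by_cases hx : P x
  · rw [if_pos hx, mul_one]
    rcases Nat.eq_zero_or_pos (mult I K x) with h0 | h0
    · rw [h0]; simp
    · have h0' : (0:ℝ) < mult I K x := by exact_mod_cast h0
      have h2 : (m:ℝ) ≤ Real.logb 2 (1 / ((mult I K x : ℝ) / I.card)) := by
        rw [Real.le_logb_iff_rpow_le (by norm_num) (by positivity)]
        rw [Real.rpow_natCast, one_div, inv_div, le_div_iff₀ h0']
        have := hP x hx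
        have h3 : ((mult I K x * 2 ^ m : ℕ) : ℝ) ≤ I.card := by exact_mod_cast this
        push_cast at h3
        linarith
      calc (mult I K x : ℝ) * m / I.card = (mult I K x : ℝ) / I.card * m := by ring
        _ ≤ _ := mul_le_mul_of_nonneg_left h2 (by positivity)
  · rw [if_neg hx]
    simp only [mul_zero, zero_mul, zero_div]
    exact ent_nonneg I K x

end H761CQ
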