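import Mathlib
import Pool.Agent.H761R3.CQ.Phase

namespace H761CQ

open Finset

open Classical in
/-- common part: from a family violating the bound, produce an exact-size family and apply
`Step`. -/
lemma step_apply (hStep : Step) {n L S u W j D' D2 N' c : ℕ} {σ b : ℝ}
    {ok : Finset (Fin n) → Prop} {ι : Type}
    (hnL : n ≤ 2 ^ L) (hS : 1 ≤ S) (hW : 2 * n ≤ 2 ^ W) (hσ : 0 ≤ σ) (hb : 1 ≤ b)
    (hered : ∀ K K' : Finset (Fin n), K' ⊆ K → ok K → ok K')
    (hsize : ∀ K, ok K → K.card ≤ 3 * L) (hP : PropP n S u W ok)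
    (hD2 : (3 * L) ^ 2 * S * 2 ^ D2 ≤ 2 ^ D')
    (hj : (3 * L) ^ (j + 1) * 2 ^ c ≤ 2 ^ (D' * j))
    (hIH : NoFam n ι ok (c + 3 * L) (2 * D') N' σ b)
    (I : Finset ι) (K : ι → Finset (Fin n)) (V : Finset (Fin n)) (hI : I.Nonempty)
    (hV : V.card ≤ (N' + 1) * 2 ^ D2)
    (hK : ∀ i ∈ I, ok (K i) ∧ K i ⊆ V ∧ (2 + σ) * Real.logb 2 V.card + b ≤ (K i).card)
    (hSpr : Spr c (2 * D') I K) :
    ∃ (o : ℕ) (K' : ι → Finset (Fin n)), b ≤ o ∧ o ≤ 3 * L ∧
      (2 + σ) * Real.logb 2 V.card + b ≤ o ∧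
      (∀ i ∈ I, ok (K' i) ∧ K' i ⊆ V ∧ (K' i).card = o) ∧ Spr c (2 * D') I K' ∧
      σ / 2 * ∑ x ∈ V, ((mult I K' x : ℝ) / I.card) *
          Real.logb 2 (1 / ((mult I K' x : ℝ) / I.card)) ≤
        u + 4 + o * (4 + j + Real.logb 2 (2 * o) + (1 + σ / 2) * Real.logb 2 (2 * o * S)) := by
  obtain ⟨i0, hi0⟩ := hI
  have hlog : 0 ≤ Real.logb 2 V.card := by
    rcases Nat.eq_zero_or_pos V.card with h | h
    · rw [h]; simp
    · exact Real.logb_nonneg (by norm_num) (by exact_mod_cast h)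
  set o := ⌈(2 + σ) * Real.logb 2 V.card + b⌉₊ with ho
  have hob : (2 + σ) * Real.logb 2 V.card + b ≤ o := Nat.le_ceil _
  have hbo : b ≤ o := by nlinarith [mul_nonneg (by linarith : (0:ℝ) ≤ 2 + σ) hlog]
  have hle : ∀ i ∈ I, o ≤ (K i).card := fun i hi => Nat.ceil_le.mpr (hK i hi).2.2
  have ho3 : o ≤ 3 * L := (hle i0 hi0).trans (hsize _ (hK i0 hi0).1)
  have ho1 : 1 ≤ o := by
    have : (1:ℝ) ≤ o := hb.trans hbo
    exact_mod_cast this
  have hex : ∀ i, ∃ T : Finset (Fin n), i ∈ I → T ⊆ K i ∧ T.card = o := by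
    intro i
    by_cases hi : i ∈ I
    · obtain ⟨T, hT⟩ := exists_subset_card_eq (hle i hi)
      exact ⟨T, fun _ => hT⟩
    · exact ⟨∅, fun h => absurd h hi⟩
  choose K' hK' using hex
  have hVne : V.Nonempty := by
    have h1 := hle i0 hi0
    have h2 : (K i0).Nonempty := card_pos.mp (by omega)
    exact h2.mono (hK i0 hi0).2.1
  have hK'' : ∀ i ∈ I, ok (K' i) ∧ K' i ⊆ V ∧ (K' i).card = o := fun i hi =>
    ⟨hered _ _ (hK' i hi).1 (hK i hi).1, (hK' i hi).1.trans (hK i hi).2.1, (hK' i hi).2⟩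
  have hSpr' : Spr c (2 * D') I K' := hSpr.sub fun i hi => (hK' i hi).1
  refine ⟨o, K', hbo, ho3, hob, hK'', hSpr', ?_⟩
  refine hStep n L S u W o j c D' D2 N' σ b ok ι I K' V hnL hS hW hσ (by linarith) hered hP hIH
    ⟨i0, hi0⟩ hVne ho1 hK'' hSpr' hob hV ?_ ?_
  · refine le_trans ?_ hD2
    gcongr
  · refine le_trans ?_ hj
    gcongr

open Classical in
theorem phase1 (hE4 : TaskE4) (hStep : Step) {n L S u W j D' D2 J : ℕ} {σ b : ℝ}
    {ok : Finset (Fin n) → Prop} (ι : Type)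
    (hnL : n ≤ 2 ^ L) (hS : 1 ≤ S) (hW : 2 * n ≤ 2 ^ W) (hσ : 0 ≤ σ) (hb : 2 ≤ b)
    (hered : ∀ K K' : Finset (Fin n), K' ⊆ K → ok K → ok K')
    (hsize : ∀ K, ok K → K.card ≤ 3 * L) (hP : PropP n S u W ok)
    (hD2 : (3 * L) ^ 2 * S * 2 ^ D2 ≤ 2 ^ D')
    (hj : (3 * L) ^ (j + 1) * 2 ^ (3 * L * J) ≤ 2 ^ (D' * j))
    (hnum : ∀ o : ℕ, b ≤ o → o ≤ 3 * L →
      (u : ℝ) + 4 + o * (4 + j + Real.logb 2 (2 * o) + (1 + σ / 2) * Real.logb 2 (2 * o * S)) <
        σ / 2 * ((o - (j + 1)) * D')) :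
    ∀ m ≤ J, NoFam n ι ok (3 * L * (J - m)) (2 * D') (2 ^ (m * D2)) σ b := by
  intro m
  induction m with
  | zero =>
    intro _ I K V hI hV hK _
    obtain ⟨i0, hi0⟩ := hI
    have h1 := (hK i0 hi0).2.2
    have h2 := card_le_card (hK i0 hi0).2.1
    have hV1 : V.card ≤ 1 := by simpa using hV
    have hlog : Real.logb 2 (V.card : ℝ) = 0 := by
      interval_cases h : V.card
      · simp
      · simp
    rw [hlog] at h1
    have h3 : ((K i0).card : ℝ) ≤ 1 := by exact_mod_cast h2.trans hV1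
    linarith
  | succ m ih =>
    intro hm I K V hI hV hK hSpr
    have hIH := ih (by omega)
    have hc : 3 * L * (J - (m + 1)) + 3 * L = 3 * L * (J - m) := by
      have : J - m = (J - (m + 1)) + 1 := by omega
      rw [this]; ring
    rw [← hc] at hIH
    have hV' : V.card ≤ (2 ^ (m * D2) + 1) * 2 ^ D2 := by
      refine hV.trans ?_
      have h1 : 2 ^ ((m + 1) * D2) = 2 ^ (m * D2) * 2 ^ D2 := by rw [← pow_add]; ring_nf
      rw [h1]
      exact Nat.mul_le_mul_right _ (Nat.le_succ _)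
    have hj' : (3 * L) ^ (j + 1) * 2 ^ (3 * L * (J - (m + 1))) ≤ 2 ^ (D' * j) := by
      refine le_trans ?_ hj
      gcongr
      · norm_num
      · omega
    obtain ⟨o, K', hbo, ho3, hob, hK'', hSpr', hmain⟩ := step_apply hStep hnL hS hW hσ
      (by linarith) hered hsize hP hD2 hj' hIH I K V hI hV' hK hSpr
    have hIc : (0:ℝ) < I.card := by exact_mod_cast hI.card_pos
    -- lower bound
    have hlow := ent_lower I K' V hI (fun i hi => (hK'' i hi).2.1) D'
      (fun x => ¬ I.card < mult I K' x * 2 ^ D') (fun x hx => not_lt.mp hx)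
    have hE := hE4 n o j (3 * L * (J - (m + 1))) D' ι I K' hI hSpr'
      (fun i hi => (hK'' i hi).2.2.le) (by
        refine le_trans ?_ hj'
        gcongr)
    have hsum : (I.card : ℝ) * o - I.card * (j + 1) ≤
        ∑ i ∈ I, (((K' i).filter fun x => ¬ I.card < mult I K' x * 2 ^ D').card : ℝ) := by
      have h1 : ∑ i ∈ I, (((K' i).filter fun x => ¬ I.card < mult I K' x * 2 ^ D').card : ℝ) =
          ∑ i ∈ I, ((o : ℝ) - (((K' i).filter fun x => I.card < mult I K' x * 2 ^ D').card : ℝ)) := by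
        refine sum_congr rfl fun i hi => ?_
        have := card_filter_add_card_filter_not (s := K' i)
          (fun x => I.card < mult I K' x * 2 ^ D')
        rw [(hK'' i hi).2.2] at this
        have h2 : (((K' i).filter fun x => I.card < mult I K' x * 2 ^ D').card : ℝ) +
          (((K' i).filter fun x => ¬ I.card < mult I K' x * 2 ^ D').card : ℝ) = o := by
          exact_mod_cast this
        linarith
      rw [h1, sum_sub_distrib, sum_const, nsmul_eq_mul]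
      have h3 : (∑ i ∈ I, (((K' i).filter fun x => I.card < mult I K' x * 2 ^ D').card : ℝ)) ≤
          I.card * (j + 1) := by exact_mod_cast hE
      linarith
    have hn := hnum o hbo ho3
    have hD'0 : (0:ℝ) ≤ D' := Nat.cast_nonneg _
    have h4 : ((o:ℝ) - (j + 1)) * D' ≤ (∑ i ∈ I, (((K' i).filter
        fun x => ¬ I.card < mult I K' x * 2 ^ D').card : ℝ)) * D' / I.card := by
      rw [le_div_iff₀ hIc]
      nlinarith
    have h5 : σ / 2 * (((o:ℝ) - (j + 1)) * D') ≤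
        σ / 2 * ∑ x ∈ V, ((mult I K' x : ℝ) / I.card) *
          Real.logb 2 (1 / ((mult I K' x : ℝ) / I.card)) := by
      exact mul_le_mul_of_nonneg_left (h4.trans hlow) (by linarith)
    linarith

end H761CQ
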