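import Mathlib
import Pool.Agent.H761R3.CQ.Phase1

namespace H761CQ

open Finset

open Classical in
theorem phase2 (hStep : Step) {n L S u W j D' D2 J m1 : ℕ} {σ b σ₂ b₂ : ℝ}
    {ok : Finset (Fin n) → Prop} (ι : Type) (hL : 1 ≤ L)
    (hnL : n ≤ 2 ^ L) (hS : 1 ≤ S) (hW : 2 * n ≤ 2 ^ W) (hσ : 0 ≤ σ) (hσ₂ : 0 ≤ σ₂)
    (hb₂ : 2 ≤ b₂)
    (hered : ∀ K K' : Finset (Fin n), K' ⊆ K → ok K → ok K')
    (hsize : ∀ K, ok K → K.card ≤ 3 * L) (hP : PropP n S u W ok)
    (hD2 : (3 * L) ^ 2 * S * 2 ^ D2 ≤ 2 ^ D') (h3L : 3 * L ≤ 2 ^ D2)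
    (hj : (3 * L) ^ (j + 1) * 2 ^ (3 * L * J) ≤ 2 ^ (D' * j))
    (hb12 : σ * (2 * m1 * D2) + b ≤ b₂) (hm1 : 1 ≤ m1)
    (h1 : ∀ m ≤ J, NoFam n ι ok (3 * L * (J - m)) (2 * D') (2 ^ (m * D2)) σ b)
    (hnum : ∀ o : ℕ, b₂ ≤ o → o ≤ 3 * L →
      (u : ℝ) + 4 + o * (4 + j + Real.logb 2 (2 * o) + (1 + σ₂ / 2) * Real.logb 2 (2 * o * S)) <
        σ₂ / 2 * ((o - ((2 + σ) * (m1 * D2 + Real.logb 2 o) + b)) / 2 * (m1 * D2)))
    (hnum2 : ∀ o : ℕ, b₂ ≤ o → o ≤ 3 * L → (2 + σ) * (m1 * D2 + Real.logb 2 o) + b ≤ o) :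
    ∀ m ≤ J, NoFam n ι ok (3 * L * (J - m)) (2 * D') (2 ^ (m * D2)) σ₂ b₂ := by
  intro m
  induction m with
  | zero =>
    intro _ I K V hI hV hK _
    obtain ⟨i0, hi0⟩ := hI
    have h1' := (hK i0 hi0).2.2
    have h2 := card_le_card (hK i0 hi0).2.1
    have hV1 : V.card ≤ 1 := by simpa using hV
    have hlog : Real.logb 2 (V.card : ℝ) = 0 := by
      interval_cases h : V.card
      · simp
      · simp
    rw [hlog] at h1'
    have h3 : ((K i0).card : ℝ) ≤ 1 := by exact_mod_cast h2.trans hV1
    linarith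
  | succ m ih =>
    intro hm I K V hI hV hK hSpr
    have hlogV : 0 ≤ Real.logb 2 (V.card : ℝ) := by
      rcases Nat.eq_zero_or_pos V.card with h | h
      · rw [h]; simp
      · exact Real.logb_nonneg (by norm_num) (by exact_mod_cast h)
    by_cases hVs : V.card ≤ 2 ^ (2 * m1 * D2)
    · -- small `V`: phase 1
      have hlV : Real.logb 2 (V.card : ℝ) ≤ 2 * m1 * D2 := by
        rcases Nat.eq_zero_or_pos V.card with h | h
        · rw [h]; simp; positivity
        · have h' : (0:ℝ) < V.card := by exact_mod_cast h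
          rw [Real.logb_le_iff_le_rpow (by norm_num) h']
          have : ((V.card : ℕ) : ℝ) ≤ ((2 ^ (2 * m1 * D2) : ℕ) : ℝ) := by exact_mod_cast hVs
          refine this.trans (le_of_eq ?_)
          push_cast
          rw [← Real.rpow_natCast]
          push_cast
          rfl
      refine h1 (m + 1) hm I K V hI hV (fun i hi => ⟨(hK i hi).1, (hK i hi).2.1, ?_⟩) hSpr
      have h3 := (hK i hi).2.2
      have h4 : σ * Real.logb 2 (V.card : ℝ) ≤ σ * (2 * m1 * D2) :=
        mul_le_mul_of_nonneg_left hlV hσ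
      have h5 : 0 ≤ σ₂ * Real.logb 2 (V.card : ℝ) := mul_nonneg hσ₂ hlogV
      nlinarith
    · push Not at hVs
      have hm1m : 2 * m1 < m + 1 := by
        by_contra hcon
        push Not at hcon
        have : V.card ≤ 2 ^ (2 * m1 * D2) := by
          refine hV.trans ?_
          gcongr
          norm_num
        omega
      have hIH := ih (by omega)
      have hc : 3 * L * (J - (m + 1)) + 3 * L = 3 * L * (J - m) := by
        have : J - m = (J - (m + 1)) + 1 := by omega
        rw [this]; ring
      rw [← hc] at hIH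
      have hV' : V.card ≤ (2 ^ (m * D2) + 1) * 2 ^ D2 := by
        refine hV.trans ?_
        have h1 : 2 ^ ((m + 1) * D2) = 2 ^ (m * D2) * 2 ^ D2 := by rw [← pow_add]; ring_nf
        rw [h1]
        exact Nat.mul_le_mul_right _ (Nat.le_succ _)
      have hj' : (3 * L) ^ (j + 1) * 2 ^ (3 * L * (J - (m + 1))) ≤ 2 ^ (D' * j) := by
        refine le_trans ?_ hj
        gcongr
        · norm_num
        · omega
      obtain ⟨o, K', hbo, ho3, hob, hK'', hSpr', hmain⟩ := step_apply hStep hnL hS hW hσ₂
        (by linarith) hered hsize hP hD2 hj' hIH I K V hI hV' hK hSpr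
      have hIc : (0:ℝ) < I.card := by exact_mod_cast hI.card_pos
      have hIcn : 0 < I.card := hI.card_pos
      have hn := hnum o hbo ho3
      have hn2 := hnum2 o hbo ho3
      set T : ℝ := (2 + σ) * (m1 * D2 + Real.logb 2 o) + b with hT
      set Wt := V.filter fun x => I.card < mult I K' x * 2 ^ (m1 * D2) with hWt
      have ho1 : (1:ℝ) ≤ o := by linarith
      have ho1n : 1 ≤ o := by exact_mod_cast ho1
      -- size of Wt
      have hWc : Wt.card ≤ o * 2 ^ (m1 * D2) := by
        have h2 : (Wt.card : ℝ) * I.card ≤ (o * 2 ^ (m1 * D2)) * I.card := by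
          have h3 : ∑ x ∈ V, (mult I K' x : ℝ) * 1 = I.card * o := by
            rw [sum_mult I K' V (fun i hi => (hK'' i hi).2.1)]
            rw [sum_congr rfl (fun i hi => by
              show ∑ x ∈ K' i, (1:ℝ) = o
              rw [sum_const, (hK'' i hi).2.2]; simp)]
            simp
          calc (Wt.card : ℝ) * I.card = ∑ x ∈ Wt, (I.card : ℝ) := by simp
            _ ≤ ∑ x ∈ Wt, (mult I K' x : ℝ) * 1 * 2 ^ (m1 * D2) := by
                refine sum_le_sum fun x hx => ?_
                have := (mem_filter.mp hx).2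
                have h4 : ((I.card : ℕ) : ℝ) ≤ ((mult I K' x * 2 ^ (m1 * D2) : ℕ) : ℝ) := by
                  exact_mod_cast this.le
                push_cast at h4
                linarith
            _ ≤ ∑ x ∈ V, (mult I K' x : ℝ) * 1 * 2 ^ (m1 * D2) :=
                sum_le_sum_of_subset_of_nonneg (filter_subset _ _) fun _ _ _ => by positivity
            _ = (o * 2 ^ (m1 * D2)) * I.card := by rw [← sum_mul, h3]; ring
        have h5 := le_of_mul_le_mul_right h2 hIc
        exact_mod_cast h5
      have hWc2 : Wt.card ≤ 2 ^ ((m1 + 1) * D2) := by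
        refine hWc.trans ?_
        have h2 : 2 ^ ((m1 + 1) * D2) = 2 ^ D2 * 2 ^ (m1 * D2) := by rw [← pow_add]; ring_nf
        rw [h2]
        exact Nat.mul_le_mul_right _ (ho3.trans h3L)
      have hWlog : (2 + σ) * Real.logb 2 (Wt.card : ℝ) + b ≤ T := by
        have h2 : Real.logb 2 (Wt.card : ℝ) ≤ m1 * D2 + Real.logb 2 o := by
          rcases Nat.eq_zero_or_pos Wt.card with h | h
          · rw [h]
            simp only [Nat.cast_zero, Real.logb_zero]
            have : 0 ≤ Real.logb 2 (o:ℝ) := Real.logb_nonneg (by norm_num) ho1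
            positivity
          · have h' : (0:ℝ) < Wt.card := by exact_mod_cast h
            have h3 : Real.logb 2 (Wt.card : ℝ) ≤ Real.logb 2 (o * 2 ^ (m1 * D2)) := by
              apply Real.logb_le_logb_of_le (by norm_num) h'
              exact_mod_cast hWc
            rw [Real.logb_mul (by linarith) (by positivity), Real.logb_pow,
              Real.logb_self_eq_one (by norm_num)] at h3
            push_cast at h3
            linarith
        have : (2 + σ) * Real.logb 2 (Wt.card : ℝ) ≤ (2 + σ) * (m1 * D2 + Real.logb 2 o) :=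
          mul_le_mul_of_nonneg_left h2 (by linarith)
        linarith
      -- few bad indices
      set I' := I.filter fun i => T ≤ ((K' i ∩ Wt).card : ℝ) with hI'
      have hbad : 2 * I'.card < I.card := by
        by_contra hcon
        push Not at hcon
        have hI'ne : I'.Nonempty := by
          rw [← card_pos]; omega
        refine h1 (m1 + 1) (by omega) I' (fun i => K' i ∩ Wt) Wt hI'ne hWc2 ?_ ?_
        · intro i hi
          rw [hI', mem_filter] at hi
          exact ⟨hered _ _ inter_subset_left (hK'' i hi.1).1, inter_subset_right,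
            hWlog.trans hi.2⟩
        · have hs1 : Spr (3 * L * (J - (m + 1)) + 1) (2 * D') I' K' :=
            hSpr'.restrict (filter_subset _ _) (by simpa using hcon)
          refine (hs1.sub (K' := fun i => K' i ∩ Wt) fun i _ => inter_subset_left).mono ?_
          have h2 : J - (m1 + 1) = (J - (m + 1)) + (m - m1) := by omega
          rw [h2, mul_add]
          have h3 : 1 ≤ m - m1 := by omega
          have h4 : 1 ≤ 3 * L * (m - m1) := Nat.mul_pos (by omega) (by omega)
          omega
      have hlow := ent_lower I K' V hI (fun i hi => (hK'' i hi).2.1) (m1 * D2)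
        (fun x => ¬ I.card < mult I K' x * 2 ^ (m1 * D2)) (fun x hx => not_lt.mp hx)
      have hsum : (I.card : ℝ) / 2 * (o - T) ≤
          ∑ i ∈ I, (((K' i).filter fun x => ¬ I.card < mult I K' x * 2 ^ (m1 * D2)).card : ℝ) := by
        have h2 : ∀ i ∈ I.filter (fun i => ¬ T ≤ ((K' i ∩ Wt).card : ℝ)), (o:ℝ) - T ≤
            (((K' i).filter fun x => ¬ I.card < mult I K' x * 2 ^ (m1 * D2)).card : ℝ) := by
          intro i hi
          rw [mem_filter] at hi
          have h3 := card_filter_add_card_filter_not (s := K' i)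
            (fun x => I.card < mult I K' x * 2 ^ (m1 * D2))
          rw [(hK'' i hi.1).2.2] at h3
          have h4 : (K' i).filter (fun x => I.card < mult I K' x * 2 ^ (m1 * D2)) =
              K' i ∩ Wt := by
            ext x
            simp only [mem_filter, mem_inter, hWt]
            exact ⟨fun h => ⟨h.1, (hK'' i hi.1).2.1 h.1, h.2⟩, fun h => ⟨h.1, h.2.2⟩⟩
          rw [h4] at h3
          have h5 : ((K' i ∩ Wt).card : ℝ) + (((K' i).filter
            fun x => ¬ I.card < mult I K' x * 2 ^ (m1 * D2)).card : ℝ) = o := by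
            exact_mod_cast h3
          have h6 := not_le.mp hi.2
          linarith
        have h7 := card_filter_add_card_filter_not (s := I)
          (fun i => T ≤ ((K' i ∩ Wt).card : ℝ))
        rw [← hI'] at h7
        have h8 : (I.card : ℝ) / 2 ≤ ((I.filter
            (fun i => ¬ T ≤ ((K' i ∩ Wt).card : ℝ))).card : ℝ) := by
          have h9 : ((I'.card : ℕ):ℝ) + ((I.filter
            (fun i => ¬ T ≤ ((K' i ∩ Wt).card : ℝ))).card : ℝ) = I.card := by exact_mod_cast h7
          have h10 : 2 * (I'.card : ℝ) ≤ I.card := by exact_mod_cast hbad.le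
          linarith
        calc (I.card : ℝ) / 2 * (o - T) ≤ ((I.filter
            (fun i => ¬ T ≤ ((K' i ∩ Wt).card : ℝ))).card : ℝ) * (o - T) :=
              mul_le_mul_of_nonneg_right h8 (by linarith)
          _ = ∑ i ∈ I.filter (fun i => ¬ T ≤ ((K' i ∩ Wt).card : ℝ)), ((o:ℝ) - T) := by
              rw [sum_const, nsmul_eq_mul]
          _ ≤ _ := sum_le_sum h2
          _ ≤ _ := sum_le_sum_of_subset_of_nonneg (filter_subset _ _) fun _ _ _ => by positivity
      have h4 : ((o:ℝ) - T) / 2 * (m1 * D2) ≤ (∑ i ∈ I, (((K' i).filter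
          fun x => ¬ I.card < mult I K' x * 2 ^ (m1 * D2)).card : ℝ)) *
            ((m1 * D2 : ℕ) : ℝ) / I.card := by
        rw [le_div_iff₀ hIc]
        push_cast
        have h5 : (0:ℝ) ≤ (m1:ℝ) * D2 := by positivity
        nlinarith
      have h5 : σ₂ / 2 * (((o:ℝ) - T) / 2 * (m1 * D2)) ≤
          σ₂ / 2 * ∑ x ∈ V, ((mult I K' x : ℝ) / I.card) *
            Real.logb 2 (1 / ((mult I K' x : ℝ) / I.card)) := by
        exact mul_le_mul_of_nonneg_left (h4.trans hlow) (by linarith)
      linarith

end H761CQ
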