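import Mathlib
import Pool.Agent.H761R3.CQ.Phase2

namespace H761CQ

open Finset

lemma prs_mono {n : ℕ} {K K' : Finset (Fin n)} (h : K' ⊆ K) : prs K' ⊆ prs K := by
  intro e he
  simp only [prs, mem_filter] at he ⊢
  exact ⟨Finset.sym2_mono h he.1, he.2⟩

lemma okk_mono {n : ℕ} {A : Alg n} {G : Sym2 (Fin n) → Bool} {t u : ℕ} {K K' : Finset (Fin n)}
    (h : K' ⊆ K) (hK : okk A G t u K) : okk A G t u K' :=
  ⟨fun e he hq => hK.1 e (prs_mono h he) hq,
    (card_le_card (sdiff_subset_sdiff (prs_mono h) (Subset.refl _))).trans hK.2⟩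

open Classical in
theorem det (hTK : TaskK) (hTV : TaskV) (hTR : TaskR) {n L q u k θ h s a t D' X : ℕ}
    {σ b δ : ℝ} {A : Alg n} {G : Sym2 (Fin n) → Bool}
    (hnL : n ≤ 2 ^ L) (hq : (qd A G t).card ≤ q) (hqh : 2 * q ≤ 2 ^ h * 2 ^ h)
    (hθ : 2 * u ≤ θ * θ) (hθ1 : 1 ≤ θ) (hk3 : k ≤ 3 * L)
    (hX : X = 4 * L + 1 + 2 * D' * k)
    (hPD : PropD n L s u a (okk A G t u)) (hs : k * L + a ≤ s) (hs1 : 1 ≤ s)
    (hsD : 2 * s * k ≤ 2 ^ (2 * D'))
    (hfam : 2 ^ u ≤ 2 ^ (3 * L) * (fam A G t u k).card)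
    (hδ : 0 < δ) (hδL : 2 ≤ δ * L) (hk : (3 / 2 + δ) * L ≤ k)
    (hu : X + 4 * ((X : ℝ) + 2) / δ < u)
    (hfin : (2 + σ) * h + b + θ + 1 ≤ (1 + δ) * L) (hσ : 0 ≤ σ)
    (hNF : NoFam n (Finset (Fin n)) (fun K => okk A G t u K ∧ K.card ≤ 3 * L) 0 (2 * D')
      (2 ^ h) σ b) : False := by
  set 𝒜 := fam A G t u k with h𝒜
  have hmem : ∀ S ∈ 𝒜, S.card = k ∧ okk A G t u S := by
    intro S hS
    rw [h𝒜, fam, mem_filter] at hS
    exact ⟨hS.2.1, hS.2.2.1, hS.2.2.2.le⟩
  have h𝒜ne : 𝒜.Nonempty := by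
    rw [← card_pos]
    by_contra hcon
    have : 𝒜.card = 0 := by omega
    rw [this, mul_zero] at hfam
    have : 0 < 2 ^ u := by positivity
    omega
  obtain ⟨V, hVc, hVf⟩ := hTV n q u θ (2 ^ h) (2 ^ h) (qd A G t) 𝒜 hq h𝒜ne hθ hθ1 le_rfl hqh
    Nat.one_le_two_pow (fun S hS => (hmem S hS).2.2)
  set 𝒜' := 𝒜.filter fun S => (S \ V).card ≤ θ + 1 with h𝒜'
  have h𝒜'ne : 𝒜'.Nonempty := by
    rw [← card_pos]
    by_contra hcon
    have : 𝒜'.card = 0 := by omega
    rw [this, mul_zero] at hVf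
    have := h𝒜ne.card_pos
    omega
  obtain ⟨F, hF1, hF2⟩ := hTK n (2 * D') 𝒜' h𝒜'ne
  set ℬ := 𝒜'.filter fun S => F ⊆ S with hℬ
  have hℬne : ℬ.Nonempty := by
    rw [← card_pos]
    by_contra hcon
    have : ℬ.card = 0 := by omega
    rw [this, mul_zero] at hF1
    have := h𝒜'ne.card_pos
    omega
  have hmemB : ∀ S ∈ ℬ, S ∈ 𝒜 ∧ (S \ V).card ≤ θ + 1 ∧ F ⊆ S := by
    intro S hS
    rw [hℬ, mem_filter, h𝒜', mem_filter] at hS
    exact ⟨hS.1.1, hS.1.2, hS.2⟩
  have hFk : F.card ≤ k := by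
    obtain ⟨S, hS⟩ := hℬne
    have h1 := hmemB S hS
    rw [← (hmem S h1.1).1]
    exact card_le_card h1.2.2
  set o := k - F.card with ho
  have hfo : F.card + o = k := by omega
  -- size of ℬ
  have hBX : 2 ^ u ≤ 2 ^ X * ℬ.card := by
    have h1 : n + 1 ≤ 2 ^ (L + 1) := by
      have : 1 ≤ 2 ^ L := Nat.one_le_two_pow
      rw [pow_succ]; omega
    calc 2 ^ u ≤ 2 ^ (3 * L) * 𝒜.card := hfam
      _ ≤ 2 ^ (3 * L) * ((n + 1) * 𝒜'.card) := Nat.mul_le_mul_left _ hVf
      _ ≤ 2 ^ (3 * L) * (2 ^ (L + 1) * (2 ^ (2 * D' * F.card) * ℬ.card)) := by gcongr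
      _ ≤ 2 ^ (3 * L) * (2 ^ (L + 1) * (2 ^ (2 * D' * k) * ℬ.card)) := by
          gcongr
          norm_num
      _ = 2 ^ X * ℬ.card := by rw [hX]; ring
  -- the petals
  set Pet := ℬ.image fun S => S \ F with hPet
  have hinj : Set.InjOn (fun S : Finset (Fin n) => S \ F) (ℬ : Set (Finset (Fin n))) := by
    intro S hS S' hS' hSS
    have h1 := (hmemB S hS).2.2
    have h2 := (hmemB S' hS').2.2
    have h3 : S \ F = S' \ F := hSS
    rw [← sdiff_union_of_subset h1, h3, sdiff_union_of_subset h2]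
  have hPetcard : Pet.card = ℬ.card := card_image_of_injOn hinj
  have hPeto : ∀ K ∈ Pet, K.card = o := by
    intro K hK
    rw [hPet, mem_image] at hK
    obtain ⟨S, hS, rfl⟩ := hK
    rw [card_sdiff_of_subset (hmemB S hS).2.2, (hmem S (hmemB S hS).1).1]
  have hPetx : ∀ x : Fin n, (Pet.filter fun K => x ∈ K).card * 2 ^ (2 * D') ≤ Pet.card := by
    intro x
    by_cases hx : x ∈ F
    · have : Pet.filter (fun K => x ∈ K) = ∅ := by
        rw [filter_eq_empty_iff]
        intro K hK hxK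
        rw [hPet, mem_image] at hK
        obtain ⟨S, hS, rfl⟩ := hK
        exact (mem_sdiff.mp hxK).2 hx
      rw [this]; simp
    · have h1 := hF2 {x} (by simpa using hx)
      rw [card_singleton, mul_one] at h1
      rw [hPetcard]
      refine le_trans (Nat.mul_le_mul_right _ ?_) h1
      have h2 : Pet.filter (fun K => x ∈ K) ⊆
          (𝒜'.filter fun S => F ∪ {x} ⊆ S).image fun S => S \ F := by
        intro K hK
        rw [mem_filter, hPet, mem_image] at hK
        obtain ⟨⟨S, hS, rfl⟩, hxS⟩ := hK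
        rw [mem_image]
        refine ⟨S, ?_, rfl⟩
        rw [mem_filter]
        rw [hℬ, mem_filter] at hS
        refine ⟨hS.1, union_subset hS.2 ?_⟩
        rw [singleton_subset_iff]
        exact (mem_sdiff.mp hxS).1
      exact (card_le_card h2).trans card_image_le
  have hok : o ≤ k := by omega
  have hR := hTR n (2 * D') s o Pet hPeto hPetx ((Nat.mul_le_mul_left _ hok).trans hsD)
  have hPD' := hPD F o
  have hsub : (univ.filter fun K : Fin s → Finset (Fin n) =>
      (∀ i, K i ∈ Pet) ∧ ∀ i j, i ≠ j → Disjoint (K i) (K j)).card ≤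
      (univ.filter fun K : Fin s → Finset (Fin n) =>
        (∀ i, (K i).card = o ∧ Disjoint F (K i) ∧ okk A G t u (F ∪ K i)) ∧
          ∀ i j, i ≠ j → Disjoint (K i) (K j)).card := by
    apply card_le_card
    intro K hK
    rw [mem_filter] at hK ⊢
    refine ⟨mem_univ _, fun i => ⟨hPeto _ (hK.2.1 i), ?_⟩, hK.2.2⟩
    have h1 := hK.2.1 i
    rw [hPet, mem_image] at h1
    obtain ⟨S, hS, hSK⟩ := h1
    rw [← hSK]
    refine ⟨disjoint_sdiff, ?_⟩
    rw [union_sdiff_of_subset (hmemB S hS).2.2]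
    exact (hmem S (hmemB S hS).1).2
  have hexp : u * s + s * (F.card * o + o.choose 2) ≤
      X * s + s + (s * (u + o * L) + F.card * L + a) := by
    have h1 : 2 ^ (u * s + s * (F.card * o + o.choose 2)) ≤
        2 ^ (X * s + s + (s * (u + o * L) + F.card * L + a)) := by
      calc 2 ^ (u * s + s * (F.card * o + o.choose 2))
          = (2 ^ u) ^ s * 2 ^ (s * (F.card * o + o.choose 2)) := by rw [pow_add, ← pow_mul]
        _ ≤ (2 ^ X * ℬ.card) ^ s * 2 ^ (s * (F.card * o + o.choose 2)) := by gcongr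
        _ = 2 ^ (X * s) * (Pet.card ^ s * 2 ^ (s * (F.card * o + o.choose 2))) := by
            rw [mul_pow, ← pow_mul, hPetcard]; ring
        _ ≤ 2 ^ (X * s) * ((2 ^ s * _) * 2 ^ (s * (F.card * o + o.choose 2))) := by
            gcongr
        _ = 2 ^ (X * s + s) * (_ * 2 ^ (s * (F.card * o + o.choose 2))) := by
            rw [pow_add]; ring
        _ ≤ 2 ^ (X * s + s) * 2 ^ (s * (u + o * L) + F.card * L + a) :=
            Nat.mul_le_mul_left _ ((Nat.mul_le_mul_right _ hsub).trans hPD')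
        _ = 2 ^ (X * s + s + (s * (u + o * L) + F.card * L + a)) := by rw [← pow_add]
    exact (Nat.pow_le_pow_iff_right (by norm_num)).mp h1
  have hstar : F.card * o + o.choose 2 ≤ X + 2 + o * L := by
    have h1 : F.card * L ≤ k * L := Nat.mul_le_mul_right _ hFk
    have h2 : s * (F.card * o + o.choose 2) ≤ s * (X + 2 + o * L) := by nlinarith
    exact Nat.le_of_mul_le_mul_left h2 (by omega)
  have hstar2 : u ≤ X + o * L := by
    have h1 : ℬ.card ≤ 2 ^ (o * L) := by
      rw [← hPetcard]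
      have h2 : Pet ⊆ powersetCard o (univ : Finset (Fin n)) := by
        intro K hK
        rw [mem_powersetCard]
        exact ⟨subset_univ _, hPeto K hK⟩
      refine (card_le_card h2).trans ?_
      rw [card_powersetCard, card_univ, Fintype.card_fin]
      calc n.choose o ≤ n ^ o := Nat.choose_le_pow _ _
        _ ≤ (2 ^ L) ^ o := Nat.pow_le_pow_left hnL _
        _ = 2 ^ (o * L) := by rw [← pow_mul, mul_comm]
    have h3 : 2 ^ u ≤ 2 ^ (X + o * L) := by
      rw [pow_add]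
      exact hBX.trans (Nat.mul_le_mul_left _ h1)
    exact (Nat.pow_le_pow_iff_right (by norm_num)).mp h3
  have hbig : (1 + δ) * L < o := by
    by_contra hcon
    push Not at hcon
    have h1 : ((F.card : ℝ)) = k - o := by
      have : ((F.card + o : ℕ) : ℝ) = k := by exact_mod_cast hfo
      push_cast at this; linarith
    have h2 : ((o.choose 2 : ℕ) : ℝ) = o * (o - 1) / 2 := Nat.cast_choose_two ℝ o
    have h3 : (F.card : ℝ) * o + (o.choose 2 : ℕ) ≤ X + 2 + o * L := by exact_mod_cast hstar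
    rw [h1, h2] at h3
    have h4 : (u : ℝ) ≤ X + o * L := by exact_mod_cast hstar2
    have ho0 : (0:ℝ) ≤ o := Nat.cast_nonneg _
    have h5 : δ * L / 4 ≤ (k:ℝ) - o / 2 - 1 / 2 - L := by linarith
    have h6 : (o:ℝ) * (δ * L / 4) ≤ X + 2 := by nlinarith
    have h7 : ((u:ℝ) - X) * δ ≤ 4 * (X + 2) := by nlinarith
    have h8 : 4 * ((X:ℝ) + 2) < (u - X) * δ := by
      have : 4 * ((X:ℝ) + 2) / δ < u - X := by linarith
      rwa [div_lt_iff₀ hδ] at this
    linarith
  -- final contradiction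
  have hVlog : Real.logb 2 (V.card : ℝ) ≤ h := by
    rcases Nat.eq_zero_or_pos V.card with h0 | h0
    · rw [h0]; simp
    · have h' : (0:ℝ) < V.card := by exact_mod_cast h0
      rw [Real.logb_le_iff_le_rpow (by norm_num) h', Real.rpow_natCast]
      exact_mod_cast hVc
  refine hNF ℬ (fun S => (S \ F) ∩ V) V hℬne hVc ?_ ?_
  · intro S hS
    have h1 := hmemB S hS
    have h2 := hmem S h1.1
    have hss : (S \ F) ∩ V ⊆ S := inter_subset_left.trans sdiff_subset
    refine ⟨⟨okk_mono hss h2.2, ((card_le_card hss).trans h2.1.le).trans hk3⟩,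
      inter_subset_right, ?_⟩
    have h3 : o ≤ ((S \ F) ∩ V).card + (θ + 1) := by
      have h4 : (S \ F).card = o := by
        rw [card_sdiff_of_subset h1.2.2, h2.1]
      have h5 : (S \ F).card ≤ ((S \ F) ∩ V).card + (S \ V).card := by
        rw [← card_inter_add_card_sdiff (S \ F) V]
        gcongr
        exact sdiff_subset
      omega
    have h6 : (o:ℝ) ≤ ((S \ F) ∩ V).card + (θ + 1) := by exact_mod_cast h3
    have h7 : (2 + σ) * Real.logb 2 (V.card : ℝ) ≤ (2 + σ) * h :=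
      mul_le_mul_of_nonneg_left hVlog (by linarith)
    linarith
  · intro Y
    rw [pow_zero, one_mul]
    by_cases hY : Disjoint F Y
    · refine le_trans (Nat.mul_le_mul_right _ (card_le_card ?_)) (hF2 Y hY)
      intro S hS
      rw [mem_filter] at hS ⊢
      have h1 := hS.1
      rw [hℬ, mem_filter] at h1
      exact ⟨h1.1, union_subset h1.2 (hS.2.trans (inter_subset_left.trans sdiff_subset))⟩
    · have : ℬ.filter (fun i => Y ⊆ (i \ F) ∩ V) = ∅ := by
        rw [filter_eq_empty_iff]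
        intro S _ hYS
        apply hY
        rw [disjoint_left]
        intro x hxF hxY
        exact (mem_sdiff.mp (mem_inter.mp (hYS hxY)).1).2 hxF
      rw [this]; simp

end H761CQ
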