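import Mathlib
import Pool.Agent.H761R3.CQ.Det

namespace H761CQ

open Finset Filter

/-- the parameters -/
structure Par (δ : ℝ) (A m1 : ℕ) : Prop where
  hδ : 0 < δ
  hδ1 : δ ≤ 1
  hA : 1 ≤ A
  hm1 : 1 ≤ m1
  h1 : 32768 * m1 ≤ A * δ ^ 3
  h2 : 200000 ≤ m1 * δ ^ 3

lemma exists_par (δ : ℝ) (hδ : 0 < δ) (hδ1 : δ ≤ 1) : ∃ A m1 : ℕ, Par δ A m1 := by
  have hd3 : 0 < δ ^ 3 := by positivity
  have hd31 : δ ^ 3 ≤ 1 := pow_le_one₀ hδ.le hδ1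
  obtain ⟨m1, hm1⟩ := exists_nat_ge (200000 / δ ^ 3)
  obtain ⟨A, hA⟩ := exists_nat_ge (32768 * m1 / δ ^ 3)
  rw [div_le_iff₀ hd3] at hm1 hA
  have hm : (1:ℝ) ≤ m1 := by
    by_contra hcon
    push Not at hcon
    nlinarith
  have hA' : (1:ℝ) ≤ A := by
    by_contra hcon
    push Not at hcon
    nlinarith
  exact ⟨A, m1, hδ, hδ1, by exact_mod_cast hA', by exact_mod_cast hm, hA, hm1⟩

/-- polynomial against exponential -/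
lemma ev_pow (c d : ℕ) : ∀ᶠ l : ℕ in atTop, c * l ^ d ≤ 2 ^ l := by
  have h := tendsto_pow_const_div_const_pow_of_one_lt d (r := (2:ℝ)) (by norm_num)
  have h2 : ∀ᶠ l : ℕ in atTop, (l:ℝ) ^ d / 2 ^ l < 1 / (c + 1) :=
    h.eventually_lt_const (by positivity)
  filter_upwards [h2] with l hl
  rw [div_lt_div_iff₀ (by positivity) (by positivity)] at hl
  have : (l:ℝ) ^ d * c ≤ 2 ^ l := by
    have : 0 ≤ (l:ℝ) ^ d := by positivity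
    nlinarith
  have h3 : ((c * l ^ d : ℕ) : ℝ) ≤ ((2 ^ l : ℕ) : ℝ) := by push_cast; linarith
  exact_mod_cast h3

lemma ev_log (c κ : ℝ) (hc : 0 < c) (hκ : 0 < κ) :
    ∀ᶠ l : ℕ in atTop, Real.logb 2 (c * (l:ℝ) ^ 2) ≤ κ * l := by
  have h1 : (fun x : ℝ => Real.log x) =o[atTop] (fun x : ℝ => x) := Real.isLittleO_log_id_atTop
  have hl2 : 0 < Real.log 2 := Real.log_pos (by norm_num)
  have h2 := (h1.bound (c := κ * Real.log 2 / 4) (by positivity))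
  have h3 : ∀ᶠ l : ℕ in atTop, ‖Real.log (l:ℝ)‖ ≤ κ * Real.log 2 / 4 * ‖(l:ℝ)‖ :=
    tendsto_natCast_atTop_atTop.eventually h2
  have h4 : ∀ᶠ l : ℕ in atTop, 2 * Real.log c / (κ * Real.log 2) ≤ (l:ℝ) :=
    tendsto_natCast_atTop_atTop.eventually (eventually_ge_atTop _)
  filter_upwards [h3, h4, eventually_ge_atTop 1] with l hl hl4 hl1
  have hlpos : (0:ℝ) < l := by exact_mod_cast hl1
  rw [Real.logb, div_le_iff₀ hl2, Real.log_mul (by positivity) (by positivity), Real.log_pow]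
  rw [div_le_iff₀ (by positivity)] at hl4
  have h5 : Real.log (l:ℝ) ≤ κ * Real.log 2 / 4 * l := by
    calc Real.log (l:ℝ) ≤ ‖Real.log (l:ℝ)‖ := le_abs_self _
      _ ≤ _ := hl
      _ = κ * Real.log 2 / 4 * l := by rw [Real.norm_of_nonneg hlpos.le]
  push_cast
  nlinarith

/-- all conditions on `l` -/
structure Big (δ : ℝ) (A m1 l : ℕ) : Prop where
  e0 : 1000 ≤ l
  e1 : (6 * A * l) ^ (6 * A ^ 2 + 1 + 1) ≤ 2 ^ (2 * l)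
  e2 : (3 * (2 * A * l)) ^ 2 * (5 * (2 * A * l)) * 2 ^ l ≤ 2 ^ (2 * l)
  e3 : 3 * (2 * A * l) ≤ 2 ^ l
  e4 : 2 * (3 * (2 * A * l) * (2 * A * l) + 5 * (2 * A * l)) * (3 * (2 * A * l)) ≤
    2 ^ (2 * (2 * l))
  e5 : 4 + ((6 * A ^ 2 + 1 : ℕ) : ℝ) + (2 + (2048 / δ ^ 2) / 2) *
    Real.logb 2 ((120 * A ^ 2 : ℝ) * (l:ℝ) ^ 2) ≤ 1 * l
  e6 : (2 + 2048 / δ ^ 2) * Real.logb 2 ((120 * A ^ 2 : ℝ) * (l:ℝ) ^ 2) ≤ δ / 1000 * l
  e7 : 16 * (((6 * A ^ 2 + 1 : ℕ) : ℝ) + 1) ≤ A * δ * l / 8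
  e8 : 10 ≤ δ * l

lemma ev_big {δ : ℝ} {A m1 : ℕ} (h : Par δ A m1) : ∀ᶠ l : ℕ in atTop, Big δ A m1 l := by
  have hA : (1:ℝ) ≤ A := by exact_mod_cast h.hA
  have hδ := h.hδ
  have hc : (0:ℝ) < 120 * A ^ 2 := by positivity
  set s : ℝ := 2048 / δ ^ 2 with hs
  have hs0 : 0 < s := by positivity
  have p1 := ev_pow ((6 * A) ^ (6 * A ^ 2 + 1 + 1)) (6 * A ^ 2 + 1 + 1)
  have p2 := ev_pow (360 * A ^ 3) 3
  have p3 := ev_pow (6 * A) 1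
  have p4 := ev_pow (144 * A ^ 3) 3
  have p4' := ev_pow (120 * A ^ 2) 2
  have p5 := ev_log (120 * A ^ 2) (1 / (2 * (2 + s / 2))) hc (by positivity)
  have p6 := ev_log (120 * A ^ 2) (δ / 1000 / (2 + s)) hc (by positivity)
  have p7 : ∀ᶠ l : ℕ in atTop, 2 * (4 + ((6 * A ^ 2 + 1 : ℕ) : ℝ)) ≤ (l:ℝ) :=
    tendsto_natCast_atTop_atTop.eventually (eventually_ge_atTop _)
  have p8 : ∀ᶠ l : ℕ in atTop, 8 * (16 * (((6 * A ^ 2 + 1 : ℕ) : ℝ) + 1)) / (A * δ) ≤ (l:ℝ) :=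
    tendsto_natCast_atTop_atTop.eventually (eventually_ge_atTop _)
  have p9 : ∀ᶠ l : ℕ in atTop, 10 / δ ≤ (l:ℝ) :=
    tendsto_natCast_atTop_atTop.eventually (eventually_ge_atTop _)
  filter_upwards [p1, p2, p3, p4, p4', p5, p6, p7, p8, p9, eventually_ge_atTop 1000] with
    l q1 q2 q3 q4 q4' q5 q6 q7 q8 q9 q0
  refine ⟨q0, ?_, ?_, ?_, ?_, ?_, ?_, ?_, ?_⟩
  · calc (6 * A * l) ^ (6 * A ^ 2 + 1 + 1)
        = (6 * A) ^ (6 * A ^ 2 + 1 + 1) * l ^ (6 * A ^ 2 + 1 + 1) := by rw [mul_pow]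
      _ ≤ 2 ^ l := q1
      _ ≤ 2 ^ (2 * l) := Nat.pow_le_pow_right (by norm_num) (by omega)
  · calc (3 * (2 * A * l)) ^ 2 * (5 * (2 * A * l)) * 2 ^ l
        = (360 * A ^ 3 * l ^ 3) * 2 ^ l := by ring
      _ ≤ 2 ^ l * 2 ^ l := Nat.mul_le_mul_right _ q2
      _ = 2 ^ (2 * l) := by rw [← pow_add]; ring_nf
  · calc 3 * (2 * A * l) = 6 * A * l ^ 1 := by ring
      _ ≤ 2 ^ l := q3
  · calc 2 * (3 * (2 * A * l) * (2 * A * l) + 5 * (2 * A * l)) * (3 * (2 * A * l))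
        = 144 * A ^ 3 * l ^ 3 + 120 * A ^ 2 * l ^ 2 := by ring
      _ ≤ 2 ^ l + 2 ^ l := by omega
      _ = 2 ^ (l + 1) := by ring
      _ ≤ 2 ^ (2 * (2 * l)) := Nat.pow_le_pow_right (by norm_num) (by omega)
  · have h1 : (2 + s / 2) * Real.logb 2 ((120 * A ^ 2 : ℝ) * (l:ℝ) ^ 2) ≤
        (2 + s / 2) * (1 / (2 * (2 + s / 2)) * l) :=
      mul_le_mul_of_nonneg_left q5 (by positivity)
    have h2 : (2 + s / 2) * (1 / (2 * (2 + s / 2)) * (l:ℝ)) = l / 2 := by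
      field_simp
    linarith
  · have h1 : (2 + s) * Real.logb 2 ((120 * A ^ 2 : ℝ) * (l:ℝ) ^ 2) ≤
        (2 + s) * (δ / 1000 / (2 + s) * l) :=
      mul_le_mul_of_nonneg_left q6 (by positivity)
    have h2 : (2 + s) * (δ / 1000 / (2 + s) * (l:ℝ)) = δ / 1000 * l := by
      field_simp
    linarith
  · rw [div_le_iff₀ (by positivity)] at q8
    linarith
  · rw [div_le_iff₀ hδ] at q9
    linarith

end H761CQ
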