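import Mathlib
import Pool.Agent.H761R3.CQ.Num

namespace H761CQ

open Finset Filter

/-- number of unqueried pairs at the critical time -/
noncomputable def uu (δ : ℝ) (A l : ℕ) : ℕ := ⌈125 * A / δ⌉₊ * l ^ 2

lemma uu_le {δ : ℝ} {A m1 l : ℕ} (hp : Par δ A m1) : (uu δ A l : ℝ) ≤ 126 * A / δ * l ^ 2 := by
  have hA : (1:ℝ) ≤ A := by exact_mod_cast hp.hA
  have hδ := hp.hδ
  have h1 : (⌈125 * A / δ⌉₊ : ℝ) < 125 * A / δ + 1 := Nat.ceil_lt_add_one (by positivity)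
  have h2 : (1:ℝ) ≤ A / δ := by
    rw [le_div_iff₀ hδ]; nlinarith [hp.hδ1]
  have h3 : (⌈125 * A / δ⌉₊ : ℝ) ≤ 126 * A / δ := by
    have : 126 * (A:ℝ) / δ = 125 * A / δ + A / δ := by ring
    linarith
  unfold uu
  push_cast
  exact mul_le_mul_of_nonneg_right h3 (by positivity)

lemma le_uu {δ : ℝ} {A m1 l : ℕ} (hp : Par δ A m1) : 125 * A / δ * l ^ 2 ≤ (uu δ A l : ℝ) := by
  have h1 : 125 * A / δ ≤ (⌈125 * A / δ⌉₊ : ℝ) := Nat.le_ceil _
  unfold uu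
  push_cast
  exact mul_le_mul_of_nonneg_right h1 (by positivity)

lemma logs {A l o : ℕ} (hA : 1 ≤ A) (hl : 1 ≤ l) (ho : 1 ≤ o) (ho3 : o ≤ 3 * (2 * A * l)) :
    Real.logb 2 (2 * o) ≤ Real.logb 2 ((120 * A ^ 2 : ℝ) * (l:ℝ) ^ 2) ∧
    Real.logb 2 (2 * o * ((5 * (2 * A * l) : ℕ) : ℝ)) ≤
      Real.logb 2 ((120 * A ^ 2 : ℝ) * (l:ℝ) ^ 2) ∧
    Real.logb 2 o ≤ Real.logb 2 ((120 * A ^ 2 : ℝ) * (l:ℝ) ^ 2) := by
  have hA' : (1:ℝ) ≤ A := by exact_mod_cast hA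
  have hl' : (1:ℝ) ≤ l := by exact_mod_cast hl
  have ho' : (1:ℝ) ≤ o := by exact_mod_cast ho
  have ho3' : (o:ℝ) ≤ 6 * (A * l) := by
    have : ((o:ℕ):ℝ) ≤ ((3 * (2 * A * l) : ℕ) : ℝ) := by exact_mod_cast ho3
    push_cast at this; linarith
  have hAl : (1:ℝ) ≤ A * l := by nlinarith
  have h2 : (A * l : ℝ) ≤ (A * l) ^ 2 := by nlinarith
  have e : (120 * A ^ 2 : ℝ) * (l:ℝ) ^ 2 = 120 * (A * l) ^ 2 := by ring
  rw [e]
  refine ⟨?_, ?_, ?_⟩
  · apply Real.logb_le_logb_of_le (by norm_num) (by positivity)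
    linarith
  · apply Real.logb_le_logb_of_le (by norm_num) (by positivity)
    push_cast
    nlinarith
  · apply Real.logb_le_logb_of_le (by norm_num) (by positivity)
    linarith

open Classical in
theorem core_det (hE4 : TaskE4) (hStep : Step) (hTK : TaskK) (hTV : TaskV) (hTR : TaskR)
    {δ : ℝ} {A m1 l : ℕ} (hp : Par δ A m1) (hb : Big δ A m1 l) {n q k t : ℕ} {A' : Alg n}
    {G : Sym2 (Fin n) → Bool} (hn : n ≤ 2 ^ (2 * A * l))
    (hq : q ≤ 2 ^ (2 * A * l + ⌊δ * (2 * A * l) / 32⌋₊)) (ht : t ≤ q)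
    (hk1 : (3 / 2 + δ) * (2 * A * l) ≤ k) (hk2 : k ≤ 3 * (2 * A * l))
    (hP : PropP n (5 * (2 * A * l)) (uu δ A l) (2 * A * l + 1) (okk A' G t (uu δ A l)))
    (hD : PropD n (2 * A * l) (3 * (2 * A * l) * (2 * A * l) + 5 * (2 * A * l)) (uu δ A l)
      (5 * (2 * A * l)) (okk A' G t (uu δ A l)))
    (hfam : 2 ^ (uu δ A l) ≤ 2 ^ (3 * (2 * A * l)) * (fam A' G t (uu δ A l) k).card) : False := by
  obtain ⟨hδ, hδ1, hA, hm1, hp1, hp2⟩ := hp
  obtain ⟨e0, e1, e2, e3, e4, e5, e6, e7, e8⟩ := hb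
  have hpar : Par δ A m1 := ⟨hδ, hδ1, hA, hm1, hp1, hp2⟩
  have hA' : (1:ℝ) ≤ A := by exact_mod_cast hA
  have hl1 : 1 ≤ l := by omega
  have hl' : (1000:ℝ) ≤ l := by exact_mod_cast e0
  have hm1' : (1:ℝ) ≤ m1 := by exact_mod_cast hm1
  set L := 2 * A * l with hL
  have hLr : (L:ℝ) = 2 * A * l := by rw [hL]; push_cast; ring
  have hL1 : 1 ≤ L := Nat.mul_pos (by omega) (by omega)
  set u := uu δ A l with hu
  have huu := uu_le (l := l) hpar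
  have huu' := le_uu (l := l) hpar
  rw [← hu] at huu huu'
  set σ : ℝ := 2048 / δ ^ 2 with hσ
  have hd2 : δ ^ 2 ≤ 1 := pow_le_one₀ hδ.le hδ1
  have hd2p : 0 < δ ^ 2 := by positivity
  have hσ0 : 2048 ≤ σ := by rw [hσ, le_div_iff₀ hd2p]; linarith
  set b : ℝ := A * δ * l / 8 with hbdef
  set b₂ : ℝ := A * δ * l / 4 with hb₂def
  have hσm : σ * m1 ≤ A * δ / 16 := by
    rw [hσ, div_mul_eq_mul_div, div_le_iff₀ hd2p]
    clear * - hp1; nlinarith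
  have hAδ : 0 < A * δ := by positivity
  have hAl : (0:ℝ) < A * l := by positivity
  set Λ := Real.logb 2 ((120 * A ^ 2 : ℝ) * (l:ℝ) ^ 2) with hΛ
  have hΛ0 : 0 ≤ Λ := by
    apply Real.logb_nonneg (by norm_num)
    have : (1:ℝ) ≤ A * l := by clear * - hA' hl'; nlinarith
    clear * - this; nlinarith [mul_self_nonneg ((A:ℝ) * l - 1)]
  set ok : Finset (Fin n) → Prop := fun K => okk A' G t u K ∧ K.card ≤ 3 * L with hok
  have hered : ∀ K K' : Finset (Fin n), K' ⊆ K → ok K → ok K' := fun K K' hKK h =>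
    ⟨okk_mono hKK h.1, (card_le_card hKK).trans h.2⟩
  have hsize : ∀ K, ok K → K.card ≤ 3 * L := fun K h => h.2
  have hPok : PropP n (5 * L) u (L + 1) ok := fun V hV w hw hs K hK =>
    hP V hV w hw hs K fun i => ⟨(hK i).1, (hK i).2.1⟩
  have hj : (3 * L) ^ (6 * A ^ 2 + 1 + 1) * 2 ^ (3 * L * (2 * A)) ≤
      2 ^ (2 * l * (6 * A ^ 2 + 1)) := by
    have h1 : 2 * l * (6 * A ^ 2 + 1) = 2 * l + 3 * L * (2 * A) := by rw [hL]; ring
    rw [h1, pow_add 2 (2 * l) (3 * L * (2 * A))]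
    refine Nat.mul_le_mul_right _ ?_
    have h2 : 3 * L = 6 * A * l := by rw [hL]; ring
    rw [h2]
    exact e1
  have hnum1 : ∀ o : ℕ, b ≤ o → o ≤ 3 * L →
      (u : ℝ) + 4 + o * (4 + ((6 * A ^ 2 + 1 : ℕ) : ℝ) + Real.logb 2 (2 * o) +
        (1 + σ / 2) * Real.logb 2 (2 * o * ((5 * L : ℕ) : ℝ))) <
        σ / 2 * ((o - (((6 * A ^ 2 + 1 : ℕ) : ℝ) + 1)) * ((2 * l : ℕ) : ℝ)) := by
    intro o hbo ho3
    have hb1 : 16 * (((6 * A ^ 2 + 1 : ℕ) : ℝ) + 1) ≤ o := e7.trans hbo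
    have hj0 : (0:ℝ) ≤ ((6 * A ^ 2 + 1 : ℕ) : ℝ) := Nat.cast_nonneg _
    have ho1 : (1:ℝ) ≤ o := by linarith
    obtain ⟨g1, g2, g3⟩ := logs hA hl1 (by exact_mod_cast ho1) ho3
    rw [← hΛ] at g1 g2 g3
    have h1 : 4 + ((6 * A ^ 2 + 1 : ℕ) : ℝ) + Real.logb 2 (2 * o) +
        (1 + σ / 2) * Real.logb 2 (2 * o * ((5 * L : ℕ) : ℝ)) ≤ l := by
      have : (1 + σ / 2) * Real.logb 2 (2 * o * ((5 * L : ℕ) : ℝ)) ≤ (1 + σ / 2) * Λ :=
        mul_le_mul_of_nonneg_left g2 (by linarith)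
      linarith
    have h2 : (o:ℝ) * (4 + ((6 * A ^ 2 + 1 : ℕ) : ℝ) + Real.logb 2 (2 * o) +
        (1 + σ / 2) * Real.logb 2 (2 * o * ((5 * L : ℕ) : ℝ))) ≤ o * l :=
      mul_le_mul_of_nonneg_left h1 (by linarith)
    have h3 : (u:ℝ) ≤ 63 / 128 * (σ * (o * l)) := by
      have h4 : (A:ℝ) * δ * l ≤ 8 * o := by
        have : A * δ * l / 8 ≤ (o:ℝ) := hbo
        linarith
      have h5 : 126 * (A:ℝ) / δ * l ^ 2 ≤ 63 / 128 * (σ * (o * l)) := by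
        rw [hσ]
        have h6 : 126 * (A:ℝ) / δ * l ^ 2 = 126 * (A * δ * l) * l / δ ^ 2 := by
          field_simp
        have h7 : 63 / 128 * (2048 / δ ^ 2 * ((o:ℝ) * l)) = 1008 * (o * l) / δ ^ 2 := by ring
        rw [h6, h7]
        apply div_le_div_of_nonneg_right _ hd2p.le
        clear * - h4 hl'; nlinarith
      linarith
    push_cast at hb1 ⊢
    have hol : (0:ℝ) < o * l := by positivity
    have h8 : 2048 * ((o:ℝ) * l) ≤ σ * (o * l) := mul_le_mul_of_nonneg_right hσ0 hol.le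
    have h9 : (4:ℝ) ≤ o * l := by clear * - ho1 hl'; nlinarith
    have h10 : σ * l * (16 * (6 * (A:ℝ) ^ 2 + 1 + 1)) ≤ σ * l * o :=
      mul_le_mul_of_nonneg_left hb1 (by positivity)
    push_cast at h2
    clear * - h2 h3 h8 h9 h10 hol; nlinarith
  have hb7 : (16:ℝ) ≤ b := by
    have hj0 : (0:ℝ) ≤ ((6 * A ^ 2 + 1 : ℕ) : ℝ) := Nat.cast_nonneg _
    linarith
  have hph1 := phase1 hE4 hStep (Finset (Fin n)) hn (by omega : 1 ≤ 5 * L)
    (by rw [pow_succ]; omega : 2 * n ≤ 2 ^ (L + 1)) (by linarith : (0:ℝ) ≤ σ)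
    (by linarith : (2:ℝ) ≤ b) hered hsize hPok (D' := 2 * l) (D2 := l) e2 hj hnum1
  have hT : ∀ o : ℕ, b₂ ≤ o → o ≤ 3 * L →
      (2 + σ) * (m1 * l + Real.logb 2 o) + b + A * δ * l / 20 ≤ o := by
    intro o hbo ho3
    have hbb : b₂ = 2 * b := by rw [hbdef, hb₂def]; ring
    have ho1 : (1:ℝ) ≤ o := by linarith
    obtain ⟨g1, g2, g3⟩ := logs hA hl1 (by exact_mod_cast ho1) ho3
    rw [← hΛ] at g1 g2 g3
    have h1 : (2 + σ) * Real.logb 2 o ≤ δ / 1000 * l :=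
      (mul_le_mul_of_nonneg_left g3 (by linarith)).trans e6
    have h2 : δ / 1000 * l ≤ A * δ * l / 1000 := by
      have h22 : (0:ℝ) ≤ δ * l := by positivity
      clear * - hA' h22; nlinarith
    have h3 : (2 + σ) * (m1:ℝ) ≤ (1 + 1 / 1024) * (A * δ / 16) := by
      have h33 := mul_le_mul_of_nonneg_right hσ0 (by linarith : (0:ℝ) ≤ m1)
      clear * - hσm h33; nlinarith
    have h4 : (2 + σ) * ((m1:ℝ) * l) ≤ (1 + 1 / 1024) * (A * δ / 16) * l := by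
      have := mul_le_mul_of_nonneg_right h3 (by positivity : (0:ℝ) ≤ l)
      linarith
    have h5 : A * δ * l / 4 ≤ (o:ℝ) := hbo
    have h6 : 0 < A * δ * l := by positivity
    rw [mul_add]
    rw [hbdef]
    linarith
  have hnum2 : ∀ o : ℕ, b₂ ≤ o → o ≤ 3 * L →
      (u : ℝ) + 4 + o * (4 + ((6 * A ^ 2 + 1 : ℕ) : ℝ) + Real.logb 2 (2 * o) +
        (1 + δ / 16 / 2) * Real.logb 2 (2 * o * ((5 * L : ℕ) : ℝ))) <
        δ / 16 / 2 * ((o - ((2 + σ) * (m1 * l + Real.logb 2 o) + b)) / 2 * (m1 * l)) := by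
    intro o hbo ho3
    have hbb : b₂ = 2 * b := by rw [hbdef, hb₂def]; ring
    have ho1 : (1:ℝ) ≤ o := by linarith
    obtain ⟨g1, g2, g3⟩ := logs hA hl1 (by exact_mod_cast ho1) ho3
    rw [← hΛ] at g1 g2 g3
    have h1 : 4 + ((6 * A ^ 2 + 1 : ℕ) : ℝ) + Real.logb 2 (2 * o) +
        (1 + δ / 16 / 2) * Real.logb 2 (2 * o * ((5 * L : ℕ) : ℝ)) ≤ l := by
      have h11 : (1 + δ / 16 / 2) * Real.logb 2 (2 * o * ((5 * L : ℕ) : ℝ)) ≤
          (1 + δ / 16 / 2) * Λ :=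
        mul_le_mul_of_nonneg_left g2 (by linarith)
      have h12 : (1 + δ / 16 / 2) * Λ ≤ (1 + σ / 2) * Λ :=
        mul_le_mul_of_nonneg_right (by linarith) hΛ0
      linarith
    have h2 : (o:ℝ) * (4 + ((6 * A ^ 2 + 1 : ℕ) : ℝ) + Real.logb 2 (2 * o) +
        (1 + δ / 16 / 2) * Real.logb 2 (2 * o * ((5 * L : ℕ) : ℝ))) ≤ o * l :=
      mul_le_mul_of_nonneg_left h1 (by linarith)
    have ho3' : (o:ℝ) ≤ 6 * (A * l) := by
      have : ((o:ℕ):ℝ) ≤ ((3 * L : ℕ) : ℝ) := by exact_mod_cast ho3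
      push_cast at this; rw [hLr] at this; linarith
    have h3 := hT o hbo ho3
    have h4 : A * δ * l / 20 ≤ o - ((2 + σ) * (m1 * l + Real.logb 2 o) + b) := by linarith
    have h5 : δ / 16 / 2 * ((A * δ * l / 20) / 2 * (m1 * l)) ≤
        δ / 16 / 2 * ((o - ((2 + σ) * (m1 * l + Real.logb 2 o) + b)) / 2 * (m1 * l)) := by
      gcongr
    -- lower bound of the left side
    have h6 : 156 * (A:ℝ) / δ * l ^ 2 ≤ δ / 16 / 2 * ((A * δ * l / 20) / 2 * (m1 * l)) := by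
      have h7 : δ / 16 / 2 * ((A * δ * l / 20) / 2 * (m1 * l)) =
          (A:ℝ) / δ * l ^ 2 * (m1 * δ ^ 3) / 1280 := by
        field_simp
        ring
      rw [h7]
      have h8 : 0 ≤ (A:ℝ) / δ * l ^ 2 := by positivity
      have h9 : (A:ℝ) / δ * l ^ 2 * 200000 ≤ (A:ℝ) / δ * l ^ 2 * (m1 * δ ^ 3) :=
        mul_le_mul_of_nonneg_left hp2 h8
      have h10 : 156 * (A:ℝ) / δ * l ^ 2 = 156 * ((A:ℝ) / δ * l ^ 2) := by ring
      rw [h10]
      linarith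
    have h11 : (A:ℝ) * l ^ 2 ≤ (A:ℝ) / δ * l ^ 2 := by
      have : (A:ℝ) ≤ A / δ := by rw [le_div_iff₀ hδ]; clear * - hA' hδ hδ1; nlinarith
      exact mul_le_mul_of_nonneg_right this (by positivity)
    have h12 : 126 * (A:ℝ) / δ * l ^ 2 = 126 * ((A:ℝ) / δ * l ^ 2) := by ring
    have h13 : 156 * (A:ℝ) / δ * l ^ 2 = 156 * ((A:ℝ) / δ * l ^ 2) := by ring
    rw [h12] at huu
    rw [h13] at h6
    have h14 : (o:ℝ) * l ≤ 6 * ((A:ℝ) * l ^ 2) := by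
      have := mul_le_mul_of_nonneg_right ho3' (by positivity : (0:ℝ) ≤ l)
      clear * - this; nlinarith
    have h15 : (4:ℝ) ≤ A * l ^ 2 := by clear * - hA' hl'; nlinarith
    clear * - huu h2 h5 h6 h11 h14 h15; linarith
  have hph2 := phase2 hStep (Finset (Fin n)) hL1 hn (by omega : 1 ≤ 5 * L)
    (by rw [pow_succ]; omega : 2 * n ≤ 2 ^ (L + 1)) (by linarith : (0:ℝ) ≤ σ)
    (by positivity : (0:ℝ) ≤ δ / 16)
    (by rw [hb₂def]; rw [hbdef] at hb7; linarith : (2:ℝ) ≤ b₂) hered hsize hPok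
    (D' := 2 * l) (D2 := l) e2 e3 hj
    (by
      have h1 : σ * (2 * m1 * l) ≤ A * δ / 16 * (2 * l) := by
        have := mul_le_mul_of_nonneg_right hσm (by positivity : (0:ℝ) ≤ 2 * l)
        linarith
      rw [hbdef, hb₂def]
      linarith : σ * (2 * m1 * l) + b ≤ b₂) hm1 hph1 hnum2
    (by
      intro o hbo ho3
      have := hT o hbo ho3
      have h6 : 0 < A * δ * l := by positivity
      linarith)
  have hfinal := hph2 (2 * A) le_rfl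
  rw [Nat.sub_self, mul_zero] at hfinal
  -- parameters of `det`
  set B := ⌊δ * (2 * A * l) / 32⌋₊ with hB
  have hBr : (B:ℝ) ≤ δ * (2 * A * l) / 32 := Nat.floor_le (by positivity)
  have hBL : B ≤ L := by
    have : (B:ℝ) ≤ L := by
      rw [hLr]
      refine hBr.trans ?_
      have : 0 < (A:ℝ) * l := by positivity
      clear * - this hδ1; nlinarith
    exact_mod_cast this
  set h := (L + B) / 2 + 1 with hh
  have hhL : h ≤ 2 * A * l := by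
    have hBL2 : (B:ℝ) ≤ L / 32 := by
      rw [hLr]; refine hBr.trans ?_
      have : 0 < (A:ℝ) * l := by positivity
      clear * - this hδ1; nlinarith
    have : 32 * B ≤ L := by
      have h' : (32 * B : ℝ) ≤ L := by linarith
      exact_mod_cast h'
    have hL1000 : 1000 ≤ L := by rw [hL]; clear * - hA e0; nlinarith
    omega
  have hNF : NoFam n (Finset (Fin n)) ok 0 (2 * (2 * l)) (2 ^ h) (δ / 16) b₂ := by
    intro I K V hI hV hK hS
    exact hfinal I K V hI (hV.trans (Nat.pow_le_pow_right (by norm_num) hhL)) hK hS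
  set τ := ⌊A * δ / 8⌋₊ with hτ
  have hτ1 : (τ:ℝ) ≤ A * δ / 8 := Nat.floor_le (by positivity)
  have hδ3 : δ ^ 3 ≤ 1 := pow_le_one₀ hδ.le hδ1
  have hAbig : 32768 * 200000 ≤ (A:ℝ) * δ ^ 3 * δ ^ 3 := by
    have h1 : 32768 * (m1 * δ ^ 3) ≤ (A:ℝ) * δ ^ 3 * δ ^ 3 := by
      have := mul_le_mul_of_nonneg_right hp1 (by positivity : (0:ℝ) ≤ δ ^ 3)
      linarith
    linarith
  have hAδ3 : 32768 * 200000 ≤ (A:ℝ) * δ ^ 3 := by
    have : (A:ℝ) * δ ^ 3 * δ ^ 3 ≤ (A:ℝ) * δ ^ 3 * 1 :=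
      mul_le_mul_of_nonneg_left hδ3 (by positivity)
    linarith
  have hAδ1 : 32768 * 200000 ≤ (A:ℝ) * δ := by
    have h1 : δ ^ 3 ≤ δ := by clear * - hδ hδ1; nlinarith [pow_pos hδ 3, mul_pos hδ hδ]
    have : (A:ℝ) * δ ^ 3 ≤ A * δ := mul_le_mul_of_nonneg_left h1 (by positivity)
    linarith
  have hτ2 : A * δ / 16 ≤ (τ:ℝ) := by
    have : A * δ / 8 < (τ:ℝ) + 1 := Nat.lt_floor_add_one _
    linarith
  have hθ : 2 * u ≤ (τ * l) * (τ * l) := by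
    have h1 : 2 * (u:ℝ) ≤ (τ * l) * (τ * l) := by
      have h2 : 252 * (A:ℝ) / δ ≤ τ ^ 2 := by
        have h3 : (A * δ / 16) ^ 2 ≤ (τ:ℝ) ^ 2 := by
          apply pow_le_pow_left₀ (by positivity) hτ2
        refine le_trans ?_ h3
        rw [div_le_iff₀ hδ]
        have h4 : (A * δ / 16) ^ 2 * δ = A * (A * δ ^ 3) / 256 := by ring
        rw [h4]
        clear * - hAδ3 hA'; nlinarith
      have h5 : (τ:ℝ) * l * (τ * l) = τ ^ 2 * l ^ 2 := by ring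
      rw [h5]
      have h6 : 252 * (A:ℝ) / δ * l ^ 2 ≤ τ ^ 2 * l ^ 2 :=
        mul_le_mul_of_nonneg_right h2 (by positivity)
      have h7 : 252 * (A:ℝ) / δ * l ^ 2 = 2 * (126 * A / δ * l ^ 2) := by ring
      linarith
    exact_mod_cast h1
  have hθ1 : 1 ≤ τ * l := by
    have : 1 ≤ τ := by
      have : (1:ℝ) ≤ τ := by linarith
      exact_mod_cast this
    exact Nat.mul_pos this hl1
  have hqd : (qd A' G t).card ≤ q := by
    refine le_trans ?_ ht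
    unfold qd
    exact card_image_le.trans (by simp)
  refine det hTK hTV hTR (δ := δ) (σ := δ / 16) (b := b₂) (X := 4 * L + 1 + 2 * (2 * l) * k)
    (D' := 2 * l) (L := L) (k := k) (u := u) (h := h) (θ := τ * l)
    (s := 3 * L * L + 5 * L) (a := 5 * L) hn hqd ?_ hθ hθ1 hk2 rfl hD ?_ ?_ ?_ hfam hδ ?_ ?_ ?_
    ?_ (by positivity) hNF
  · -- 2q ≤ 2^h 2^h
    rw [← pow_add]
    calc 2 * q ≤ 2 * 2 ^ (L + B) := Nat.mul_le_mul_left _ hq
      _ = 2 ^ (L + B + 1) := by ring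
      _ ≤ 2 ^ (h + h) := Nat.pow_le_pow_right (by norm_num) (by omega)
  · exact Nat.add_le_add_right (Nat.mul_le_mul_right _ hk2) _
  · omega
  · refine le_trans ?_ e4
    exact Nat.mul_le_mul_left _ hk2
  · rw [hLr]
    clear * - e8 hA'; nlinarith
  · rw [hLr]
    exact hk1
  · -- X + 4(X+2)/δ < u
    have hkr : (k:ℝ) ≤ 6 * (A * l) := by
      have : ((k:ℕ):ℝ) ≤ ((3 * L : ℕ) : ℝ) := by exact_mod_cast hk2
      push_cast at this; rw [hLr] at this; linarith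
    have hX1 : (((4 * L + 1 + 2 * (2 * l) * k : ℕ)) : ℝ) + 2 ≤ 24.5 * (A * l ^ 2) := by
      push_cast
      rw [hLr]
      have h1 : (l:ℝ) * k ≤ l * (6 * (A * l)) := mul_le_mul_of_nonneg_left hkr (by positivity)
      have h2 : 1000 * ((A:ℝ) * l) ≤ A * l ^ 2 := by clear * - hAl hl'; nlinarith
      have h99 : (1000:ℝ) ≤ A * l := by clear * - hA' hl'; nlinarith
      clear * - h1 h2 h99; nlinarith
    have h3 : (((4 * L + 1 + 2 * (2 * l) * k : ℕ)) : ℝ) ≤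
        ((((4 * L + 1 + 2 * (2 * l) * k : ℕ)) : ℝ) + 2) / δ := by
      rw [le_div_iff₀ hδ]
      have : (0:ℝ) ≤ (((4 * L + 1 + 2 * (2 * l) * k : ℕ)) : ℝ) := Nat.cast_nonneg _
      clear * - this hδ1; nlinarith
    have h4 : ((((4 * L + 1 + 2 * (2 * l) * k : ℕ)) : ℝ) + 2) / δ ≤ 24.5 * (A * l ^ 2) / δ :=
      div_le_div_of_nonneg_right hX1 hδ.le
    have h5 : 4 * ((((4 * L + 1 + 2 * (2 * l) * k : ℕ)) : ℝ) + 2) / δ =
        4 * (((((4 * L + 1 + 2 * (2 * l) * k : ℕ)) : ℝ) + 2) / δ) := by ring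
    rw [h5]
    have h6 : 125 * (A:ℝ) / δ * l ^ 2 = 125 * (A * l ^ 2 / δ) := by ring
    have h7 : 24.5 * ((A:ℝ) * l ^ 2) / δ = 24.5 * (A * l ^ 2 / δ) := by ring
    rw [h6] at huu'
    rw [h7] at h4
    have h8 : 0 < (A:ℝ) * l ^ 2 / δ := by positivity
    linarith
  · -- final
    have hhr : 2 * (h:ℝ) ≤ L + B + 2 := by
      have : 2 * h ≤ L + B + 2 := by omega
      exact_mod_cast this
    push_cast
    rw [hLr] at hhr ⊢
    rw [hb₂def]
    have hAl1 : (1000:ℝ) ≤ A * l := by clear * - hA' hl'; nlinarith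
    have hh2 : (h:ℝ) ≤ 2 * A * l := by exact_mod_cast hhL
    have h1 : δ / 16 * h ≤ δ / 16 * (2 * A * l) := by gcongr
    have h2 : (τ:ℝ) * l ≤ A * δ / 8 * l := by gcongr
    have h3 : 10 ≤ A * (δ * l) := by clear * - e8 hA'; nlinarith
    clear * - hhr hBr h1 h2 h3; nlinarith

end H761CQ
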