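import Mathlib
import Pool.Agent.H761R3.CQ.Core

namespace H761CQ

open Finset Filter

open Classical in
/-- the number of graphs in which the algorithm completes a `k`-clique is tiny -/
theorem core_prob (hA1 : TaskA1) (hA2 : TaskA2) (hC : TaskC) (hTD : TaskD)
    (hE4 : TaskE4) (hStep : Step) (hTK : TaskK) (hTV : TaskV) (hTR : TaskR)
    {δ : ℝ} {A m1 l : ℕ} (hp : Par δ A m1) (hb : Big δ A m1 l) {n q k : ℕ} (A' : Alg n)
    (hn : n ≤ 2 ^ (2 * A * l))
    (hq : q ≤ 2 ^ (2 * A * l + ⌊δ * (2 * A * l) / 32⌋₊))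
    (hk1 : (3 / 2 + δ) * (2 * A * l) ≤ k) (hk2 : k ≤ 3 * (2 * A * l)) :
    ((univ.filter fun G : Sym2 (Fin n) → Bool => ∃ K : Finset (Fin n), K.card = k ∧
      ∀ e ∈ prs K, e ∈ qd A' G q ∧ G e = true).card : ℝ) ≤
      7 * (q + 1) * (1 / 2 : ℝ) ^ (3 * (2 * A * l)) * Fintype.card (Sym2 (Fin n) → Bool) := by
  set L := 2 * A * l with hL
  set u := uu δ A l with hu
  have hA : (1:ℝ) ≤ A := by exact_mod_cast hp.hA
  have hl : 1000 ≤ l := hb.e0
  have hl' : (1000:ℝ) ≤ l := by exact_mod_cast hl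
  have hδ := hp.hδ
  have hδ1 := hp.hδ1
  have hL1 : 1 ≤ L := Nat.mul_pos (by have := hp.hA; omega) (by omega)
  have hLr : (L:ℝ) = 2 * A * l := by rw [hL]; push_cast; ring
  have huu := uu_le (l := l) hp
  have huu' := le_uu (l := l) hp
  rw [← hu] at huu huu'
  have hAδ : 0 < A * δ := by positivity
  -- u ≥ 3L
  have hu3 : 3 * L ≤ u := by
    have h1 : (3 * L : ℝ) ≤ u := by
      refine le_trans ?_ huu'
      rw [hLr]
      have h2 : (A:ℝ) ≤ A / δ := by rw [le_div_iff₀ hδ]; nlinarith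
      have h3 : (A:ℝ) * l ^ 2 ≤ A / δ * l ^ 2 := mul_le_mul_of_nonneg_right h2 (by positivity)
      have h4 : 125 * (A:ℝ) / δ * l ^ 2 = 125 * (A / δ * l ^ 2) := by ring
      rw [h4]
      have h5 : (A:ℝ) * l * 1 ≤ A * l * l := by
        apply mul_le_mul_of_nonneg_left (by linarith) (by positivity)
      have h6 : (A:ℝ) * l * l = A * l ^ 2 := by ring
      have h7 : (0:ℝ) ≤ A * l ^ 2 := by positivity
      linarith
    exact_mod_cast h1
  -- u ≤ choose k 2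
  have huk : u ≤ k.choose 2 := by
    have h1 : (u:ℝ) ≤ ((k.choose 2 : ℕ) : ℝ) := by
      rw [Nat.cast_choose_two]
      have hk3 : 3 * ((A:ℝ) * l) ≤ k := by
        refine le_trans ?_ hk1
        have : (0:ℝ) < A * l := by positivity
        nlinarith
      have hAl : (1000:ℝ) ≤ A * l := by nlinarith
      have h2 : 4 * ((A:ℝ) * l) ^ 2 ≤ k * (k - 1) / 2 := by nlinarith
      refine le_trans ?_ h2
      refine huu.trans ?_
      have h3 : 126 * (A:ℝ) / δ ≤ 4 * A ^ 2 := by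
        rw [div_le_iff₀ hδ]
        have h4 : 32768 * 200000 ≤ (A:ℝ) * δ ^ 3 * δ ^ 3 := by
          have h5 : 32768 * (m1 * δ ^ 3) ≤ (A:ℝ) * δ ^ 3 * δ ^ 3 := by
            have := mul_le_mul_of_nonneg_right hp.h1 (by positivity : (0:ℝ) ≤ δ ^ 3)
            linarith
          linarith [hp.h2]
        have h6 : δ ^ 3 * δ ^ 3 ≤ δ := by
          have : δ ^ 5 ≤ 1 := pow_le_one₀ hδ.le hδ1
          calc δ ^ 3 * δ ^ 3 = δ * δ ^ 5 := by ring
            _ ≤ δ * 1 := mul_le_mul_of_nonneg_left this hδ.le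
            _ = δ := mul_one _
        have h7 : (A:ℝ) * δ ^ 3 * δ ^ 3 ≤ A * δ := by
          have := mul_le_mul_of_nonneg_left h6 (by positivity : (0:ℝ) ≤ (A:ℝ))
          linarith
        have h8 : 126 ≤ 4 * (A * δ) := by linarith
        have h9 := mul_le_mul_of_nonneg_left h8 (by positivity : (0:ℝ) ≤ (A:ℝ))
        linarith
      calc 126 * (A:ℝ) / δ * l ^ 2 ≤ 4 * A ^ 2 * l ^ 2 :=
            mul_le_mul_of_nonneg_right h3 (by positivity)
        _ = 4 * (A * l) ^ 2 := by ring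
    exact_mod_cast h1
  have hmain := hA2 hA1 n q u k (2 ^ (u - 3 * L)) A' huk
  -- the bad event
  have hbadsub : (univ.filter fun G : Sym2 (Fin n) → Bool =>
      ∃ t ≤ q, 2 ^ (u - 3 * L) ≤ (fam A' G t u k).card) ⊆
      (range (q + 1)).biUnion fun t =>
        (univ.filter fun G : Sym2 (Fin n) → Bool =>
          ¬ PropP n (5 * L) u (L + 1) (okk A' G t u)) ∪
        (univ.filter fun G : Sym2 (Fin n) → Bool =>
          ¬ PropD n L (3 * L * L + 5 * L) u (5 * L) (okk A' G t u)) := by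
    intro G hG
    rw [mem_filter] at hG
    obtain ⟨_, t, ht, hft⟩ := hG
    rw [mem_biUnion]
    refine ⟨t, mem_range.mpr (by omega), ?_⟩
    rw [mem_union, mem_filter, mem_filter]
    by_contra hcon
    push Not at hcon
    have h1 := hcon.1 (mem_univ _)
    have h2 := hcon.2 (mem_univ _)
    refine core_det hE4 hStep hTK hTV hTR hp hb hn hq ht hk1 hk2 h1 h2 ?_
    calc 2 ^ uu δ A l = 2 ^ (3 * L) * 2 ^ (u - 3 * L) := by
          rw [← pow_add]; congr 1; omega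
      _ ≤ _ := Nat.mul_le_mul_left _ hft
  have hPbound : ∀ t, ((univ.filter fun G : Sym2 (Fin n) → Bool =>
      ¬ PropP n (5 * L) u (L + 1) (okk A' G t u)).card : ℝ) ≤
      2 * (1 / 2 : ℝ) ^ (3 * L) * Fintype.card (Sym2 (Fin n) → Bool) := by
    intro t
    refine hC hA1 n (5 * L) u (L + 1) t (3 * L) A' ?_
    have h1 : L + 1 + 1 ≤ 2 ^ L := by
      have : ∀ x : ℕ, 2 ≤ x → x + 1 + 1 ≤ 2 ^ x := by
        intro x hx
        induction x, hx using Nat.le_induction with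
        | base => norm_num
        | succ y hy ih => rw [pow_succ]; omega
      exact this L (by rw [hL]; nlinarith [hp.hA])
    calc n * (L + 1 + 1) * 2 ^ (3 * L) ≤ 2 ^ L * 2 ^ L * 2 ^ (3 * L) := by gcongr
      _ = 2 ^ (5 * L) := by rw [← pow_add, ← pow_add]; congr 1; ring
  have hDbound : ∀ t, ((univ.filter fun G : Sym2 (Fin n) → Bool =>
      ¬ PropD n L (3 * L * L + 5 * L) u (5 * L) (okk A' G t u)).card : ℝ) ≤
      4 * (1 / 2 : ℝ) ^ (3 * L) * Fintype.card (Sym2 (Fin n) → Bool) := by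
    intro t
    refine (hTD hA1 n L (3 * L * L + 5 * L) u t (5 * L) A' hn).trans ?_
    apply mul_le_mul_of_nonneg_right _ (by positivity)
    have h1 : (n:ℝ) + 1 ≤ 2 * 2 ^ L := by
      have h2 : (n:ℝ) ≤ 2 ^ L := by exact_mod_cast hn
      have h3 : (1:ℝ) ≤ 2 ^ L := one_le_pow₀ (by norm_num)
      linarith
    have h2 : ((n:ℝ) + 1) ^ 2 ≤ (2 * 2 ^ L) ^ 2 := pow_le_pow_left₀ (by positivity) h1 2
    have h3 : (2 * 2 ^ L : ℝ) ^ 2 * (1 / 2) ^ (5 * L) = 4 * (1 / 2) ^ (3 * L) := by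
      have h4 : (1 / 2 : ℝ) ^ (5 * L) = (1 / 2) ^ (2 * L) * (1 / 2) ^ (3 * L) := by
        rw [← pow_add]; congr 1; ring
      have h5 : (2:ℝ) ^ (2 * L) * (1 / 2) ^ (2 * L) = 1 := by
        rw [← mul_pow]; norm_num
      have h6 : (2 * 2 ^ L : ℝ) ^ 2 = 4 * 2 ^ (2 * L) := by ring
      rw [h4, h6]
      calc 4 * (2:ℝ) ^ (2 * L) * ((1 / 2) ^ (2 * L) * (1 / 2) ^ (3 * L))
          = 4 * ((2:ℝ) ^ (2 * L) * (1 / 2) ^ (2 * L)) * (1 / 2) ^ (3 * L) := by ring
        _ = _ := by rw [h5]; ring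
    calc ((n:ℝ) + 1) ^ 2 * (1 / 2) ^ (5 * L) ≤ (2 * 2 ^ L) ^ 2 * (1 / 2) ^ (5 * L) :=
          mul_le_mul_of_nonneg_right h2 (by positivity)
      _ = _ := h3
  set T : ℝ := (Fintype.card (Sym2 (Fin n) → Bool) : ℝ) with hT
  have hbad : ((univ.filter fun G : Sym2 (Fin n) → Bool =>
      ∃ t ≤ q, 2 ^ (u - 3 * L) ≤ (fam A' G t u k).card).card : ℝ) ≤
      (q + 1) * (6 * (1 / 2 : ℝ) ^ (3 * L) * T) := by
    have h1 := (card_le_card hbadsub).trans card_biUnion_le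
    have h2 : ((univ.filter fun G : Sym2 (Fin n) → Bool =>
      ∃ t ≤ q, 2 ^ (u - 3 * L) ≤ (fam A' G t u k).card).card : ℝ) ≤
        ∑ t ∈ range (q + 1), ((((univ.filter fun G : Sym2 (Fin n) → Bool =>
          ¬ PropP n (5 * L) u (L + 1) (okk A' G t u)) ∪
        (univ.filter fun G : Sym2 (Fin n) → Bool =>
          ¬ PropD n L (3 * L * L + 5 * L) u (5 * L) (okk A' G t u))).card : ℕ) : ℝ) := by
      exact_mod_cast h1
    refine h2.trans ?_
    have h3 : ∀ t ∈ range (q + 1), ((((univ.filter fun G : Sym2 (Fin n) → Bool =>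
          ¬ PropP n (5 * L) u (L + 1) (okk A' G t u)) ∪
        (univ.filter fun G : Sym2 (Fin n) → Bool =>
          ¬ PropD n L (3 * L * L + 5 * L) u (5 * L) (okk A' G t u))).card : ℕ) : ℝ) ≤
        6 * (1 / 2 : ℝ) ^ (3 * L) * T := by
      intro t _
      have h4 : ((((univ.filter fun G : Sym2 (Fin n) → Bool =>
          ¬ PropP n (5 * L) u (L + 1) (okk A' G t u)) ∪
        (univ.filter fun G : Sym2 (Fin n) → Bool =>
          ¬ PropD n L (3 * L * L + 5 * L) u (5 * L) (okk A' G t u))).card : ℕ) : ℝ) ≤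
          ((univ.filter fun G : Sym2 (Fin n) → Bool =>
          ¬ PropP n (5 * L) u (L + 1) (okk A' G t u)).card : ℝ) +
          ((univ.filter fun G : Sym2 (Fin n) → Bool =>
          ¬ PropD n L (3 * L * L + 5 * L) u (5 * L) (okk A' G t u)).card : ℝ) := by
        exact_mod_cast card_union_le _ _
      have h5 := hPbound t
      have h6 := hDbound t
      linarith
    refine (sum_le_sum h3).trans ?_
    rw [sum_const, card_range, nsmul_eq_mul]
    push_cast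
    exact le_rfl
  have hlast : ((q:ℝ) + 1) * ((2 ^ (u - 3 * L) : ℕ) : ℝ) * (1 / 2 : ℝ) ^ u * T =
      (q + 1) * ((1 / 2 : ℝ) ^ (3 * L) * T) := by
    have h1 : (1 / 2 : ℝ) ^ u = (1 / 2) ^ (u - 3 * L) * (1 / 2) ^ (3 * L) := by
      rw [← pow_add]; congr 1; omega
    have h2 : ((2 ^ (u - 3 * L) : ℕ) : ℝ) * (1 / 2) ^ (u - 3 * L) = 1 := by
      push_cast
      rw [← mul_pow]; norm_num
    rw [h1]
    calc ((q:ℝ) + 1) * ((2 ^ (u - 3 * L) : ℕ) : ℝ) *
          ((1 / 2) ^ (u - 3 * L) * (1 / 2) ^ (3 * L)) * T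
        = (q + 1) * (((2 ^ (u - 3 * L) : ℕ) : ℝ) * (1 / 2) ^ (u - 3 * L)) *
          (1 / 2) ^ (3 * L) * T := by ring
      _ = _ := by rw [h2]; ring
  rw [hlast] at hmain
  have hfin : ((q:ℝ) + 1) * (6 * (1 / 2 : ℝ) ^ (3 * L) * T) +
      (q + 1) * ((1 / 2 : ℝ) ^ (3 * L) * T) =
      7 * (q + 1) * (1 / 2 : ℝ) ^ (3 * L) * T := by ring
  linarith

end H761CQ
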