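import Mathlib
import Pool.Agent.H761R3.CQ.Final

namespace H761CQ

open Finset Filter MeasureTheory

/-- The algorithm `A` with `q` queries finds a clique of size at least `m` in `G`: the output set
has at least `m` vertices and every pair inside it has been queried and is an edge. -/
def Finds {n : ℕ} (A : Alg n) (q : ℕ) (m : ℝ) (G : Sym2 (Fin n) → Bool) : Prop :=
  m ≤ ((A.out (ans A G q)).card : ℝ) ∧
    ∀ x ∈ A.out (ans A G q), ∀ y ∈ A.out (ans A G q), x ≠ y →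
      s(x, y) ∈ qd A G q ∧ G s(x, y) = true

open Classical in
/-- The probability (over the uniformly random graph) that `A` finds a clique of size `m`. -/
noncomputable def succ {n : ℕ} (A : Alg n) (q : ℕ) (m : ℝ) : ℝ :=
  ((univ.filter fun G : Sym2 (Fin n) → Bool => Finds A q m G).card : ℝ) /
    Fintype.card (Sym2 (Fin n) → Bool)

lemma ev_pow' (c κ : ℝ) (d : ℕ) (hc : 0 ≤ c) (hκ : 0 < κ) :
    ∀ᶠ l : ℕ in atTop, c * (l:ℝ) ^ d ≤ 2 ^ ⌊κ * l⌋₊ := by
  have hr : 1 < (2:ℝ) ^ κ := Real.one_lt_rpow (by norm_num) hκ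
  have h := tendsto_pow_const_div_const_pow_of_one_lt d (r := (2:ℝ) ^ κ) hr
  have h2 : ∀ᶠ l : ℕ in atTop, (l:ℝ) ^ d / ((2:ℝ) ^ κ) ^ l < 1 / (2 * (c + 1)) :=
    h.eventually_lt_const (by positivity)
  filter_upwards [h2] with l hl
  rw [div_lt_div_iff₀ (by positivity) (by positivity)] at hl
  have h3 : (2:ℝ) ^ (κ * l) ≤ 2 * 2 ^ ⌊κ * l⌋₊ := by
    have h4 : κ * l ≤ ((⌊κ * l⌋₊ + 1 : ℕ) : ℝ) := by
      push_cast; exact (Nat.lt_floor_add_one _).le
    calc (2:ℝ) ^ (κ * l) ≤ (2:ℝ) ^ (((⌊κ * l⌋₊ + 1 : ℕ) : ℝ)) :=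
          Real.rpow_le_rpow_of_exponent_le (by norm_num) h4
      _ = 2 ^ (⌊κ * l⌋₊ + 1) := Real.rpow_natCast _ _
      _ = 2 * 2 ^ ⌊κ * l⌋₊ := by ring
  have h5 : ((2:ℝ) ^ κ) ^ l = (2:ℝ) ^ (κ * l) := by
    rw [← Real.rpow_natCast, ← Real.rpow_mul (by norm_num)]
  rw [h5] at hl
  have h6 : 0 ≤ (l:ℝ) ^ d := by positivity
  nlinarith

theorem det_bound (hA1 : TaskA1) (hA2 : TaskA2) (hC : TaskC) (hTD : TaskD)
    (hE4 : TaskE4) (hStep : Step) (hTK : TaskK) (hTV : TaskV) (hTR : TaskR)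
    (c : ℝ) (hc : 3 / 2 < c) (C : ℕ) (ε : ℝ) (hε : 0 < ε) :
    ∀ᶠ n : ℕ in atTop, ∀ q : ℕ, (q:ℝ) ≤ C * n * (Real.logb 2 n) ^ C →
      ∀ A : Alg n, succ A q (c * Real.logb 2 n) ≤ ε := by
  classical
  set δ : ℝ := min 1 ((c - 3 / 2) / 2) with hδdef
  have hδ : 0 < δ := lt_min one_pos (by linarith)
  have hδ1 : δ ≤ 1 := min_le_left _ _
  have hcδ : 3 / 2 + 2 * δ ≤ c := by
    have : δ ≤ (c - 3 / 2) / 2 := min_le_right _ _
    linarith
  obtain ⟨A, m1, hp⟩ := exists_par δ hδ hδ1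
  have hA1' : 1 ≤ A := hp.hA
  have hA : (1:ℝ) ≤ A := by exact_mod_cast hA1'
  have hbig := ev_big hp
  have hpoly := ev_pow' ((C:ℝ) * (2 * A) ^ C) (δ * A / 16) C (by positivity) (by positivity)
  have heps : ∀ᶠ l : ℕ in atTop, 14 * (1 / 2 : ℝ) ^ l ≤ ε := by
    have h := tendsto_pow_atTop_nhds_zero_of_lt_one (r := (1/2:ℝ)) (by norm_num) (by norm_num)
    have h2 : ∀ᶠ l : ℕ in atTop, (1 / 2 : ℝ) ^ l < ε / 14 :=
      h.eventually_lt_const (by positivity)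
    filter_upwards [h2] with l hl
    linarith
  have hlin : ∀ᶠ l : ℕ in atTop, (3 / 2 + 2 * δ) * (2 * A + 1) + 1 ≤ δ * (l:ℝ) := by
    have h2 : ∀ᶠ l : ℕ in atTop, ((3 / 2 + 2 * δ) * (2 * A + 1) + 1) / δ ≤ (l:ℝ) :=
      tendsto_natCast_atTop_atTop.eventually (eventually_ge_atTop _)
    filter_upwards [h2] with l hl
    rw [div_le_iff₀ hδ] at hl
    linarith
  have hall := hbig.and (hpoly.and (heps.and hlin))
  -- transfer to n
  have htend : Tendsto (fun n : ℕ => Nat.clog 2 n / (2 * A) + 1) atTop atTop := by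
    apply tendsto_atTop_mono (f := fun n : ℕ => Nat.log 2 n / (2 * A))
    · intro n
      have h1 : Nat.log 2 n ≤ Nat.clog 2 n := Nat.log_le_clog 2 n
      have h2 : Nat.log 2 n / (2 * A) ≤ Nat.clog 2 n / (2 * A) := Nat.div_le_div_right h1
      omega
    · rw [tendsto_atTop]
      intro b
      filter_upwards [eventually_ge_atTop (2 ^ (2 * A * b))] with n hn
      rw [Nat.le_div_iff_mul_le (by omega)]
      have : b * (2 * A) = 2 * A * b := by ring
      rw [this]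
      exact Nat.le_log_of_pow_le (by norm_num) hn
  have hn := htend.eventually hall
  filter_upwards [hn, eventually_ge_atTop 2] with n hn hn2 q hq A'
  obtain ⟨hb, hpl, hep, hli⟩ := hn
  generalize hl : Nat.clog 2 n / (2 * A) + 1 = l at hb hpl hep hli
  obtain ⟨L, hL⟩ : ∃ L, L = 2 * A * l := ⟨_, rfl⟩
  have hLr : (L:ℝ) = 2 * A * l := by rw [hL]; push_cast; ring
  have hl1000 : 1000 ≤ l := hb.e0
  have hlL : l ≤ L := by rw [hL]; nlinarith
  have hclog : Nat.clog 2 n ≤ L := by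
    have h1 := Nat.lt_mul_div_succ (Nat.clog 2 n) (by omega : 0 < 2 * A)
    rw [hL, ← hl]
    exact h1.le
  have hclog2 : L ≤ Nat.clog 2 n + 2 * A := by
    have h1 := Nat.mul_div_le (Nat.clog 2 n) (2 * A)
    rw [hL, ← hl, mul_add, mul_one]
    omega
  have hnL : n ≤ 2 ^ L := (Nat.le_pow_clog (by norm_num) n).trans
    (Nat.pow_le_pow_right (by norm_num) hclog)
  have hnpos : (0:ℝ) < n := by
    have : 0 < n := by omega
    exact_mod_cast this
  have hlogn : (L:ℝ) - (2 * A + 1) ≤ Real.logb 2 n := by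
    have h1 : 2 ^ (Nat.clog 2 n - 1) < n := Nat.pow_pred_clog_lt_self (by norm_num) (by omega)
    have h2 : ((Nat.clog 2 n - 1 : ℕ) : ℝ) ≤ Real.logb 2 n := by
      rw [Real.le_logb_iff_rpow_le (by norm_num) hnpos, Real.rpow_natCast]
      exact_mod_cast h1.le
    have h3 : ((Nat.clog 2 n : ℕ) : ℝ) ≤ ((Nat.clog 2 n - 1 : ℕ) : ℝ) + 1 := by
      have : Nat.clog 2 n ≤ Nat.clog 2 n - 1 + 1 := by omega
      exact_mod_cast this
    have h4 : (L:ℝ) ≤ (Nat.clog 2 n : ℕ) + 2 * A := by exact_mod_cast hclog2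
    linarith
  have hlogn2 : Real.logb 2 n ≤ L := by
    rw [Real.logb_le_iff_le_rpow (by norm_num) hnpos, Real.rpow_natCast]
    exact_mod_cast hnL
  have hlogn0 : 0 ≤ Real.logb 2 n := Real.logb_nonneg (by norm_num) (by
    have : 1 ≤ n := by omega
    exact_mod_cast this)
  -- number of queries
  have hqB : q ≤ 2 ^ (2 * A * l + ⌊δ * (2 * A * l) / 32⌋₊) := by
    have h1 : (q:ℝ) ≤ C * 2 ^ L * (2 * A * l) ^ C := by
      refine hq.trans ?_
      rw [← hLr]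
      have h2 : (n:ℝ) ≤ 2 ^ L := by exact_mod_cast hnL
      gcongr
    have h2 : ⌊δ * A / 16 * l⌋₊ = ⌊δ * (2 * A * l) / 32⌋₊ := by congr 1; ring
    rw [h2] at hpl
    have h3 : (q:ℝ) ≤ 2 ^ (L + ⌊δ * (2 * A * l) / 32⌋₊) := by
      calc (q:ℝ) ≤ C * 2 ^ L * (2 * A * l) ^ C := h1
        _ = 2 ^ L * (C * (2 * A) ^ C * (l:ℝ) ^ C) := by rw [mul_pow]; ring
        _ ≤ 2 ^ L * 2 ^ ⌊δ * (2 * A * l) / 32⌋₊ := by gcongr
        _ = 2 ^ (L + ⌊δ * (2 * A * l) / 32⌋₊) := by rw [pow_add]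
    rw [← hL]
    exact_mod_cast h3
  set k := ⌈(3 / 2 + δ) * (2 * A * l)⌉₊ with hk
  have hk1 : (3 / 2 + δ) * (2 * A * l) ≤ (k:ℝ) := Nat.le_ceil _
  have hk' : (k:ℝ) < (3 / 2 + δ) * (2 * A * l) + 1 := Nat.ceil_lt_add_one (by positivity)
  have hL1000 : (1000:ℝ) ≤ L := by
    have : 1000 ≤ L := hl1000.trans hlL
    exact_mod_cast this
  have hk2 : k ≤ 3 * (2 * A * l) := by
    have h1 : (k:ℝ) ≤ 3 * L := by
      rw [← hLr] at hk'
      nlinarith
    rw [← hL]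
    exact_mod_cast h1
  have hprob := core_prob hA1 hA2 hC hTD hE4 hStep hTK hTV hTR hp hb A' (hL ▸ hnL) hqB hk1 hk2
  rw [← hL] at hprob
  have hkn : (k:ℝ) ≤ c * Real.logb 2 n := by
    have h1 : (3 / 2 + 2 * δ) * ((L:ℝ) - (2 * A + 1)) ≤ c * Real.logb 2 n := by
      calc (3 / 2 + 2 * δ) * ((L:ℝ) - (2 * A + 1)) ≤ (3 / 2 + 2 * δ) * Real.logb 2 n :=
            mul_le_mul_of_nonneg_left hlogn (by positivity)
        _ ≤ c * Real.logb 2 n := mul_le_mul_of_nonneg_right hcδ hlogn0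
    have h2 : δ * (l:ℝ) ≤ δ * L := by
      have : (l:ℝ) ≤ L := by exact_mod_cast hlL
      exact mul_le_mul_of_nonneg_left this hδ.le
    rw [← hLr] at hk'
    nlinarith
  have hsub : (univ.filter fun G : Sym2 (Fin n) → Bool =>
      Finds A' q (c * Real.logb 2 n) G) ⊆
      univ.filter fun G : Sym2 (Fin n) → Bool => ∃ K : Finset (Fin n), K.card = k ∧
        ∀ e ∈ prs K, e ∈ qd A' G q ∧ G e = true := by
    intro G hG
    rw [mem_filter] at hG ⊢
    refine ⟨mem_univ _, ?_⟩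
    obtain ⟨hG1, hG2⟩ := hG.2
    have h1 : k ≤ (A'.out (ans A' G q)).card := by
      have := hkn.trans hG1
      exact_mod_cast this
    obtain ⟨K, hKs, hKc⟩ := exists_subset_card_eq h1
    refine ⟨K, hKc, ?_⟩
    intro e he
    induction e using Sym2.ind with
    | _ x y =>
      simp only [prs, mem_filter, Finset.mk_mem_sym2_iff, Sym2.mk_isDiag_iff] at he
      exact hG2 x (hKs he.1.1) y (hKs he.1.2) he.2
  have hcardpos : (0:ℝ) < Fintype.card (Sym2 (Fin n) → Bool) := by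
    exact_mod_cast Fintype.card_pos
  unfold succ
  rw [div_le_iff₀ hcardpos]
  have h1 : ((univ.filter fun G : Sym2 (Fin n) → Bool =>
      Finds A' q (c * Real.logb 2 n) G).card : ℝ) ≤
      7 * (q + 1) * (1 / 2 : ℝ) ^ (3 * L) * Fintype.card (Sym2 (Fin n) → Bool) := by
    refine le_trans ?_ hprob
    exact_mod_cast card_le_card hsub
  refine h1.trans ?_
  apply mul_le_mul_of_nonneg_right _ hcardpos.le
  have hB : ⌊δ * (2 * A * l) / 32⌋₊ ≤ L := by
    have : (⌊δ * (2 * A * l) / 32⌋₊ : ℝ) ≤ L := by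
      refine (Nat.floor_le (by positivity)).trans ?_
      rw [hLr]
      have : 0 < (A:ℝ) * l := by
        have : (0:ℝ) < l := by
          have : 0 < l := by omega
          exact_mod_cast this
        positivity
      nlinarith
    exact_mod_cast this
  have hq2 : (q:ℝ) + 1 ≤ 2 * 2 ^ (2 * L) := by
    have h2 : q ≤ 2 ^ (2 * L) := hqB.trans (Nat.pow_le_pow_right (by norm_num) (by omega))
    have h3 : (q:ℝ) ≤ 2 ^ (2 * L) := by exact_mod_cast h2
    have h4 : (1:ℝ) ≤ 2 ^ (2 * L) := one_le_pow₀ (by norm_num)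
    linarith
  have h5 : (2:ℝ) ^ (2 * L) * (1 / 2) ^ (3 * L) = (1 / 2) ^ L := by
    have : 3 * L = 2 * L + L := by ring
    rw [this, pow_add, ← mul_assoc, ← mul_pow]
    norm_num
  have h6 : (1 / 2 : ℝ) ^ L ≤ (1 / 2) ^ l :=
    pow_le_pow_of_le_one (by norm_num) (by norm_num) hlL
  calc 7 * ((q:ℝ) + 1) * (1 / 2) ^ (3 * L) ≤ 7 * (2 * 2 ^ (2 * L)) * (1 / 2) ^ (3 * L) := by
        gcongr
    _ = 14 * (2 ^ (2 * L) * (1 / 2) ^ (3 * L)) := by ring
    _ = 14 * (1 / 2) ^ L := by rw [h5]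
    _ ≤ 14 * (1 / 2) ^ l := by linarith
    _ ≤ ε := hep

end H761CQ
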