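import Pool.Agent.H761R3.CQ.Stmts

/-!
Task A1 of the project H761-CQ: martingale property of the weights.
-/

namespace H761CQ

open Finset

theorem A1_hist {n : ℕ} (A : Alg n) (t : ℕ) (G G' : Sym2 (Fin n) → Bool)
    (h : ∀ e ∈ qd A G t, G e = G' e) : ∀ i ≤ t, ans A G' i = ans A G i := by
  intro i
  induction i with
  | zero => intro _; rfl
  | succ i ih =>
    intro hi
    have h1 := ih (by omega)
    have hmem : A.next (ans A G i) ∈ qd A G t := by
      unfold qd
      exact Finset.mem_image.2 ⟨i, Finset.mem_range.2 (by omega), rfl⟩
    show G' (A.next (ans A G' i)) :: ans A G' i = G (A.next (ans A G i)) :: ans A G i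
    rw [h1, h _ hmem]

theorem A1_qd {n : ℕ} (A : Alg n) (t : ℕ) (G G' : Sym2 (Fin n) → Bool)
    (h : ∀ e ∈ qd A G t, G e = G' e) : qd A G' t = qd A G t := by
  unfold qd
  apply Finset.image_congr
  intro i hi
  have hi' : i < t := by simpa using hi
  show A.next (ans A G' i) = A.next (ans A G i)
  rw [A1_hist A t G G' h i hi'.le]

theorem A1_qd_succ {n : ℕ} (A : Alg n) (t : ℕ) (G : Sym2 (Fin n) → Bool) :
    qd A G (t + 1) = insert (A.next (ans A G t)) (qd A G t) := by
  unfold qd
  rw [Finset.range_add_one, Finset.image_insert]

/-- flipping the answer to the next query, if it is fresh -/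
def A1_flip {n : ℕ} (A : Alg n) (t : ℕ) (G : Sym2 (Fin n) → Bool) : Sym2 (Fin n) → Bool :=
  if A.next (ans A G t) ∈ qd A G t then G
  else Function.update G (A.next (ans A G t)) (!G (A.next (ans A G t)))

theorem A1_flip_agree {n : ℕ} (A : Alg n) (t : ℕ) (G : Sym2 (Fin n) → Bool) :
    ∀ e ∈ qd A G t, G e = A1_flip A t G e := by
  intro e he
  unfold A1_flip
  split_ifs with h
  · rfl
  · rw [Function.update_of_ne]
    rintro rfl
    exact h he

theorem A1_flip_ans {n : ℕ} (A : Alg n) (t : ℕ) (G : Sym2 (Fin n) → Bool) :
    ans A (A1_flip A t G) t = ans A G t :=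
  A1_hist A t G _ (A1_flip_agree A t G) t le_rfl

theorem A1_flip_qd {n : ℕ} (A : Alg n) (t : ℕ) (G : Sym2 (Fin n) → Bool) :
    qd A (A1_flip A t G) t = qd A G t :=
  A1_qd A t G _ (A1_flip_agree A t G)

theorem A1_flip_flip {n : ℕ} (A : Alg n) (t : ℕ) (G : Sym2 (Fin n) → Bool) :
    A1_flip A t (A1_flip A t G) = G := by
  have h1 := A1_flip_ans A t G
  have h2 := A1_flip_qd A t G
  by_cases h : A.next (ans A G t) ∈ qd A G t
  · have h3 : A1_flip A t G = G := by unfold A1_flip; rw [if_pos h]
    rw [h3, h3]
  · have h3 : A1_flip A t G =
      Function.update G (A.next (ans A G t)) (!G (A.next (ans A G t))) := by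
      unfold A1_flip; rw [if_neg h]
    have h4 : A1_flip A t (A1_flip A t G) =
      Function.update (A1_flip A t G) (A.next (ans A G t))
        (!(A1_flip A t G) (A.next (ans A G t))) := by
      conv_lhs => unfold A1_flip
      rw [show (if A.next (ans A G t) ∈ qd A G t then G
        else Function.update G (A.next (ans A G t)) (!G (A.next (ans A G t)))) = A1_flip A t G
        from rfl, h1, h2, if_neg h]
    rw [h4, h3]
    simp

theorem A1_wt_add {n : ℕ} (A : Alg n) (t : ℕ) (P : Finset (Sym2 (Fin n)))
    (G : Sym2 (Fin n) → Bool) :
    wt A (t + 1) P G + wt A (t + 1) P (A1_flip A t G) = 2 * wt A t P G := by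
  have h1 := A1_flip_ans A t G
  have h2 := A1_flip_qd A t G
  have hag := A1_flip_agree A t G
  by_cases h : A.next (ans A G t) ∈ qd A G t
  · have h3 : A1_flip A t G = G := by unfold A1_flip; rw [if_pos h]
    have h5 : qd A G (t + 1) = qd A G t := by
      rw [A1_qd_succ, Finset.insert_eq_of_mem h]
    rw [h3]
    unfold wt
    rw [h5]
    ring
  · have h5 : qd A G (t + 1) = insert (A.next (ans A G t)) (qd A G t) := A1_qd_succ A t G
    have h6 : qd A (A1_flip A t G) (t + 1) = insert (A.next (ans A G t)) (qd A G t) := by
      rw [A1_qd_succ, h1, h2]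
    have h3 : A1_flip A t G (A.next (ans A G t)) = !G (A.next (ans A G t)) := by
      unfold A1_flip; rw [if_neg h]; simp
    generalize hG' : A1_flip A t G = G' at *
    generalize he : A.next (ans A G t) = e at *
    unfold wt
    rw [h5, h6]
    generalize qd A G t = Q at *
    by_cases hP : e ∈ P
    · have hcard : (P \ Q).card = (P \ insert e Q).card + 1 := by
        have : P \ Q = insert e (P \ insert e Q) := by
          ext x
          simp only [Finset.mem_sdiff, Finset.mem_insert]
          constructor
          · rintro ⟨a, b⟩
            by_cases hx : x = e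
            · left; exact hx
            · right; exact ⟨a, by tauto⟩
          · rintro (rfl | ⟨a, b⟩)
            · exact ⟨hP, h⟩
            · exact ⟨a, by tauto⟩
        rw [this, Finset.card_insert_of_notMem]
        simp
      rw [hcard]
      by_cases hc : ∀ e' ∈ P, e' ∈ Q → G e' = true
      · rw [if_pos hc]
        have hc' : ∀ e' ∈ P, e' ∈ Q → G' e' = true := by
          intro e' he' hq
          rw [← hag e' hq]
          exact hc e' he' hq
        cases hGe : G e with
        | true =>
          rw [if_pos, if_neg]
          · rw [pow_succ]; ring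
          · intro hall
            have := hall e hP (Finset.mem_insert_self _ _)
            rw [h3, hGe] at this
            simp at this
          · intro e' he' hq
            rcases Finset.mem_insert.1 hq with rfl | hq
            · exact hGe
            · exact hc e' he' hq
        | false =>
          rw [if_neg, if_pos]
          · rw [pow_succ]; ring
          · intro e' he' hq
            rcases Finset.mem_insert.1 hq with rfl | hq
            · rw [h3, hGe]; rfl
            · exact hc' e' he' hq
          · intro hall
            have := hall e hP (Finset.mem_insert_self _ _)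
            rw [hGe] at this
            simp at this
      · rw [if_neg hc, if_neg, if_neg]
        · ring
        · intro hall
          apply hc
          intro e' he' hq
          rw [hag e' hq]
          exact hall e' he' (Finset.mem_insert_of_mem hq)
        · intro hall
          apply hc
          intro e' he' hq
          exact hall e' he' (Finset.mem_insert_of_mem hq)
    · have hcard : P \ insert e Q = P \ Q := by
        ext x
        simp only [Finset.mem_sdiff, Finset.mem_insert]
        constructor
        · rintro ⟨a, b⟩
          exact ⟨a, by tauto⟩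
        · rintro ⟨a, b⟩
          refine ⟨a, ?_⟩
          rintro (rfl | hx)
          · exact hP a
          · exact b hx
      rw [hcard]
      have e1 : (∀ e' ∈ P, e' ∈ insert e Q → G e' = true) ↔ ∀ e' ∈ P, e' ∈ Q → G e' = true := by
        constructor
        · intro hall e' he' hq
          exact hall e' he' (Finset.mem_insert_of_mem hq)
        · intro hall e' he' hq
          rcases Finset.mem_insert.1 hq with rfl | hq
          · exact absurd he' hP
          · exact hall e' he' hq
      have e2 : (∀ e' ∈ P, e' ∈ insert e Q → G' e' = true) ↔ ∀ e' ∈ P, e' ∈ Q → G e' = true := by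
        constructor
        · intro hall e' he' hq
          rw [hag e' hq]
          exact hall e' he' (Finset.mem_insert_of_mem hq)
        · intro hall e' he' hq
          rcases Finset.mem_insert.1 hq with rfl | hq
          · exact absurd he' hP
          · rw [← hag e' hq]
            exact hall e' he' hq
      simp only [e1, e2]
      ring

theorem A1_step {n : ℕ} (A : Alg n) (t : ℕ) (P : Finset (Sym2 (Fin n)))
    (h : (Sym2 (Fin n) → Bool) → ℝ) (hm : Meas A t h) :
    ∑ G : Sym2 (Fin n) → Bool, h G * wt A (t + 1) P G =
      ∑ G : Sym2 (Fin n) → Bool, h G * wt A t P G := by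
  have hinv : Function.Involutive (A1_flip A t) := A1_flip_flip A t
  have h1 : ∑ G : Sym2 (Fin n) → Bool, h G * wt A (t + 1) P G =
      ∑ G : Sym2 (Fin n) → Bool, h G * wt A (t + 1) P (A1_flip A t G) := by
    have := Equiv.sum_comp (hinv.toPerm) (fun G => h G * wt A (t + 1) P G)
    rw [← this]
    refine Finset.sum_congr rfl fun G _ => ?_
    show h (A1_flip A t G) * wt A (t + 1) P (A1_flip A t G) = _
    rw [← hm G (A1_flip A t G) (A1_flip_agree A t G)]
  have h2 : ∑ G : Sym2 (Fin n) → Bool, h G * wt A (t + 1) P G +
      ∑ G : Sym2 (Fin n) → Bool, h G * wt A (t + 1) P (A1_flip A t G) =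
      2 * ∑ G : Sym2 (Fin n) → Bool, h G * wt A t P G := by
    rw [← Finset.sum_add_distrib, Finset.mul_sum]
    refine Finset.sum_congr rfl fun G _ => ?_
    rw [← mul_add, A1_wt_add]
    ring
  linarith

theorem A1_meas_succ {n : ℕ} (A : Alg n) (t : ℕ) (h : (Sym2 (Fin n) → Bool) → ℝ)
    (hm : Meas A t h) : Meas A (t + 1) h := by
  intro G G' hG
  apply hm
  intro e he
  apply hG
  rw [A1_qd_succ]
  exact Finset.mem_insert_of_mem he

theorem taskA1 : TaskA1 := by
  intro n A t τ hle P h hm
  have key : ∀ k : ℕ, Meas A (t + k) h ∧
      ∑ G : Sym2 (Fin n) → Bool, h G * wt A (t + k) P G =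
        ∑ G : Sym2 (Fin n) → Bool, h G * wt A t P G := by
    intro k
    induction k with
    | zero => exact ⟨hm, rfl⟩
    | succ k ih =>
      refine ⟨A1_meas_succ A (t + k) h ih.1, ?_⟩
      have := A1_step A (t + k) P h ih.1
      rw [ih.2] at this
      exact this
  obtain ⟨k, rfl⟩ := Nat.exists_eq_add_of_le hle
  exact (key k).2

end H761CQ
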