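import Mathlib
import Pool.Agent.H761R3.CQ.Stmts

/-!
Fresh pairs argument.
-/

namespace H761CQ

open Finset

lemma ta2_card_prs {n : ℕ} (K : Finset (Fin n)) : (prs K).card = K.card.choose 2 := by
  unfold prs
  rw [Finset.sym2_eq_image, Sym2.filter_image_mk_not_isDiag, Sym2.card_image_offDiag]

lemma ta2_ans {n : ℕ} (A : Alg n) (G G' : Sym2 (Fin n) → Bool) (t : ℕ)
    (h : ∀ e ∈ qd A G t, G e = G' e) : ∀ s ≤ t, ans A G s = ans A G' s := by
  intro s
  induction s with
  | zero => intro _; rfl
  | succ s ih =>
    intro hs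
    have h1 := ih (by omega)
    have h2 : A.next (ans A G s) ∈ qd A G t := by
      unfold qd
      exact mem_image_of_mem _ (mem_range.2 (by omega))
    show G (A.next (ans A G s)) :: ans A G s = G' (A.next (ans A G' s)) :: ans A G' s
    rw [h _ h2, h1]

lemma ta2_qd {n : ℕ} (A : Alg n) (G G' : Sym2 (Fin n) → Bool) (t : ℕ)
    (h : ∀ e ∈ qd A G t, G e = G' e) : qd A G t = qd A G' t := by
  have h1 := ta2_ans A G G' t h
  unfold qd
  apply Finset.image_congr
  intro i hi
  have : i < t := by simpa using hi
  simp only
  rw [h1 i this.le]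

lemma ta2_fam {n : ℕ} (A : Alg n) (G G' : Sym2 (Fin n) → Bool) (t u k : ℕ)
    (h : ∀ e ∈ qd A G t, G e = G' e) : fam A G t u k = fam A G' t u k := by
  classical
  have h1 := ta2_qd A G G' t h
  unfold fam
  apply Finset.filter_congr
  intro K _
  rw [← h1]
  refine and_congr_right fun _ => and_congr_left fun _ => ?_
  constructor
  · intro h2 e he hq
    rw [← h e hq]; exact h2 e he hq
  · intro h2 e he hq
    rw [h e hq]; exact h2 e he hq

lemma ta2_qd_succ {n : ℕ} (A : Alg n) (G : Sym2 (Fin n) → Bool) (t : ℕ) :
    qd A G (t + 1) = insert (A.next (ans A G t)) (qd A G t) := by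
  unfold qd
  rw [Finset.range_add_one, Finset.image_insert]

lemma ta2_ivt (f : ℕ → ℕ) (hf : ∀ t, f t ≤ f (t + 1) + 1) (u : ℕ) (h0 : u ≤ f 0) :
    ∀ q, f q ≤ u → ∃ t ≤ q, f t = u := by
  intro q
  induction q with
  | zero => intro h; exact ⟨0, le_refl _, by omega⟩
  | succ q ih =>
    intro h
    rcases Nat.lt_or_ge (f (q + 1)) u with h1 | h1
    · obtain ⟨t, ht, h2⟩ := ih (by have := hf q; omega)
      exact ⟨t, by omega, h2⟩
    · exact ⟨q + 1, le_refl _, by omega⟩

lemma ta2_wt_nonneg {n : ℕ} (A : Alg n) (t : ℕ) (P : Finset (Sym2 (Fin n)))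
    (G : Sym2 (Fin n) → Bool) : 0 ≤ wt A t P G := by
  unfold wt
  split_ifs
  · positivity
  · exact le_refl _

open Classical in
theorem taskA2 : TaskA2 := by
  intro hA1 n q u k M A hu
  set N : ℝ := (Fintype.card (Sym2 (Fin n) → Bool) : ℝ) with hN
  -- complete sets
  let comp : Finset (Fin n) → (Sym2 (Fin n) → Bool) → Prop := fun K G =>
    ∀ e ∈ prs K, e ∈ qd A G q ∧ G e = true
  have key : ∀ G : Sym2 (Fin n) → Bool, (∃ K : Finset (Fin n), K.card = k ∧ comp K G) →
      ∃ t ≤ q, ∃ K ∈ fam A G t u k, comp K G := by
    rintro G ⟨K, hK, hc⟩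
    obtain ⟨t, ht, hft⟩ := ta2_ivt (fun t => (prs K \ qd A G t).card) (by
      intro t

      rw [ta2_qd_succ]
      have : prs K \ qd A G t ⊆ insert (A.next (ans A G t))
          (prs K \ insert (A.next (ans A G t)) (qd A G t)) := by
        intro e he
        rw [mem_sdiff] at he
        rw [mem_insert, mem_sdiff, mem_insert]
        by_cases h : e = A.next (ans A G t)
        · exact Or.inl h
        · exact Or.inr ⟨he.1, fun h2 => h2.elim h he.2⟩
      exact (card_le_card this).trans (card_insert_le _ _)) u (by
      have : qd A G 0 = ∅ := by simp [qd]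

      rw [this, sdiff_empty, ta2_card_prs, hK]
      exact hu) q (by
      have : prs K \ qd A G q = ∅ := by
        rw [sdiff_eq_empty_iff_subset]
        intro e he
        exact (hc e he).1

      rw [this, card_empty]
      exact Nat.zero_le _)
    refine ⟨t, ht, K, ?_, hc⟩
    unfold fam
    rw [mem_filter]
    exact ⟨mem_univ _, hK, fun e he _ => (hc e he).2, hft⟩
  -- the bound for fixed t
  have step : ∀ t ≤ q, ∑ K : Finset (Fin n),
      ((univ.filter fun G : Sym2 (Fin n) → Bool => (fam A G t u k).card < M ∧
        K ∈ fam A G t u k ∧ comp K G).card : ℝ) ≤ M * (1 / 2 : ℝ) ^ u * N := by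
    intro t ht
    have h1 : ∀ K : Finset (Fin n),
        ((univ.filter fun G : Sym2 (Fin n) → Bool => (fam A G t u k).card < M ∧
          K ∈ fam A G t u k ∧ comp K G).card : ℝ) ≤
        ∑ G : Sym2 (Fin n) → Bool,
          (if (fam A G t u k).card < M ∧ K ∈ fam A G t u k then (1 / 2 : ℝ) ^ u else 0) := by
      intro K
      have hM : Meas A t (fun G : Sym2 (Fin n) → Bool =>
          if (fam A G t u k).card < M ∧ K ∈ fam A G t u k then (1 : ℝ) else 0) := by
        intro G G' hG
        simp only
        rw [ta2_fam A G G' t u k hG]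
      have h2 := hA1 n A t q ht (prs K) _ hM
      have h3 : ((univ.filter fun G : Sym2 (Fin n) → Bool => (fam A G t u k).card < M ∧
          K ∈ fam A G t u k ∧ comp K G).card : ℝ) ≤
          ∑ G : Sym2 (Fin n) → Bool,
            (if (fam A G t u k).card < M ∧ K ∈ fam A G t u k then (1 : ℝ) else 0) *
              wt A q (prs K) G := by
        rw [Finset.card_filter]
        push_cast
        apply Finset.sum_le_sum
        intro G _
        by_cases hc : (fam A G t u k).card < M ∧ K ∈ fam A G t u k ∧ comp K G
        · rw [if_pos hc, if_pos ⟨hc.1, hc.2.1⟩, one_mul]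
          have h4 : prs K \ qd A G q = ∅ := by
            rw [sdiff_eq_empty_iff_subset]
            intro e he
            exact (hc.2.2 e he).1
          unfold wt
          rw [if_pos (fun e he _ => (hc.2.2 e he).2), h4, card_empty, pow_zero]
        · rw [if_neg hc]
          apply mul_nonneg
          · split_ifs <;> norm_num
          · exact ta2_wt_nonneg A q (prs K) G
      refine h3.trans (le_of_eq ?_)
      rw [h2]
      apply Finset.sum_congr rfl
      intro G _
      by_cases hc : (fam A G t u k).card < M ∧ K ∈ fam A G t u k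
      · rw [if_pos hc, if_pos hc, one_mul]
        have h4 := hc.2
        unfold fam at h4
        rw [mem_filter] at h4
        unfold wt
        rw [if_pos h4.2.2.1, h4.2.2.2]
      · rw [if_neg hc, if_neg hc, zero_mul]
    calc ∑ K : Finset (Fin n), ((univ.filter fun G : Sym2 (Fin n) → Bool =>
          (fam A G t u k).card < M ∧ K ∈ fam A G t u k ∧ comp K G).card : ℝ)
        ≤ ∑ K : Finset (Fin n), ∑ G : Sym2 (Fin n) → Bool,
          (if (fam A G t u k).card < M ∧ K ∈ fam A G t u k then (1 / 2 : ℝ) ^ u else 0) :=
          Finset.sum_le_sum fun K _ => h1 K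
      _ = ∑ G : Sym2 (Fin n) → Bool, ∑ K : Finset (Fin n),
          (if (fam A G t u k).card < M ∧ K ∈ fam A G t u k then (1 / 2 : ℝ) ^ u else 0) :=
          Finset.sum_comm
      _ ≤ ∑ G : Sym2 (Fin n) → Bool, M * (1 / 2 : ℝ) ^ u := by
          apply Finset.sum_le_sum
          intro G _
          by_cases hG : (fam A G t u k).card < M
          · have h5 : ∑ K : Finset (Fin n),
                (if (fam A G t u k).card < M ∧ K ∈ fam A G t u k then (1 / 2 : ℝ) ^ u else 0) =
                (fam A G t u k).card * (1 / 2 : ℝ) ^ u := by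
              rw [← Finset.sum_filter, Finset.sum_const, nsmul_eq_mul]
              congr 2
              have : (univ.filter fun K : Finset (Fin n) =>
                  (fam A G t u k).card < M ∧ K ∈ fam A G t u k) = fam A G t u k := by
                ext K
                simp [hG]
              rw [this]
            rw [h5]
            apply mul_le_mul_of_nonneg_right _ (by positivity)
            exact_mod_cast hG.le
          · have h5 : ∑ K : Finset (Fin n),
                (if (fam A G t u k).card < M ∧ K ∈ fam A G t u k then (1 / 2 : ℝ) ^ u else 0) = 0 := by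
              apply Finset.sum_eq_zero
              intro K _
              rw [if_neg (fun h => hG h.1)]
            rw [h5]
            positivity
      _ = M * (1 / 2 : ℝ) ^ u * N := by
          rw [Finset.sum_const, nsmul_eq_mul, Finset.card_univ, hN]
          ring
  -- union bound
  have hsub : (univ.filter fun G : Sym2 (Fin n) → Bool => ∃ K : Finset (Fin n), K.card = k ∧
      ∀ e ∈ prs K, e ∈ qd A G q ∧ G e = true) ⊆
      (univ.filter fun G : Sym2 (Fin n) → Bool => ∃ t ≤ q, M ≤ (fam A G t u k).card) ∪
      (range (q + 1)).biUnion fun t => (univ : Finset (Finset (Fin n))).biUnion fun K =>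
        univ.filter fun G : Sym2 (Fin n) → Bool => (fam A G t u k).card < M ∧
          K ∈ fam A G t u k ∧ comp K G := by
    intro G hG
    rw [mem_filter] at hG
    obtain ⟨t, ht, K, hK, hc⟩ := key G hG.2
    rw [mem_union]
    by_cases hM : M ≤ (fam A G t u k).card
    · left
      rw [mem_filter]
      exact ⟨mem_univ _, t, ht, hM⟩
    · right
      rw [mem_biUnion]
      refine ⟨t, mem_range.2 (by omega), ?_⟩
      rw [mem_biUnion]
      refine ⟨K, mem_univ _, ?_⟩
      rw [mem_filter]
      exact ⟨mem_univ _, by omega, hK, hc⟩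
  have h6 := (card_le_card hsub).trans (card_union_le _ _)
  have h7 : ((((range (q + 1)).biUnion fun t => (univ : Finset (Finset (Fin n))).biUnion fun K =>
        univ.filter fun G : Sym2 (Fin n) → Bool => (fam A G t u k).card < M ∧
          K ∈ fam A G t u k ∧ comp K G).card : ℕ) : ℝ) ≤ (q + 1) * M * (1 / 2 : ℝ) ^ u * N := by
    have h8 : (((range (q + 1)).biUnion fun t => (univ : Finset (Finset (Fin n))).biUnion fun K =>
        univ.filter fun G : Sym2 (Fin n) → Bool => (fam A G t u k).card < M ∧
          K ∈ fam A G t u k ∧ comp K G).card : ℕ) ≤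
        ∑ t ∈ range (q + 1), ∑ K : Finset (Fin n),
          (univ.filter fun G : Sym2 (Fin n) → Bool => (fam A G t u k).card < M ∧
            K ∈ fam A G t u k ∧ comp K G).card :=
      card_biUnion_le.trans (Finset.sum_le_sum fun t _ => card_biUnion_le)
    calc ((((range (q + 1)).biUnion fun t => (univ : Finset (Finset (Fin n))).biUnion fun K =>
        univ.filter fun G : Sym2 (Fin n) → Bool => (fam A G t u k).card < M ∧
          K ∈ fam A G t u k ∧ comp K G).card : ℕ) : ℝ)
        ≤ ((∑ t ∈ range (q + 1), ∑ K : Finset (Fin n),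
          (univ.filter fun G : Sym2 (Fin n) → Bool => (fam A G t u k).card < M ∧
            K ∈ fam A G t u k ∧ comp K G).card : ℕ) : ℝ) := by exact_mod_cast h8
      _ = ∑ t ∈ range (q + 1), ∑ K : Finset (Fin n),
          ((univ.filter fun G : Sym2 (Fin n) → Bool => (fam A G t u k).card < M ∧
            K ∈ fam A G t u k ∧ comp K G).card : ℝ) := by push_cast; rfl
      _ ≤ ∑ t ∈ range (q + 1), M * (1 / 2 : ℝ) ^ u * N :=
          Finset.sum_le_sum fun t ht => step t (by rw [mem_range] at ht; omega)
      _ = (q + 1) * M * (1 / 2 : ℝ) ^ u * N := by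
          rw [Finset.sum_const, card_range, nsmul_eq_mul]
          push_cast
          ring
  have h9 : ((univ.filter fun G : Sym2 (Fin n) → Bool => ∃ K : Finset (Fin n), K.card = k ∧
      ∀ e ∈ prs K, e ∈ qd A G q ∧ G e = true).card : ℝ) ≤
      ((univ.filter fun G : Sym2 (Fin n) → Bool =>
        ∃ t ≤ q, M ≤ (fam A G t u k).card).card : ℝ) +
      ((((range (q + 1)).biUnion fun t => (univ : Finset (Finset (Fin n))).biUnion fun K =>
        univ.filter fun G : Sym2 (Fin n) → Bool => (fam A G t u k).card < M ∧
          K ∈ fam A G t u k ∧ comp K G).card : ℕ) : ℝ) := by exact_mod_cast h6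
  exact h9.trans (add_le_add le_rfl h7)

end H761CQ
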