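import Pool.Agent.H761R3.CQ.Stmts

/-! Task C of the project H761-CQ: the union bound for `PropP`. -/

set_option autoImplicit false

namespace H761CQ

open Finset

namespace TC

/-- the union of the pairs of a tuple -/
def PP {n s : ℕ} (K : Fin s → Finset (Fin n)) : Finset (Sym2 (Fin n)) :=
  Finset.univ.biUnion fun i => prs (K i)

theorem sum_wt (h1 : TaskA1) (n t : ℕ) (A : Alg n) (P : Finset (Sym2 (Fin n))) :
    ∑ G : Sym2 (Fin n) → Bool, wt A t P G =
      (1 / 2 : ℝ) ^ P.card * Fintype.card (Sym2 (Fin n) → Bool) := by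
  have h := h1 n A 0 t (Nat.zero_le t) P (fun _ => 1) (fun _ _ _ => rfl)
  simp only [one_mul] at h
  rw [h]
  have h2 : ∀ G : Sym2 (Fin n) → Bool, wt A 0 P G = (1 / 2 : ℝ) ^ P.card := by
    intro G
    have hq : qd A G 0 = ∅ := by simp [qd]
    unfold wt
    rw [hq, if_pos (fun e _ he => absurd he (Finset.notMem_empty e)), Finset.sdiff_empty]
  rw [Finset.sum_congr rfl fun G _ => h2 G, Finset.sum_const, nsmul_eq_mul, Finset.card_univ,
    mul_comm]

theorem wt_nonneg {n : ℕ} (A : Alg n) (t : ℕ) (P : Finset (Sym2 (Fin n)))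
    (G : Sym2 (Fin n) → Bool) : 0 ≤ wt A t P G := by
  unfold wt
  split
  · positivity
  · exact le_refl _

theorem wt_ge {n s : ℕ} (A : Alg n) (t u : ℕ) (K : Fin s → Finset (Fin n))
    (G : Sym2 (Fin n) → Bool) (h : ∀ i, okk A G t u (K i)) :
    (1 / 2 : ℝ) ^ (s * u) ≤ wt A t (PP K) G := by
  unfold wt
  rw [if_pos]
  · apply pow_le_pow_of_le_one (by norm_num) (by norm_num)
    have h1 : PP K \ qd A G t ⊆ Finset.univ.biUnion fun i => (prs (K i) \ qd A G t) := by
      intro e he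
      rw [mem_sdiff, PP, mem_biUnion] at he
      obtain ⟨⟨i, hi, hei⟩, he2⟩ := he
      rw [mem_biUnion]
      exact ⟨i, hi, mem_sdiff.2 ⟨hei, he2⟩⟩
    calc (PP K \ qd A G t).card ≤ (Finset.univ.biUnion fun i => (prs (K i) \ qd A G t)).card :=
          card_le_card h1
      _ ≤ ∑ i, (prs (K i) \ qd A G t).card := card_biUnion_le
      _ ≤ ∑ _i : Fin s, u := Finset.sum_le_sum fun i _ => (h i).2
      _ = s * u := by simp
  · intro e he heq
    rw [PP, mem_biUnion] at he
    obtain ⟨i, _, hei⟩ := he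
    exact (h i).1 e hei heq

open Classical in
/-- few graphs for a given tuple -/
theorem card_tuple (h1 : TaskA1) (n t u s m : ℕ) (A : Alg n) (K : Fin s → Finset (Fin n))
    (hm : m + s * (u + 3) ≤ (PP K).card) :
    ((univ.filter fun G : Sym2 (Fin n) → Bool => ∀ i, okk A G t u (K i)).card : ℝ) ≤
      (1 / 2 : ℝ) ^ m * (1 / 8 : ℝ) ^ s * Fintype.card (Sym2 (Fin n) → Bool) := by
  have h2 := sum_wt h1 n t A (PP K)
  have h3 : ((univ.filter fun G : Sym2 (Fin n) → Bool => ∀ i, okk A G t u (K i)).card : ℝ) *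
      (1 / 2 : ℝ) ^ (s * u) ≤ ∑ G : Sym2 (Fin n) → Bool, wt A t (PP K) G := by
    calc ((univ.filter fun G : Sym2 (Fin n) → Bool => ∀ i, okk A G t u (K i)).card : ℝ) *
        (1 / 2 : ℝ) ^ (s * u) =
          ∑ G ∈ univ.filter fun G : Sym2 (Fin n) → Bool => ∀ i, okk A G t u (K i),
            (1 / 2 : ℝ) ^ (s * u) := by rw [Finset.sum_const, nsmul_eq_mul]
      _ ≤ ∑ G ∈ univ.filter fun G : Sym2 (Fin n) → Bool => ∀ i, okk A G t u (K i),
            wt A t (PP K) G := Finset.sum_le_sum fun G hG => wt_ge A t u K G (mem_filter.1 hG).2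
      _ ≤ ∑ G : Sym2 (Fin n) → Bool, wt A t (PP K) G :=
          Finset.sum_le_sum_of_subset_of_nonneg (filter_subset _ _) fun G _ _ => wt_nonneg _ _ _ _
  rw [h2] at h3
  have h4 : (1 / 2 : ℝ) ^ (PP K).card ≤ (1 / 2 : ℝ) ^ (m + s * (u + 3)) :=
    pow_le_pow_of_le_one (by norm_num) (by norm_num) hm
  have h5 : (1 / 2 : ℝ) ^ (m + s * (u + 3)) =
      (1 / 2 : ℝ) ^ (s * u) * ((1 / 2 : ℝ) ^ m * (1 / 8 : ℝ) ^ s) := by
    have h6 : (1 / 8 : ℝ) = (1 / 2 : ℝ) ^ 3 := by norm_num
    rw [h6, ← pow_mul, ← pow_add, ← pow_add]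
    congr 1
    ring
  have h7 : (0 : ℝ) < (1 / 2 : ℝ) ^ (s * u) := by positivity
  have hN : (0 : ℝ) ≤ Fintype.card (Sym2 (Fin n) → Bool) := Nat.cast_nonneg _
  have h8 : ((univ.filter fun G : Sym2 (Fin n) → Bool => ∀ i, okk A G t u (K i)).card : ℝ) *
      (1 / 2 : ℝ) ^ (s * u) ≤ ((1 / 2 : ℝ) ^ m * (1 / 8 : ℝ) ^ s *
        Fintype.card (Sym2 (Fin n) → Bool)) * (1 / 2 : ℝ) ^ (s * u) := by
    calc _ ≤ (1 / 2 : ℝ) ^ (PP K).card * Fintype.card (Sym2 (Fin n) → Bool) := h3
      _ ≤ (1 / 2 : ℝ) ^ (m + s * (u + 3)) * Fintype.card (Sym2 (Fin n) → Bool) :=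
          mul_le_mul_of_nonneg_right h4 hN
      _ = _ := by rw [h5]; ring
  exact le_of_mul_le_mul_right h8 h7

/-- the sum over the tuples of subsets of `V` -/
theorem sum_tuples (n s : ℕ) (V : Finset (Fin n)) (w : Fin n → ℕ)
    (hw : ∑ x ∈ V, (1 / 2 : ℝ) ^ w x ≤ 1) :
    ∑ K ∈ Fintype.piFinset (fun _ : Fin s => V.powerset),
      (1 / 2 : ℝ) ^ (∑ i, ∑ x ∈ K i, w x) * (1 / 8 : ℝ) ^ s ≤ (1 / 2 : ℝ) ^ s := by
  have h1 : ∑ T ∈ V.powerset, ∏ x ∈ T, (1 / 2 : ℝ) ^ w x ≤ 4 := by
    rw [← Finset.prod_one_add]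
    calc ∏ x ∈ V, (1 + (1 / 2 : ℝ) ^ w x) ≤ ∏ x ∈ V, Real.exp ((1 / 2 : ℝ) ^ w x) :=
          Finset.prod_le_prod (fun x _ => by positivity) fun x _ => by
            have := Real.add_one_le_exp ((1 / 2 : ℝ) ^ w x)
            linarith
      _ = Real.exp (∑ x ∈ V, (1 / 2 : ℝ) ^ w x) := (Real.exp_sum _ _).symm
      _ ≤ Real.exp 1 := Real.exp_le_exp.2 hw
      _ ≤ 4 := by
        have := Real.exp_one_lt_d9
        linarith
  have h2 : ∑ K ∈ Fintype.piFinset (fun _ : Fin s => V.powerset),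
      (1 / 2 : ℝ) ^ (∑ i, ∑ x ∈ K i, w x) * (1 / 8 : ℝ) ^ s =
      ∏ _i : Fin s, ∑ T ∈ V.powerset, ((1 / 8 : ℝ) * ∏ x ∈ T, (1 / 2 : ℝ) ^ w x) := by
    rw [Finset.prod_univ_sum]
    apply Finset.sum_congr rfl
    intro K _
    rw [Finset.prod_mul_distrib, Finset.prod_const, Finset.card_univ, Fintype.card_fin,
      mul_comm]
    congr 1
    rw [← Finset.prod_pow_eq_pow_sum]
    apply Finset.prod_congr rfl
    intro i _
    rw [Finset.prod_pow_eq_pow_sum]
  rw [h2, Finset.prod_const, Finset.card_univ, Fintype.card_fin, ← Finset.mul_sum]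
  have h3 : 0 ≤ ∑ T ∈ V.powerset, ∏ x ∈ T, (1 / 2 : ℝ) ^ w x :=
    Finset.sum_nonneg fun T _ => Finset.prod_nonneg fun x _ => by positivity
  apply pow_le_pow_left₀ (by positivity)
  linarith

theorem final_bound (n a : ℕ) (y : ℝ) (hy0 : 0 ≤ y) (hy : n * y ≤ (1 / 2 : ℝ) ^ a) :
    (1 + y) ^ n - 1 ≤ 2 * (1 / 2 : ℝ) ^ a := by
  have hδ1 : (1 / 2 : ℝ) ^ a ≤ 1 := pow_le_one₀ (by norm_num) (by norm_num)
  have hδ0 : 0 ≤ (n : ℝ) * y := by positivity
  have h1 : (1 + y) ^ n ≤ Real.exp (n * y) := by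
    rw [Real.exp_nat_mul]
    apply pow_le_pow_left₀ (by positivity)
    have := Real.add_one_le_exp y
    linarith
  have h2 := Real.abs_exp_sub_one_sub_id_le (x := n * y) (by
    rw [abs_of_nonneg hδ0]
    linarith)
  have h3 := (abs_le.1 h2).2
  nlinarith

end TC

open TC in
theorem taskC : TaskC := by
  classical
  intro h1 n S u W t a A hS
  set N : ℝ := (Fintype.card (Sym2 (Fin n) → Bool) : ℝ) with hN
  have hN0 : 0 ≤ N := Nat.cast_nonneg _
  -- the index sets
  let VS : Finset (Finset (Fin n)) := univ.filter fun V => V.Nonempty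
  let WS : Finset (Fin n) → Finset (Fin n → ℕ) := fun V =>
    (Fintype.piFinset fun x => if x ∈ V then range (W + 1) else {0}).filter
      fun w => ∑ x ∈ V, (1 / 2 : ℝ) ^ w x ≤ 1
  let KS : (V : Finset (Fin n)) → (Fin n → ℕ) → Finset (Fin (V.card * S) → Finset (Fin n)) :=
    fun V w => (Fintype.piFinset fun _ => V.powerset).filter
      fun K => (∑ i, ∑ x ∈ K i, w x) + V.card * S * (u + 3) ≤ (PP K).card
  have hsub : (univ.filter fun G : Sym2 (Fin n) → Bool => ¬ PropP n S u W (okk A G t u)) ⊆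
      VS.biUnion fun V => (WS V).biUnion fun w => (KS V w).biUnion fun K =>
        univ.filter fun G : Sym2 (Fin n) → Bool => ∀ i, okk A G t u (K i) := by
    intro G hG
    rw [mem_filter] at hG
    have hG2 := hG.2
    unfold PropP at hG2
    push Not at hG2
    obtain ⟨V, hV, w, hw, hw1, K, hK, hcard⟩ := hG2
    rw [mem_biUnion]
    refine ⟨V, mem_filter.2 ⟨mem_univ _, hV⟩, ?_⟩
    rw [mem_biUnion]
    let w' : Fin n → ℕ := fun x => if x ∈ V then w x else 0
    have hw' : ∀ x ∈ V, w' x = w x := fun x hx => by simp [w', hx]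
    refine ⟨w', ?_, ?_⟩
    · rw [mem_filter]
      constructor
      · rw [Fintype.mem_piFinset]
        intro x
        by_cases hx : x ∈ V
        · rw [if_pos hx, hw' x hx, mem_range]
          exact Nat.lt_succ_of_le (hw x)
        · rw [if_neg hx, mem_singleton]
          simp [w', hx]
      · rw [Finset.sum_congr rfl fun x hx => by rw [hw' x hx]]
        exact hw1
    · rw [mem_biUnion]
      refine ⟨K, ?_, ?_⟩
      · rw [mem_filter]
        constructor
        · rw [Fintype.mem_piFinset]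
          intro i
          rw [mem_powerset]
          exact (hK i).1
        · have e1 : ∑ i, ∑ x ∈ K i, w' x = ∑ i, ∑ x ∈ K i, w x :=
            Finset.sum_congr rfl fun i _ => Finset.sum_congr rfl fun x hx =>
              hw' x ((hK i).1 hx)
          rw [e1]
          exact hcard
      · rw [mem_filter]
        exact ⟨mem_univ _, fun i => (hK i).2⟩
  have hb1 : ∀ V ∈ VS, ∀ w ∈ WS V, ∑ K ∈ KS V w,
      ((univ.filter fun G : Sym2 (Fin n) → Bool => ∀ i, okk A G t u (K i)).card : ℝ) ≤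
        (1 / 2 : ℝ) ^ (V.card * S) * N := by
    intro V _ w hw
    have hw1 := (mem_filter.1 hw).2
    calc ∑ K ∈ KS V w,
        ((univ.filter fun G : Sym2 (Fin n) → Bool => ∀ i, okk A G t u (K i)).card : ℝ) ≤
        ∑ K ∈ KS V w, (1 / 2 : ℝ) ^ (∑ i, ∑ x ∈ K i, w x) * (1 / 8 : ℝ) ^ (V.card * S) * N :=
          Finset.sum_le_sum fun K hK => card_tuple h1 n t u (V.card * S) _ A K (mem_filter.1 hK).2
      _ ≤ ∑ K ∈ Fintype.piFinset (fun _ : Fin (V.card * S) => V.powerset),
          (1 / 2 : ℝ) ^ (∑ i, ∑ x ∈ K i, w x) * (1 / 8 : ℝ) ^ (V.card * S) * N :=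
          Finset.sum_le_sum_of_subset_of_nonneg (filter_subset _ _) fun K _ _ => by positivity
      _ = (∑ K ∈ Fintype.piFinset (fun _ : Fin (V.card * S) => V.powerset),
          (1 / 2 : ℝ) ^ (∑ i, ∑ x ∈ K i, w x) * (1 / 8 : ℝ) ^ (V.card * S)) * N := by
          rw [Finset.sum_mul]
      _ ≤ (1 / 2 : ℝ) ^ (V.card * S) * N :=
          mul_le_mul_of_nonneg_right (sum_tuples n _ V w hw1) hN0
  have hWS : ∀ V : Finset (Fin n), ((WS V).card : ℝ) ≤ ((W : ℝ) + 1) ^ V.card := by
    intro V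
    have e1 : (WS V).card ≤ (W + 1) ^ V.card := by
      calc (WS V).card ≤
          (Fintype.piFinset fun x : Fin n => if x ∈ V then range (W + 1) else {0}).card :=
            card_le_card (filter_subset _ _)
        _ = ∏ x : Fin n, (if x ∈ V then W + 1 else 1) := by
            rw [Fintype.card_piFinset]
            apply Finset.prod_congr rfl
            intro x _
            split <;> simp
        _ = (W + 1) ^ V.card := by
            rw [Finset.prod_ite, Finset.prod_const_one, mul_one, Finset.prod_const]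
            congr 2
            ext x
            simp
    calc ((WS V).card : ℝ) ≤ (((W + 1) ^ V.card : ℕ) : ℝ) := by exact_mod_cast e1
      _ = _ := by push_cast; rfl
  set y : ℝ := ((W : ℝ) + 1) * (1 / 2 : ℝ) ^ S with hy
  have hy0 : 0 ≤ y := by positivity
  have hb2 : ((univ.filter fun G : Sym2 (Fin n) → Bool =>
      ¬ PropP n S u W (okk A G t u)).card : ℝ) ≤ ∑ V ∈ VS, y ^ V.card * N := by
    calc ((univ.filter fun G : Sym2 (Fin n) → Bool => ¬ PropP n S u W (okk A G t u)).card : ℝ)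
        ≤ ((∑ V ∈ VS, ∑ w ∈ WS V, ∑ K ∈ KS V w,
          (univ.filter fun G : Sym2 (Fin n) → Bool => ∀ i, okk A G t u (K i)).card : ℕ) : ℝ) := by
          have e := card_le_card hsub
          have e2 : (VS.biUnion fun V => (WS V).biUnion fun w => (KS V w).biUnion fun K =>
              univ.filter fun G : Sym2 (Fin n) → Bool => ∀ i, okk A G t u (K i)).card ≤
              ∑ V ∈ VS, ∑ w ∈ WS V, ∑ K ∈ KS V w,
                (univ.filter fun G : Sym2 (Fin n) → Bool => ∀ i, okk A G t u (K i)).card :=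
            card_biUnion_le.trans (Finset.sum_le_sum fun V _ => card_biUnion_le.trans
              (Finset.sum_le_sum fun w _ => card_biUnion_le))
          exact_mod_cast e.trans e2
      _ = ∑ V ∈ VS, ∑ w ∈ WS V, ∑ K ∈ KS V w,
          ((univ.filter fun G : Sym2 (Fin n) → Bool => ∀ i, okk A G t u (K i)).card : ℝ) := by
          push_cast
          rfl
      _ ≤ ∑ V ∈ VS, ∑ w ∈ WS V, (1 / 2 : ℝ) ^ (V.card * S) * N :=
          Finset.sum_le_sum fun V hV => Finset.sum_le_sum fun w hw => hb1 V hV w hw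
      _ ≤ ∑ V ∈ VS, y ^ V.card * N := by
          apply Finset.sum_le_sum
          intro V _
          rw [Finset.sum_const, nsmul_eq_mul, ← mul_assoc]
          apply mul_le_mul_of_nonneg_right _ hN0
          rw [hy, mul_pow, ← pow_mul, mul_comm S]
          exact mul_le_mul_of_nonneg_right (hWS V) (by positivity)
  have hb3 : ∑ V ∈ VS, y ^ V.card = (1 + y) ^ n - 1 := by
    have e1 : (1 + y) ^ n = ∑ V ∈ (univ : Finset (Fin n)).powerset, y ^ V.card := by
      have := Finset.prod_one_add (f := fun _ : Fin n => y) univ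
      rw [Finset.prod_const, Finset.card_univ, Fintype.card_fin] at this
      rw [this]
      apply Finset.sum_congr rfl
      intro V _
      rw [Finset.prod_const]
    have e2 : (univ : Finset (Fin n)).powerset = insert ∅ VS := by
      ext V
      simp only [mem_powerset, subset_univ, true_iff, mem_insert, VS, mem_filter, mem_univ,
        true_and]
      exact V.eq_empty_or_nonempty
    have e3 : (∅ : Finset (Fin n)) ∉ VS := by
      simp [VS]
    rw [e1, e2, Finset.sum_insert e3]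
    simp
  rw [← Finset.sum_mul, hb3] at hb2
  refine hb2.trans (mul_le_mul_of_nonneg_right (final_bound n a y hy0 ?_) hN0)
  have h5 : (n : ℝ) * (W + 1) * 2 ^ a ≤ 2 ^ S := by exact_mod_cast hS
  rw [hy, one_div, inv_pow, inv_pow, ← mul_assoc, ← div_eq_mul_inv, div_le_iff₀ (by positivity),
    inv_mul_eq_div, le_div_iff₀ (by positivity)]
  exact h5

end H761CQ
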