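import Pool.Agent.H761R3.CQ.Stmts

/-! Project H761-CQ, task D (helper41): union bound for `PropD`. -/

set_option autoImplicit false

namespace H761CQ

open Finset

namespace TD

lemma mem_prs {n : ℕ} (K : Finset (Fin n)) (x y : Fin n) :
    s(x, y) ∈ prs K ↔ x ∈ K ∧ y ∈ K ∧ x ≠ y := by
  simp [prs, and_assoc]

lemma card_prs {n : ℕ} (K : Finset (Fin n)) : (prs K).card = K.card.choose 2 := by
  unfold prs
  rw [Finset.sym2_eq_image, Sym2.filter_image_mk_not_isDiag, Sym2.card_image_offDiag]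

lemma choose_add (f o : ℕ) : (f + o).choose 2 = f.choose 2 + (f * o + o.choose 2) := by
  induction o with
  | zero => simp
  | succ o ih =>
    rw [← add_assoc, Nat.choose_succ_succ' (f + o) 1, ih, Nat.choose_succ_succ' o 1]
    simp only [Nat.choose_one_right]
    ring

lemma card_P_ge {n s : ℕ} (F : Finset (Fin n)) (K : Fin s → Finset (Fin n)) (o : ℕ)
    (h1 : ∀ i, (K i).card = o ∧ Disjoint F (K i)) (h2 : ∀ i j, i ≠ j → Disjoint (K i) (K j)) :
    s * (F.card * o + o.choose 2) ≤ (univ.biUnion fun i => prs (F ∪ K i)).card := by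
  have hQ : ∀ i, (prs (F ∪ K i) \ prs F).card = F.card * o + o.choose 2 := by
    intro i
    have hsub : prs F ⊆ prs (F ∪ K i) := by
      intro e
      induction e using Sym2.ind with
      | _ x y =>
        rw [mem_prs, mem_prs]
        rintro ⟨a, b, c⟩
        exact ⟨Finset.mem_union_left _ a, Finset.mem_union_left _ b, c⟩
    rw [Finset.card_sdiff_of_subset hsub, card_prs, card_prs, Finset.card_union_of_disjoint (h1 i).2,
      (h1 i).1, choose_add]
    omega
  have hd : (univ.biUnion fun i => prs (F ∪ K i) \ prs F).card = s * (F.card * o + o.choose 2) := by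
    rw [Finset.card_biUnion]
    · rw [Finset.sum_congr rfl fun i _ => hQ i]
      simp
    · intro i _ j _ hij
      show Disjoint (prs (F ∪ K i) \ prs F) (prs (F ∪ K j) \ prs F)
      rw [Finset.disjoint_left]
      intro e
      induction e using Sym2.ind with
      | _ x y =>
        rw [Finset.mem_sdiff, Finset.mem_sdiff, mem_prs, mem_prs, mem_prs]
        rintro ⟨⟨hx, hy, hne⟩, hF⟩ ⟨⟨hx', hy', _⟩, _⟩
        have hdis := Finset.disjoint_left.mp (h2 i j hij)
        have key : ∀ z, z ∈ F ∪ K i → z ∈ F ∪ K j → z ∈ F := by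
          intro z hz hz'
          rcases Finset.mem_union.mp hz with h | h
          · exact h
          · rcases Finset.mem_union.mp hz' with h' | h'
            · exact h'
            · exact absurd h' (hdis h)
        exact hF ⟨key x hx hx', key y hy hy', hne⟩
  rw [← hd]
  refine Finset.card_le_card fun e he => ?_
  rw [Finset.mem_biUnion] at he ⊢
  obtain ⟨i, hi, he⟩ := he
  exact ⟨i, hi, (Finset.mem_sdiff.mp he).1⟩

lemma sum_wt (hA1 : TaskA1) {n : ℕ} (A : Alg n) (t : ℕ) (P : Finset (Sym2 (Fin n))) :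
    ∑ G : Sym2 (Fin n) → Bool, wt A t P G =
      (1 / 2 : ℝ) ^ P.card * Fintype.card (Sym2 (Fin n) → Bool) := by
  have h := hA1 n A 0 t (Nat.zero_le t) P (fun _ => 1) (fun _ _ _ => rfl)
  simp only [one_mul] at h
  rw [h]
  have : ∀ G : Sym2 (Fin n) → Bool, wt A 0 P G = (1 / 2 : ℝ) ^ P.card := by
    intro G
    unfold wt qd
    simp
  rw [Finset.sum_congr rfl fun G _ => this G, Finset.sum_const, Finset.card_univ, nsmul_eq_mul,
    mul_comm]

lemma wt_nonneg {n : ℕ} (A : Alg n) (t : ℕ) (P : Finset (Sym2 (Fin n))) (G : Sym2 (Fin n) → Bool) :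
    0 ≤ wt A t P G := by
  unfold wt
  split_ifs <;> positivity

lemma wt_ge {n s : ℕ} (A : Alg n) (t u : ℕ) (F : Finset (Fin n)) (K : Fin s → Finset (Fin n))
    (G : Sym2 (Fin n) → Bool) (h : ∀ i, okk A G t u (F ∪ K i)) :
    (1 / 2 : ℝ) ^ (s * u) ≤ wt A t (univ.biUnion fun i => prs (F ∪ K i)) G := by
  unfold wt
  rw [if_pos]
  · refine pow_le_pow_of_le_one (by norm_num) (by norm_num) ?_
    have h1 : (univ.biUnion fun i => prs (F ∪ K i)) \ qd A G t ⊆
        univ.biUnion fun i => (prs (F ∪ K i) \ qd A G t) := by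
      intro e he
      rw [Finset.mem_sdiff, Finset.mem_biUnion] at he
      obtain ⟨⟨i, hi, he⟩, hq⟩ := he
      rw [Finset.mem_biUnion]
      exact ⟨i, hi, Finset.mem_sdiff.mpr ⟨he, hq⟩⟩
    refine (Finset.card_le_card h1).trans (Finset.card_biUnion_le.trans ?_)
    refine (Finset.sum_le_sum fun i _ => (h i).2).trans ?_
    simp
  · intro e he hq
    rw [Finset.mem_biUnion] at he
    obtain ⟨i, _, he⟩ := he
    exact (h i).1 e he hq

open Classical in
/-- all tuples -/
noncomputable def TT (n s : ℕ) (F : Finset (Fin n)) (o : ℕ) : Finset (Fin s → Finset (Fin n)) :=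
  univ.filter fun K => (∀ i, (K i).card = o ∧ Disjoint F (K i)) ∧ ∀ i j, i ≠ j → Disjoint (K i) (K j)

lemma card_TT {n s L : ℕ} (hn : n ≤ 2 ^ L) (F : Finset (Fin n)) (o : ℕ) :
    (TT n s F o).card ≤ 2 ^ (s * (o * L)) := by
  classical
  have h1 : TT n s F o ⊆ Fintype.piFinset fun _ : Fin s => powersetCard o (univ : Finset (Fin n)) := by
    intro K hK
    rw [TT, Finset.mem_filter] at hK
    rw [Fintype.mem_piFinset]
    intro i
    rw [Finset.mem_powersetCard]
    exact ⟨Finset.subset_univ _, (hK.2.1 i).1⟩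
  refine (Finset.card_le_card h1).trans ?_
  rw [Fintype.card_piFinset]
  simp only [Finset.card_powersetCard, Finset.card_univ, Fintype.card_fin, Finset.prod_const]
  calc n.choose o ^ s ≤ (2 ^ (o * L)) ^ s := by
        refine Nat.pow_le_pow_left ?_ s
        calc n.choose o ≤ n ^ o := Nat.choose_le_pow n o
          _ ≤ (2 ^ L) ^ o := Nat.pow_le_pow_left hn o
          _ = 2 ^ (o * L) := by rw [← pow_mul, mul_comm]
    _ = 2 ^ (s * (o * L)) := by rw [← pow_mul, mul_comm]

open Classical in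
/-- the number of good tuples -/
noncomputable def cnt {n : ℕ} (s u t : ℕ) (A : Alg n) (F : Finset (Fin n)) (o : ℕ)
    (G : Sym2 (Fin n) → Bool) : ℕ :=
  (univ.filter fun K : Fin s → Finset (Fin n) =>
      (∀ i, (K i).card = o ∧ Disjoint F (K i) ∧ okk A G t u (F ∪ K i)) ∧
        ∀ i j, i ≠ j → Disjoint (K i) (K j)).card

lemma sum_cnt (hA1 : TaskA1) {n L : ℕ} (hn : n ≤ 2 ^ L) (s u t : ℕ) (A : Alg n)
    (F : Finset (Fin n)) (o : ℕ) :
    ∑ G : Sym2 (Fin n) → Bool, (cnt s u t A F o G : ℝ) * 2 ^ (s * (F.card * o + o.choose 2)) ≤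
      2 ^ (s * (u + o * L)) * Fintype.card (Sym2 (Fin n) → Bool) := by
  classical
  have h1 : ∀ G : Sym2 (Fin n) → Bool, (cnt s u t A F o G : ℝ) * (1 / 2 : ℝ) ^ (s * u) ≤
      ∑ K ∈ TT n s F o, wt A t (univ.biUnion fun i => prs (F ∪ K i)) G := by
    intro G
    have h2 : (univ.filter fun K : Fin s → Finset (Fin n) =>
      (∀ i, (K i).card = o ∧ Disjoint F (K i) ∧ okk A G t u (F ∪ K i)) ∧
        ∀ i j, i ≠ j → Disjoint (K i) (K j)) ⊆ TT n s F o := by
      intro K hK
      rw [Finset.mem_filter] at hK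
      rw [TT, Finset.mem_filter]
      exact ⟨hK.1, fun i => ⟨(hK.2.1 i).1, (hK.2.1 i).2.1⟩, hK.2.2⟩
    calc (cnt s u t A F o G : ℝ) * (1 / 2 : ℝ) ^ (s * u)
        = ∑ K ∈ (univ.filter fun K : Fin s → Finset (Fin n) =>
      (∀ i, (K i).card = o ∧ Disjoint F (K i) ∧ okk A G t u (F ∪ K i)) ∧
        ∀ i j, i ≠ j → Disjoint (K i) (K j)), (1 / 2 : ℝ) ^ (s * u) := by
          rw [Finset.sum_const, nsmul_eq_mul, cnt]
      _ ≤ ∑ K ∈ (univ.filter fun K : Fin s → Finset (Fin n) =>
      (∀ i, (K i).card = o ∧ Disjoint F (K i) ∧ okk A G t u (F ∪ K i)) ∧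
        ∀ i j, i ≠ j → Disjoint (K i) (K j)), wt A t (univ.biUnion fun i => prs (F ∪ K i)) G := by
          refine Finset.sum_le_sum fun K hK => ?_
          rw [Finset.mem_filter] at hK
          exact wt_ge A t u F K G fun i => (hK.2.1 i).2.2
      _ ≤ _ := Finset.sum_le_sum_of_subset_of_nonneg h2 fun K _ _ => wt_nonneg A t _ G
  set N : ℝ := (Fintype.card (Sym2 (Fin n) → Bool) : ℝ) with hN
  have hN0 : 0 ≤ N := Nat.cast_nonneg _
  set m := F.card * o + o.choose 2 with hm
  have h3 : ∑ G : Sym2 (Fin n) → Bool, (cnt s u t A F o G : ℝ) * (1 / 2 : ℝ) ^ (s * u) ≤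
      2 ^ (s * (o * L)) * ((1 / 2 : ℝ) ^ (s * m) * N) := by
    calc ∑ G : Sym2 (Fin n) → Bool, (cnt s u t A F o G : ℝ) * (1 / 2 : ℝ) ^ (s * u)
        ≤ ∑ G : Sym2 (Fin n) → Bool,
            ∑ K ∈ TT n s F o, wt A t (univ.biUnion fun i => prs (F ∪ K i)) G :=
          Finset.sum_le_sum fun G _ => h1 G
      _ = ∑ K ∈ TT n s F o, ∑ G : Sym2 (Fin n) → Bool,
            wt A t (univ.biUnion fun i => prs (F ∪ K i)) G := Finset.sum_comm
      _ = ∑ K ∈ TT n s F o, (1 / 2 : ℝ) ^ (univ.biUnion fun i => prs (F ∪ K i)).card * N :=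
          Finset.sum_congr rfl fun K _ => sum_wt hA1 A t _
      _ ≤ ∑ K ∈ TT n s F o, (1 / 2 : ℝ) ^ (s * m) * N := by
          refine Finset.sum_le_sum fun K hK => ?_
          rw [TT, Finset.mem_filter] at hK
          refine mul_le_mul_of_nonneg_right ?_ hN0
          exact pow_le_pow_of_le_one (by norm_num) (by norm_num) (card_P_ge F K o hK.2.1 hK.2.2)
      _ = ((TT n s F o).card : ℝ) * ((1 / 2 : ℝ) ^ (s * m) * N) := by
          rw [Finset.sum_const, nsmul_eq_mul]
      _ ≤ 2 ^ (s * (o * L)) * ((1 / 2 : ℝ) ^ (s * m) * N) := by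
          refine mul_le_mul_of_nonneg_right ?_ (by positivity)
          exact_mod_cast card_TT hn F o
  have e1 : ∀ k : ℕ, (1 / 2 : ℝ) ^ k * 2 ^ k = 1 := by
    intro k
    rw [← mul_pow]
    norm_num
  calc ∑ G : Sym2 (Fin n) → Bool, (cnt s u t A F o G : ℝ) * 2 ^ (s * m)
      = (∑ G : Sym2 (Fin n) → Bool, (cnt s u t A F o G : ℝ) * (1 / 2 : ℝ) ^ (s * u)) *
          (2 ^ (s * u) * 2 ^ (s * m)) := by
        rw [Finset.sum_mul]
        refine Finset.sum_congr rfl fun G _ => ?_
        calc (cnt s u t A F o G : ℝ) * 2 ^ (s * m)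
            = (cnt s u t A F o G : ℝ) * 2 ^ (s * m) * ((1 / 2 : ℝ) ^ (s * u) * 2 ^ (s * u)) := by
              rw [e1, mul_one]
          _ = _ := by ring
    _ ≤ (2 ^ (s * (o * L)) * ((1 / 2 : ℝ) ^ (s * m) * N)) * (2 ^ (s * u) * 2 ^ (s * m)) := by
        refine mul_le_mul_of_nonneg_right h3 (by positivity)
    _ = ((1 / 2 : ℝ) ^ (s * m) * 2 ^ (s * m)) * (2 ^ (s * u) * 2 ^ (s * (o * L))) * N := by ring
    _ = 2 ^ (s * (u + o * L)) * N := by
        rw [e1, one_mul, ← pow_add, mul_add]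

open Classical in
lemma markov (hA1 : TaskA1) {n L : ℕ} (hn : n ≤ 2 ^ L) (s u t a : ℕ) (A : Alg n)
    (F : Finset (Fin n)) (o : ℕ) :
    ((univ.filter fun G : Sym2 (Fin n) → Bool =>
      ¬ (cnt s u t A F o G * 2 ^ (s * (F.card * o + o.choose 2)) ≤
        2 ^ (s * (u + o * L) + F.card * L + a))).card : ℝ) ≤
      (1 / 2 : ℝ) ^ (F.card * L + a) * Fintype.card (Sym2 (Fin n) → Bool) := by
  set N : ℝ := (Fintype.card (Sym2 (Fin n) → Bool) : ℝ) with hN
  set B := univ.filter fun G : Sym2 (Fin n) → Bool =>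
      ¬ (cnt s u t A F o G * 2 ^ (s * (F.card * o + o.choose 2)) ≤
        2 ^ (s * (u + o * L) + F.card * L + a)) with hB
  have h1 : (B.card : ℝ) * 2 ^ (s * (u + o * L) + F.card * L + a) ≤
      2 ^ (s * (u + o * L)) * N := by
    calc (B.card : ℝ) * 2 ^ (s * (u + o * L) + F.card * L + a)
        = ∑ G ∈ B, (2 : ℝ) ^ (s * (u + o * L) + F.card * L + a) := by
          rw [Finset.sum_const, nsmul_eq_mul]
      _ ≤ ∑ G ∈ B, (cnt s u t A F o G : ℝ) * 2 ^ (s * (F.card * o + o.choose 2)) := by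
          refine Finset.sum_le_sum fun G hG => ?_
          rw [hB, Finset.mem_filter] at hG
          have := hG.2
          push Not at this
          exact_mod_cast this.le
      _ ≤ ∑ G : Sym2 (Fin n) → Bool,
            (cnt s u t A F o G : ℝ) * 2 ^ (s * (F.card * o + o.choose 2)) :=
          Finset.sum_le_sum_of_subset_of_nonneg (Finset.subset_univ _) fun _ _ _ => by positivity
      _ ≤ _ := sum_cnt hA1 hn s u t A F o
  have e1 : (1 / 2 : ℝ) ^ (F.card * L + a) * 2 ^ (F.card * L + a) = 1 := by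
    rw [← mul_pow]
    norm_num
  have h2 : (B.card : ℝ) * 2 ^ (F.card * L + a) ≤ N := by
    have h3 : (2 : ℝ) ^ (s * (u + o * L) + F.card * L + a) =
        2 ^ (s * (u + o * L)) * 2 ^ (F.card * L + a) := by
      rw [← pow_add]
      congr 1
      ring
    rw [h3] at h1
    have h4 : (0 : ℝ) < 2 ^ (s * (u + o * L)) := by positivity
    have h5 : 2 ^ (s * (u + o * L)) * ((B.card : ℝ) * 2 ^ (F.card * L + a)) ≤
        2 ^ (s * (u + o * L)) * N := by
      calc _ = (B.card : ℝ) * (2 ^ (s * (u + o * L)) * 2 ^ (F.card * L + a)) := by ring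
        _ ≤ _ := h1
    exact le_of_mul_le_mul_left h5 h4
  calc (B.card : ℝ) = (1 / 2 : ℝ) ^ (F.card * L + a) * ((B.card : ℝ) * 2 ^ (F.card * L + a)) := by
        calc (B.card : ℝ) = (B.card : ℝ) * ((1 / 2 : ℝ) ^ (F.card * L + a) * 2 ^ (F.card * L + a)) := by
              rw [e1, mul_one]
          _ = _ := by ring
    _ ≤ (1 / 2 : ℝ) ^ (F.card * L + a) * N := by gcongr

lemma sum_F {n L : ℕ} (hn : n ≤ 2 ^ L) :
    ∑ F : Finset (Fin n), ((1 / 2 : ℝ) ^ L) ^ F.card ≤ (n : ℝ) + 1 := by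
  have h := Finset.sum_powerset_apply_card (fun m => ((1 / 2 : ℝ) ^ L) ^ m)
    (x := (univ : Finset (Fin n)))
  rw [Finset.powerset_univ] at h
  rw [h]
  simp only [Finset.card_univ, Fintype.card_fin, nsmul_eq_mul]
  calc ∑ m ∈ range (n + 1), (n.choose m : ℝ) * ((1 / 2 : ℝ) ^ L) ^ m
      ≤ ∑ m ∈ range (n + 1), (1 : ℝ) := by
        refine Finset.sum_le_sum fun m _ => ?_
        have h1 : (n.choose m : ℝ) ≤ ((2 : ℝ) ^ L) ^ m := by
          have h2 : n.choose m ≤ (2 ^ L) ^ m :=
            (Nat.choose_le_pow n m).trans (Nat.pow_le_pow_left hn m)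
          exact_mod_cast h2
        calc (n.choose m : ℝ) * ((1 / 2 : ℝ) ^ L) ^ m
            ≤ ((2 : ℝ) ^ L) ^ m * ((1 / 2 : ℝ) ^ L) ^ m := by gcongr
          _ = 1 := by
            rw [← mul_pow, ← mul_pow]
            norm_num
    _ = (n : ℝ) + 1 := by simp

end TD

theorem taskD : TaskD := by
  classical
  intro hA1 n L s u t a A hn
  set N : ℝ := (Fintype.card (Sym2 (Fin n) → Bool) : ℝ) with hN
  have hN0 : 0 ≤ N := Nat.cast_nonneg _
  -- the bad events cover
  have hcov : (univ.filter fun G : Sym2 (Fin n) → Bool => ¬ PropD n L s u a (okk A G t u)) ⊆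
      univ.biUnion fun F : Finset (Fin n) => (range (n + 1)).biUnion fun o =>
        univ.filter fun G : Sym2 (Fin n) → Bool =>
          ¬ (TD.cnt s u t A F o G * 2 ^ (s * (F.card * o + o.choose 2)) ≤
            2 ^ (s * (u + o * L) + F.card * L + a)) := by
    intro G hG
    rw [Finset.mem_filter] at hG
    have h1 := hG.2
    unfold PropD at h1
    push Not at h1
    obtain ⟨F, o, h2⟩ := h1
    have h3 : 2 ^ (s * (u + o * L) + F.card * L + a) <
        TD.cnt s u t A F o G * 2 ^ (s * (F.card * o + o.choose 2)) := by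
      unfold TD.cnt
      convert h2 using 4
    rw [Finset.mem_biUnion]
    refine ⟨F, Finset.mem_univ _, ?_⟩
    rw [Finset.mem_biUnion]
    refine ⟨o, ?_, ?_⟩
    · rw [Finset.mem_range]
      by_contra ho
      push Not at ho
      rcases Nat.eq_zero_or_pos s with hs | hs
      · subst hs
        have h4 : TD.cnt 0 u t A F o G ≤ 1 := by
          unfold TD.cnt
          refine (Finset.card_le_univ _).trans ?_
          simp
        have h5 : 1 ≤ 2 ^ (0 * (u + o * L) + F.card * L + a) := Nat.one_le_two_pow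
        simp only [zero_mul, pow_zero, mul_one, zero_add] at h3 h5
        omega
      · have h4 : TD.cnt s u t A F o G = 0 := by
          unfold TD.cnt
          rw [Finset.card_eq_zero, Finset.filter_eq_empty_iff]
          intro K _ hK
          have h5 := (hK.1 ⟨0, hs⟩).1
          have h6 := Finset.card_le_univ (K ⟨0, hs⟩)
          rw [Fintype.card_fin] at h6
          omega
        rw [h4, zero_mul] at h3
        exact absurd h3 (Nat.not_lt_zero _)
    · rw [Finset.mem_filter]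
      exact ⟨Finset.mem_univ _, not_le.mpr h3⟩
  have hcard := Finset.card_le_card hcov
  have h7 : ((univ.filter fun G : Sym2 (Fin n) → Bool => ¬ PropD n L s u a (okk A G t u)).card : ℝ) ≤
      ∑ F : Finset (Fin n), ∑ o ∈ range (n + 1), (1 / 2 : ℝ) ^ (F.card * L + a) * N := by
    calc ((univ.filter fun G : Sym2 (Fin n) → Bool => ¬ PropD n L s u a (okk A G t u)).card : ℝ)
        ≤ ((univ.biUnion fun F : Finset (Fin n) => (range (n + 1)).biUnion fun o =>
        univ.filter fun G : Sym2 (Fin n) → Bool =>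
          ¬ (TD.cnt s u t A F o G * 2 ^ (s * (F.card * o + o.choose 2)) ≤
            2 ^ (s * (u + o * L) + F.card * L + a))).card : ℝ) := by exact_mod_cast hcard
      _ ≤ ∑ F : Finset (Fin n), (((range (n + 1)).biUnion fun o =>
        univ.filter fun G : Sym2 (Fin n) → Bool =>
          ¬ (TD.cnt s u t A F o G * 2 ^ (s * (F.card * o + o.choose 2)) ≤
            2 ^ (s * (u + o * L) + F.card * L + a))).card : ℝ) := by
          exact_mod_cast Finset.card_biUnion_le
      _ ≤ ∑ F : Finset (Fin n), ∑ o ∈ range (n + 1), ((univ.filter fun G : Sym2 (Fin n) → Bool =>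
          ¬ (TD.cnt s u t A F o G * 2 ^ (s * (F.card * o + o.choose 2)) ≤
            2 ^ (s * (u + o * L) + F.card * L + a))).card : ℝ) := by
          refine Finset.sum_le_sum fun F _ => ?_
          exact_mod_cast Finset.card_biUnion_le
      _ ≤ _ := Finset.sum_le_sum fun F _ => Finset.sum_le_sum fun o _ =>
          TD.markov hA1 hn s u t a A F o
  refine h7.trans ?_
  have h8 : ∑ F : Finset (Fin n), ∑ o ∈ range (n + 1), (1 / 2 : ℝ) ^ (F.card * L + a) * N =
      ((n : ℝ) + 1) * (1 / 2 : ℝ) ^ a * N * ∑ F : Finset (Fin n), ((1 / 2 : ℝ) ^ L) ^ F.card := by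
    rw [Finset.mul_sum]
    refine Finset.sum_congr rfl fun F _ => ?_
    rw [Finset.sum_const, Finset.card_range, nsmul_eq_mul, pow_add, ← pow_mul, mul_comm L F.card]
    push_cast
    ring
  rw [h8]
  have h9 := TD.sum_F hn
  calc ((n : ℝ) + 1) * (1 / 2 : ℝ) ^ a * N * ∑ F : Finset (Fin n), ((1 / 2 : ℝ) ^ L) ^ F.card
      ≤ ((n : ℝ) + 1) * (1 / 2 : ℝ) ^ a * N * ((n : ℝ) + 1) := by gcongr
    _ = ((n : ℝ) + 1) ^ 2 * (1 / 2 : ℝ) ^ a * N := by ring

end H761CQ
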