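import Mathlib
import Pool.Agent.H761R3.CQ.Stmts

/-!
Task E1 of the project H761-CQ: averaging `PropP` over all tuples from a family.
-/

namespace H761CQ

open Finset

theorem TE1_card_prs {n : ℕ} (K : Finset (Fin n)) : (prs K).card = K.card.choose 2 := by
  have h : prs K = K.offDiag.image (fun p => s(p.1, p.2)) := by
    ext e
    induction e using Sym2.ind with
    | _ x y =>
      simp only [prs, Finset.mem_filter, Finset.mk_mem_sym2_iff, Sym2.mk_isDiag_iff,
        Finset.mem_image, Finset.mem_offDiag, Prod.exists]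
      constructor
      · rintro ⟨⟨hx, hy⟩, hne⟩
        exact ⟨x, y, ⟨hx, hy, hne⟩, rfl⟩
      · rintro ⟨a, b, ⟨ha, hb, hab⟩, he⟩
        rcases Sym2.eq_iff.1 he with ⟨rfl, rfl⟩ | ⟨rfl, rfl⟩
        · exact ⟨⟨ha, hb⟩, hab⟩
        · exact ⟨⟨hb, ha⟩, fun h => hab h.symm⟩
  rw [h]
  exact Sym2.card_image_offDiag K

theorem TE1_swap {ι : Type} {s : ℕ} (I : Finset ι) (j : Fin s) (g : ι → (Fin s → ι) → ℝ)
    (hg : ∀ a b f, g a (Function.update f j b) = g a f) :
    ∑ f ∈ Fintype.piFinset (fun _ : Fin s => I), ∑ i ∈ I, g i f =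
      I.card * ∑ f ∈ Fintype.piFinset (fun _ : Fin s => I), g (f j) f := by
  have h : ∑ f ∈ Fintype.piFinset (fun _ : Fin s => I), ∑ i ∈ I, g i f =
      ∑ f ∈ Fintype.piFinset (fun _ : Fin s => I), ∑ i ∈ I, g (f j) f := by
    rw [← Finset.sum_product', ← Finset.sum_product']
    have hm : ∀ p ∈ Fintype.piFinset (fun _ : Fin s => I) ×ˢ I,
        ((Function.update p.1 j p.2, p.1 j) : (Fin s → ι) × ι) ∈
          Fintype.piFinset (fun _ : Fin s => I) ×ˢ I := by
      rintro ⟨f, i⟩ hp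
      rw [Finset.mem_product, Fintype.mem_piFinset] at hp
      rw [Finset.mem_product, Fintype.mem_piFinset]
      refine ⟨fun a => ?_, hp.1 j⟩
      by_cases ha : a = j
      · subst ha
        simpa using hp.2
      · simpa [Function.update_of_ne ha] using hp.1 a
    have hi : ∀ p ∈ Fintype.piFinset (fun _ : Fin s => I) ×ˢ I,
        ((Function.update (Function.update p.1 j p.2) j (p.1 j),
          (Function.update p.1 j p.2) j) : (Fin s → ι) × ι) = p := by
      rintro ⟨f, i⟩ hp
      simp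
    refine Finset.sum_nbij' (fun p => (Function.update p.1 j p.2, p.1 j))
      (fun p => (Function.update p.1 j p.2, p.1 j)) hm hm hi hi ?_
    rintro ⟨f, i⟩ hp
    simp [hg]
  rw [h, Finset.mul_sum]
  refine Finset.sum_congr rfl fun f _ => ?_
  rw [Finset.sum_const, nsmul_eq_mul]

/-- the union of the pairs of all members of the tuple other than the `j`-th -/
def TE1_others {n : ℕ} {ι : Type} {s : ℕ} (K : ι → Finset (Fin n)) (f : Fin s → ι) (j : Fin s) :
    Finset (Sym2 (Fin n)) :=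
  (Finset.univ.filter fun j' => j' ≠ j).biUnion fun j' => prs (K (f j'))

theorem TE1_lower {n : ℕ} {ι : Type} {s : ℕ} (K : ι → Finset (Fin n)) (f : Fin s → ι) :
    ∑ j, (prs (K (f j)) \ TE1_others K f j).card ≤ (Gam K f).card := by
  rw [← Finset.card_biUnion]
  · refine Finset.card_le_card fun e he => ?_
    simp only [Finset.mem_biUnion, Finset.mem_univ, true_and, Finset.mem_sdiff] at he
    obtain ⟨j, hj, _⟩ := he
    simp only [Gam, Finset.mem_biUnion, Finset.mem_univ, true_and]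
    exact ⟨j, hj⟩
  · intro j _ j' _ hne
    show Disjoint (prs (K (f j)) \ TE1_others K f j) (prs (K (f j')) \ TE1_others K f j')
    rw [Finset.disjoint_left]
    intro e he he'
    rw [Finset.mem_sdiff] at he he'
    apply he'.2
    simp only [TE1_others, Finset.mem_biUnion, Finset.mem_filter, Finset.mem_univ, true_and]
    exact ⟨j, hne, he.1⟩

theorem TE1_others_update {n : ℕ} {ι : Type} {s : ℕ} (K : ι → Finset (Fin n)) (f : Fin s → ι)
    (j : Fin s) (b : ι) : TE1_others K (Function.update f j b) j = TE1_others K f j := by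
  unfold TE1_others
  refine Finset.biUnion_congr rfl fun j' hj' => ?_
  rw [Finset.mem_filter] at hj'
  rw [Function.update_of_ne hj'.2]

theorem TE1_others_subset {n : ℕ} {ι : Type} {s : ℕ} (K : ι → Finset (Fin n)) (f : Fin s → ι)
    (j : Fin s) : TE1_others K f j ⊆ Gam K f := by
  intro e he
  simp only [TE1_others, Finset.mem_biUnion, Finset.mem_filter, Finset.mem_univ, true_and] at he
  obtain ⟨j', _, h⟩ := he
  simp only [Gam, Finset.mem_biUnion, Finset.mem_univ, true_and]
  exact ⟨j', h⟩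

theorem taskE1 : TaskE1 := by
  intro n S u W o ok ι I K V w hP hS hV hI hw hkraft hK
  set s := V.card * S with hs
  have hspos : 0 < s := Nat.mul_pos (Finset.card_pos.2 hV) hS
  have hIpos : (0 : ℝ) < I.card := by exact_mod_cast Finset.card_pos.2 hI
  set P := Fintype.piFinset (fun _ : Fin s => I) with hPdef
  have hPc : (P.card : ℝ) = (I.card : ℝ) ^ s := by
    rw [hPdef, Fintype.card_piFinset]
    simp
  have hT : (0 : ℝ) < (I.card : ℝ) ^ s := pow_pos hIpos s
  -- pointwise inequality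
  have hpt : ∀ f ∈ P, ∑ j : Fin s, ((o.choose 2 : ℝ) -
      ((prs (K (f j)) ∩ TE1_others K f j).card : ℝ)) ≤
      ∑ j : Fin s, (∑ x ∈ K (f j), (w x : ℝ)) + s * (u + 3) := by
    intro f hf
    rw [hPdef, Fintype.mem_piFinset] at hf
    have h1 := hP V hV w hw hkraft (fun j => K (f j))
      (fun j => ⟨(hK _ (hf j)).2.1, (hK _ (hf j)).1⟩)
    have h2 := TE1_lower K f
    have h3 : ∀ j : Fin s, (o.choose 2 : ℝ) - ((prs (K (f j)) ∩ TE1_others K f j).card : ℝ) =
        ((prs (K (f j)) \ TE1_others K f j).card : ℝ) := by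
      intro j
      have h4 : (prs (K (f j)) ∩ TE1_others K f j).card +
          (prs (K (f j)) \ TE1_others K f j).card = o.choose 2 := by
        rw [Finset.card_inter_add_card_sdiff, TE1_card_prs, (hK _ (hf j)).2.2]
      have h5 : ((prs (K (f j)) ∩ TE1_others K f j).card : ℝ) +
          ((prs (K (f j)) \ TE1_others K f j).card : ℝ) = (o.choose 2 : ℝ) := by
        exact_mod_cast h4
      linarith
    rw [Finset.sum_congr rfl fun j _ => h3 j]
    have h6 : ∑ j, (prs (K (f j)) \ TE1_others K f j).card ≤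
        (∑ i, ∑ x ∈ K (f i), w x) + s * (u + 3) :=
      h2.trans (le_of_lt h1)
    exact_mod_cast h6
  -- sum over all tuples
  have hsum := Finset.sum_le_sum hpt
  rw [Finset.sum_comm, Finset.sum_add_distrib, Finset.sum_const, nsmul_eq_mul, hPc] at hsum
  have hcomm : ∑ f ∈ P, ∑ j : Fin s, (∑ x ∈ K (f j), (w x : ℝ)) =
      ∑ j : Fin s, ∑ f ∈ P, (∑ x ∈ K (f j), (w x : ℝ)) := Finset.sum_comm
  rw [hcomm] at hsum
  set Wt : ℝ := ∑ i ∈ I, ∑ x ∈ K i, (w x : ℝ) with hWt
  set X : ℝ := ∑ f ∈ P, ∑ i ∈ I, ((prs (K i) ∩ Gam K f).card : ℝ) with hX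
  have hA : ∀ j : Fin s, ∑ f ∈ P, (∑ x ∈ K (f j), (w x : ℝ)) = (I.card : ℝ) ^ s * Wt / I.card := by
    intro j
    have h := TE1_swap I j (fun a _ => ∑ x ∈ K a, (w x : ℝ)) (fun _ _ _ => rfl)
    rw [← hPdef, Finset.sum_const, nsmul_eq_mul, hPc] at h
    rw [eq_div_iff (ne_of_gt hIpos), mul_comm]
    exact h.symm
  have hB : ∀ j : Fin s, (I.card : ℝ) ^ s * (o.choose 2 : ℝ) - X / I.card ≤
      ∑ f ∈ P, ((o.choose 2 : ℝ) - ((prs (K (f j)) ∩ TE1_others K f j).card : ℝ)) := by
    intro j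
    have h := TE1_swap I j (fun a f => ((prs (K a) ∩ TE1_others K f j).card : ℝ))
      (fun a b f => by simp only [TE1_others_update])
    rw [← hPdef] at h
    have h' : ∑ f ∈ P, ∑ i ∈ I, ((prs (K i) ∩ TE1_others K f j).card : ℝ) ≤ X := by
      refine Finset.sum_le_sum fun f _ => Finset.sum_le_sum fun i _ => ?_
      exact_mod_cast Finset.card_le_card
        (Finset.inter_subset_inter_left (TE1_others_subset K f j))
    rw [Finset.sum_sub_distrib, Finset.sum_const, nsmul_eq_mul, hPc]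
    have h'' : ∑ f ∈ P, ((prs (K (f j)) ∩ TE1_others K f j).card : ℝ) ≤ X / I.card := by
      rw [le_div_iff₀ hIpos, mul_comm]
      exact h.symm.le.trans h'
    linarith
  have hC : ∑ j : Fin s, ((I.card : ℝ) ^ s * (o.choose 2 : ℝ) - X / I.card) ≤
      ∑ j : Fin s, ((I.card : ℝ) ^ s * Wt / I.card) + (I.card : ℝ) ^ s * (s * (u + 3)) := by
    refine (Finset.sum_le_sum fun j _ => hB j).trans (hsum.trans ?_)
    rw [Finset.sum_congr rfl fun j _ => hA j]
  rw [Finset.sum_const, Finset.sum_const, nsmul_eq_mul, nsmul_eq_mul, Finset.card_univ,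
    Fintype.card_fin] at hC
  have hs' : (0 : ℝ) < s := by exact_mod_cast hspos
  have hD : (I.card : ℝ) ^ s * (o.choose 2 : ℝ) - X / I.card ≤
      (I.card : ℝ) ^ s * Wt / I.card + (I.card : ℝ) ^ s * (u + 3) := by
    have : (s : ℝ) * ((I.card : ℝ) ^ s * (o.choose 2 : ℝ) - X / I.card) ≤
        s * ((I.card : ℝ) ^ s * Wt / I.card + (I.card : ℝ) ^ s * (u + 3)) := by
      linarith
    exact le_of_mul_le_mul_left this hs'
  have hE : (I.card : ℝ) ^ s * (o.choose 2 : ℝ) ≤ (I.card : ℝ) ^ s *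
      (Wt / I.card + X / ((I.card : ℝ) ^ s * I.card) + (u + 3)) := by
    have : (I.card : ℝ) ^ s * (Wt / I.card + X / ((I.card : ℝ) ^ s * I.card) + (u + 3)) =
        (I.card : ℝ) ^ s * Wt / I.card + X / I.card + (I.card : ℝ) ^ s * (u + 3) := by
      field_simp
    rw [this]
    linarith
  exact le_of_mul_le_mul_left hE hT

end H761CQ
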