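import Pool.Agent.H761R3.CQ.Stmts

/-! Task E2 of the project H761-CQ (helper138). -/

namespace H761CQ

open Finset

theorem e2_two_mul_prs_le {n : ℕ} (K V : Finset (Fin n)) (Γ : Finset (Sym2 (Fin n)))
    (hKV : K ⊆ V) : 2 * (prs K ∩ Γ).card ≤ ∑ x ∈ K, (K ∩ nb Γ V x).card := by
  set T : Finset (Fin n × Fin n) :=
    (K ×ˢ K).filter (fun p => s(p.1, p.2) ∈ Γ ∧ p.1 ≠ p.2) with hT
  have hmemT : ∀ p : Fin n × Fin n, p ∈ T ↔ ((p.1 ∈ K ∧ p.2 ∈ K) ∧ s(p.1, p.2) ∈ Γ ∧
      p.1 ≠ p.2) := by
    intro p; rw [hT, Finset.mem_filter, Finset.mem_product]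
  have h1 : T.card = ∑ e ∈ prs K ∩ Γ, (T.filter (fun p => s(p.1, p.2) = e)).card := by
    apply Finset.card_eq_sum_card_fiberwise
    intro p hp
    rw [Finset.mem_coe, hmemT] at hp
    rw [Finset.mem_coe, Finset.mem_inter, prs, Finset.mem_filter, Finset.mk_mem_sym2_iff,
      Sym2.mk_isDiag_iff]
    exact ⟨⟨hp.1, hp.2.2⟩, hp.2.1⟩
  have h2 : 2 * (prs K ∩ Γ).card ≤ T.card := by
    rw [h1, mul_comm, ← smul_eq_mul, ← Finset.sum_const]
    apply Finset.sum_le_sum
    intro e he
    induction e using Sym2.ind with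
    | _ a b =>
      rw [Finset.mem_inter, prs, Finset.mem_filter, Finset.mk_mem_sym2_iff,
        Sym2.mk_isDiag_iff] at he
      obtain ⟨⟨⟨ha, hb⟩, hab⟩, hΓ⟩ := he
      have hsub : ({(a, b), (b, a)} : Finset (Fin n × Fin n)) ⊆
          T.filter (fun p => s(p.1, p.2) = s(a, b)) := by
        intro p hp
        rw [Finset.mem_insert, Finset.mem_singleton] at hp
        rw [Finset.mem_filter, hmemT]
        rcases hp with rfl | rfl
        · exact ⟨⟨⟨ha, hb⟩, hΓ, hab⟩, rfl⟩
        · refine ⟨⟨⟨hb, ha⟩, ?_, fun h => hab h.symm⟩, Sym2.eq_swap⟩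
          rw [Sym2.eq_swap]; exact hΓ
      calc 2 = ({(a, b), (b, a)} : Finset (Fin n × Fin n)).card := by
            rw [Finset.card_pair]
            intro h
            exact hab (Prod.mk.inj h).1
        _ ≤ _ := Finset.card_le_card hsub
  have h3 : T.card = ∑ x ∈ K, (T.filter (fun p => p.1 = x)).card := by
    apply Finset.card_eq_sum_card_fiberwise
    intro p hp
    rw [Finset.mem_coe, hmemT] at hp
    exact hp.1.1
  refine h2.trans (h3.le.trans (Finset.sum_le_sum ?_))
  intro x hx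
  apply Finset.card_le_card_of_injOn (fun p => p.2)
  · intro p hp
    rw [Finset.mem_coe, Finset.mem_filter, hmemT] at hp
    obtain ⟨⟨⟨h4, h5⟩, h6, h7⟩, rfl⟩ := hp
    rw [Finset.mem_coe, Finset.mem_inter, nb, Finset.mem_filter]
    exact ⟨h5, hKV h5, h6⟩
  · intro p hp p' hp' h
    rw [Finset.mem_coe, Finset.mem_filter] at hp hp'
    exact Prod.ext (hp.2.trans hp'.2.symm) h

theorem taskE2 : TaskE2 := by
  classical
  intro n L c D N' o σ b ok ι hn hσ hb hmono hNo I K V Γ hI hS hK
  set bad : Fin n → Finset ι := fun x => I.filter (fun i => (nb Γ V x).card ≤ N' ∧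
    (2 + σ) * Real.logb 2 (nb Γ V x).card + b < ((K i ∩ nb Γ V x).card : ℝ)) with hbad
  have hbadcard : ∀ x, (bad x).card * 2 ^ (3 * L) ≤ I.card := by
    intro x
    by_contra hcon
    push Not at hcon
    have hne : (bad x).Nonempty := by
      rw [Finset.nonempty_iff_ne_empty]
      intro h0
      rw [h0, Finset.card_empty, zero_mul] at hcon
      omega
    have hmem : ∀ i ∈ bad x, i ∈ I ∧ (nb Γ V x).card ≤ N' ∧
        (2 + σ) * Real.logb 2 (nb Γ V x).card + b < ((K i ∩ nb Γ V x).card : ℝ) := by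
      intro i hi
      simpa only [hbad, Finset.mem_filter] using hi
    obtain ⟨i0, hi0⟩ := hne
    apply hNo (bad x) (fun i => K i ∩ nb Γ V x) (nb Γ V x) ⟨i0, hi0⟩ (hmem i0 hi0).2.1
    · intro i hi
      exact ⟨hmono _ _ Finset.inter_subset_left (hK i (hmem i hi).1).1, Finset.inter_subset_right,
        (hmem i hi).2.2.le⟩
    · intro X
      have h1 := hS X
      have h2 : ((bad x).filter fun i => X ⊆ K i ∩ nb Γ V x).card ≤
          (I.filter fun i => X ⊆ K i).card := by
        apply Finset.card_le_card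
        intro i hi
        rw [Finset.mem_filter] at hi ⊢
        exact ⟨(hmem i hi.1).1, hi.2.trans Finset.inter_subset_left⟩
      calc ((bad x).filter fun i => X ⊆ K i ∩ nb Γ V x).card * 2 ^ (D * X.card)
          ≤ (I.filter fun i => X ⊆ K i).card * 2 ^ (D * X.card) :=
            Nat.mul_le_mul_right _ h2
        _ ≤ 2 ^ c * I.card := h1
        _ ≤ 2 ^ c * ((bad x).card * 2 ^ (3 * L)) := Nat.mul_le_mul_left _ hcon.le
        _ = 2 ^ (c + 3 * L) * (bad x).card := by rw [pow_add]; ring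
  -- pointwise estimate
  have hpt : ∀ i ∈ I, ∀ x ∈ K i, ((K i ∩ nb Γ V x).card : ℝ) / 2 ≤
      ((1 + σ / 2) * Real.logb 2 (1 + (nb Γ V x).card) + b / 2) +
      (o * (if N' < (nb Γ V x).card then (1 : ℝ) else 0) +
      (n / 2) * (if i ∈ bad x then (1 : ℝ) else 0)) := by
    intro i hi x hx
    have hlog : 0 ≤ Real.logb 2 (1 + ((nb Γ V x).card : ℝ)) := by
      apply Real.logb_nonneg (by norm_num)
      have : (0 : ℝ) ≤ ((nb Γ V x).card : ℝ) := Nat.cast_nonneg _
      linarith
    have hfirst : 0 ≤ (1 + σ / 2) * Real.logb 2 (1 + (nb Γ V x).card) + b / 2 := by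
      have : 0 ≤ (1 + σ / 2) * Real.logb 2 (1 + (nb Γ V x).card) :=
        mul_nonneg (by linarith) hlog
      linarith
    have ho : ((K i ∩ nb Γ V x).card : ℝ) ≤ o := by
      have := (Finset.card_le_card (Finset.inter_subset_left (s₁ := K i)
        (s₂ := nb Γ V x))).trans (hK i hi).2.2
      exact_mod_cast this
    have ho0 : (0 : ℝ) ≤ o := Nat.cast_nonneg _
    have hn0 : (0 : ℝ) ≤ n := Nat.cast_nonneg _
    by_cases h1 : N' < (nb Γ V x).card
    · rw [if_pos h1]
      have h3 : 0 ≤ (n / 2 : ℝ) * (if i ∈ bad x then (1 : ℝ) else 0) := by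
        split_ifs
        · linarith
        · simp
      linarith
    · rw [if_neg h1]
      push Not at h1
      by_cases h2 : i ∈ bad x
      · rw [if_pos h2]
        have h3 : ((K i ∩ nb Γ V x).card : ℝ) ≤ n := by
          have := Finset.card_le_univ (K i ∩ nb Γ V x)
          rw [Fintype.card_fin] at this
          exact_mod_cast this
        linarith
      · rw [if_neg h2]
        have h3 : ((K i ∩ nb Γ V x).card : ℝ) ≤
            (2 + σ) * Real.logb 2 (nb Γ V x).card + b := by
          by_contra hcon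
          push Not at hcon
          apply h2
          rw [hbad]
          simp only [Finset.mem_filter]
          exact ⟨hi, h1, hcon⟩
        have h4 : Real.logb 2 ((nb Γ V x).card : ℝ) ≤
            Real.logb 2 (1 + ((nb Γ V x).card : ℝ)) := by
          rcases Nat.eq_zero_or_pos (nb Γ V x).card with h0 | h0
          · rw [h0]; simp
          · apply Real.logb_le_logb_of_le (by norm_num)
            · exact_mod_cast h0
            · linarith
        have h5 : (2 + σ) * Real.logb 2 ((nb Γ V x).card : ℝ) ≤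
            (2 + σ) * Real.logb 2 (1 + ((nb Γ V x).card : ℝ)) :=
          mul_le_mul_of_nonneg_left h4 (by linarith)
        linarith
  have hstep : ∀ i ∈ I, ((prs (K i) ∩ Γ).card : ℝ) ≤
      ∑ x ∈ K i, (((1 + σ / 2) * Real.logb 2 (1 + (nb Γ V x).card) + b / 2) +
      (o * (if N' < (nb Γ V x).card then (1 : ℝ) else 0) +
      (n / 2) * (if i ∈ bad x then (1 : ℝ) else 0))) := by
    intro i hi
    have h1 := e2_two_mul_prs_le (K i) V Γ (hK i hi).2.1
    have h2 : (2 : ℝ) * ((prs (K i) ∩ Γ).card : ℝ) ≤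
        ∑ x ∈ K i, ((K i ∩ nb Γ V x).card : ℝ) := by exact_mod_cast h1
    have h3 : ((prs (K i) ∩ Γ).card : ℝ) ≤ ∑ x ∈ K i, ((K i ∩ nb Γ V x).card : ℝ) / 2 := by
      rw [← Finset.sum_div]
      linarith
    exact h3.trans (Finset.sum_le_sum (fun x hx => hpt i hi x hx))
  refine (Finset.sum_le_sum hstep).trans ?_
  simp only [Finset.sum_add_distrib, ← Finset.mul_sum]
  have hbadsum : (n / 2 : ℝ) * ∑ i ∈ I, ∑ x ∈ K i, (if i ∈ bad x then (1 : ℝ) else 0) ≤
      I.card := by
    have h1 : ∑ i ∈ I, ∑ x ∈ K i, (if i ∈ bad x then (1 : ℝ) else 0) ≤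
        ∑ x : Fin n, ∑ i ∈ I, (if i ∈ bad x then (1 : ℝ) else 0) := by
      rw [Finset.sum_comm' (s := (Finset.univ : Finset (Fin n))) (t := fun _ => I)
        (s' := fun _ => (Finset.univ : Finset (Fin n))) (t' := I) (by simp)]
      apply Finset.sum_le_sum
      intro i _
      apply Finset.sum_le_sum_of_subset_of_nonneg (Finset.subset_univ _)
      intro x _ _
      split_ifs <;> norm_num
    have h2 : ∀ x : Fin n, ∑ i ∈ I, (if i ∈ bad x then (1 : ℝ) else 0) = ((bad x).card : ℝ) := by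
      intro x
      rw [← Finset.sum_filter, Finset.sum_const, nsmul_eq_mul, mul_one]
      congr 2
      ext i
      simp only [Finset.mem_filter, hbad]
      tauto
    have h3 : ∑ x : Fin n, ((bad x).card : ℝ) ≤ n * (I.card / 2 ^ (3 * L)) := by
      have : ∀ x ∈ (Finset.univ : Finset (Fin n)), ((bad x).card : ℝ) ≤
          I.card / 2 ^ (3 * L) := by
        intro x _
        rw [le_div_iff₀ (by positivity)]
        exact_mod_cast hbadcard x
      refine (Finset.sum_le_sum this).trans ?_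
      rw [Finset.sum_const, Finset.card_univ, Fintype.card_fin, nsmul_eq_mul]
    have hn' : (n : ℝ) ≤ 2 ^ L := by exact_mod_cast hn
    have hn0 : (0 : ℝ) ≤ n := Nat.cast_nonneg _
    have hI0 : (0 : ℝ) ≤ I.card := Nat.cast_nonneg _
    have h2L : (1 : ℝ) ≤ 2 ^ L := one_le_pow₀ (by norm_num)
    calc (n / 2 : ℝ) * ∑ i ∈ I, ∑ x ∈ K i, (if i ∈ bad x then (1 : ℝ) else 0)
        ≤ (n / 2 : ℝ) * (n * (I.card / 2 ^ (3 * L))) := by
          apply mul_le_mul_of_nonneg_left _ (by linarith)
          refine h1.trans ?_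
          rw [Finset.sum_congr rfl (fun x _ => h2 x)]
          exact h3
      _ = (n * n / 2 ^ (3 * L) / 2) * I.card := by ring
      _ ≤ 1 * I.card := by
          apply mul_le_mul_of_nonneg_right _ hI0
          rw [div_div, div_le_one (by positivity)]
          have h5 : (n : ℝ) * n ≤ 2 ^ L * 2 ^ L := mul_le_mul hn' hn' hn0 (by positivity)
          have h6 : (2 : ℝ) ^ L * 2 ^ L ≤ 2 ^ (3 * L) := by
            rw [← pow_add]
            exact pow_le_pow_right₀ (by norm_num) (by omega)
          have h7 : (0 : ℝ) < 2 ^ (3 * L) := by positivity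
          linarith
      _ = I.card := one_mul _
  have hbig : ∀ i ∈ I, ∑ x ∈ K i, (if N' < (nb Γ V x).card then (1 : ℝ) else 0) =
      (((K i).filter fun x => N' < (nb Γ V x).card).card : ℝ) := by
    intro i _
    rw [← Finset.sum_filter, Finset.sum_const, nsmul_eq_mul, mul_one]
  rw [Finset.sum_congr rfl hbig]
  linarith

end H761CQ
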