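import Mathlib
import Pool.Agent.H761R3.CQ.Stmts

/-!
Task E3 of the project H761-CQ: average size of neighbourhoods.
-/

namespace H761CQ

open Finset

namespace TE3

lemma mem_prs {n : ℕ} {K : Finset (Fin n)} {x y : Fin n} :
    s(x, y) ∈ prs K ↔ (x ∈ K ∧ y ∈ K) ∧ x ≠ y := by
  simp [prs, Finset.mk_mem_sym2_iff]

open Classical in
lemma nb_card_le {n s o : ℕ} {ι : Type} (K : ι → Finset (Fin n)) (V : Finset (Fin n)) (x : Fin n)
    (f : Fin s → ι) (ho : ∀ j, (K (f j)).card ≤ o) :
    (nb (Gam K f) V x).card ≤ ∑ j : Fin s, o * (if x ∈ K (f j) then 1 else 0) := by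
  have hsub : nb (Gam K f) V x ⊆
      univ.biUnion (fun j : Fin s => if x ∈ K (f j) then K (f j) else ∅) := by
    intro y hy
    simp only [nb, mem_filter, Gam, mem_biUnion, mem_univ, true_and] at hy
    obtain ⟨-, j, hj⟩ := hy
    rw [mem_prs] at hj
    simp only [mem_biUnion, mem_univ, true_and]
    exact ⟨j, by rw [if_pos hj.1.1]; exact hj.1.2⟩
  refine (card_le_card hsub).trans (card_biUnion_le.trans (sum_le_sum fun j _ => ?_))
  split_ifs with h
  · simpa using ho j
  · simp

open Classical in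
lemma sum_ind {n s : ℕ} {ι : Type} (I : Finset ι) (hI : I.Nonempty) (K : ι → Finset (Fin n))
    (x : Fin n) (j : Fin s) :
    ∑ f ∈ Fintype.piFinset (fun _ : Fin s => I), (if x ∈ K (f j) then (1 : ℝ) else 0) =
      (I.card : ℝ) ^ s * ((mult I K x : ℝ) / I.card) := by
  have hc : (I.card : ℝ) ≠ 0 := by exact_mod_cast hI.card_pos.ne'
  have h1 : ∀ f : Fin s → ι, (if x ∈ K (f j) then (1 : ℝ) else 0) =
      ∏ i : Fin s, (if i = j then (if x ∈ K (f i) then (1 : ℝ) else 0) else 1) := by
    intro f
    rw [Finset.prod_ite_eq' univ j (fun i => if x ∈ K (f i) then (1 : ℝ) else 0)]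
    simp
  rw [Finset.sum_congr rfl (fun f _ => h1 f)]
  have h3 := Finset.prod_univ_sum (fun _ : Fin s => I)
    (fun (i : Fin s) (y : ι) => if i = j then (if x ∈ K y then (1 : ℝ) else 0) else 1)
  rw [← h3]
  have h2 : ∀ i : Fin s, ∑ y ∈ I, (if i = j then (if x ∈ K y then (1 : ℝ) else 0) else 1) =
      (I.card : ℝ) * (if i = j then ((mult I K x : ℝ) / I.card) else 1) := by
    intro i
    by_cases h : i = j
    · simp only [h, if_true]
      rw [mul_div_cancel₀ _ hc, Finset.sum_boole, mult]
    · simp [h]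
  rw [Finset.prod_congr rfl (fun i _ => h2 i), Finset.prod_mul_distrib, Finset.prod_const,
    Finset.card_univ, Fintype.card_fin,
    Finset.prod_ite_eq' univ j (fun _ => (mult I K x : ℝ) / I.card)]
  simp

open Classical in
lemma total {n s o : ℕ} {ι : Type} (I : Finset ι) (hI : I.Nonempty) (K : ι → Finset (Fin n))
    (V : Finset (Fin n)) (x : Fin n) (ho : ∀ i ∈ I, (K i).card ≤ o) :
    ∑ f ∈ Fintype.piFinset (fun _ : Fin s => I), ((nb (Gam K f) V x).card : ℝ) ≤
      (I.card : ℝ) ^ s * (o * s * ((mult I K x : ℝ) / I.card)) := by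
  calc ∑ f ∈ Fintype.piFinset (fun _ : Fin s => I), ((nb (Gam K f) V x).card : ℝ)
      ≤ ∑ f ∈ Fintype.piFinset (fun _ : Fin s => I),
          ∑ j : Fin s, (o : ℝ) * (if x ∈ K (f j) then (1 : ℝ) else 0) := by
        apply Finset.sum_le_sum
        intro f hf
        have h := nb_card_le (o := o) K V x f (fun j => ho _ (Fintype.mem_piFinset.mp hf j))
        have h' : ((nb (Gam K f) V x).card : ℝ) ≤
            ((∑ j : Fin s, o * (if x ∈ K (f j) then 1 else 0) : ℕ) : ℝ) := by exact_mod_cast h
        refine h'.trans (le_of_eq ?_)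
        push_cast
        rfl
    _ = ∑ j : Fin s, (o : ℝ) * ∑ f ∈ Fintype.piFinset (fun _ : Fin s => I),
          (if x ∈ K (f j) then (1 : ℝ) else 0) := by
        rw [Finset.sum_comm]
        exact Finset.sum_congr rfl fun j _ => (Finset.mul_sum _ _ _).symm
    _ = ∑ j : Fin s, (o : ℝ) * ((I.card : ℝ) ^ s * ((mult I K x : ℝ) / I.card)) := by
        exact Finset.sum_congr rfl fun j _ => by rw [sum_ind I hI K x j]
    _ = (I.card : ℝ) ^ s * (o * s * ((mult I K x : ℝ) / I.card)) := by
        rw [Finset.sum_const, Finset.card_univ, Fintype.card_fin, nsmul_eq_mul]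
        ring

end TE3

open Classical in
theorem taskE3 : TaskE3 := by
  intro n s o ι I K V x hI ho
  have htot := TE3.total (s := s) I hI K V x ho
  have hcard : ((Fintype.piFinset (fun _ : Fin s => I)).card : ℝ) = (I.card : ℝ) ^ s := by
    rw [Fintype.card_piFinset]
    simp
  set q : ℝ := o * s * ((mult I K x : ℝ) / I.card) with hq
  have hq0 : 0 ≤ q := by positivity
  constructor
  · have hm : (0 : ℝ) < 1 + q := by linarith
    have hl2 : 0 < Real.log 2 := Real.log_pos (by norm_num)
    have key : ∀ f : Fin s → ι, Real.logb 2 (1 + (nb (Gam K f) V x).card) ≤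
        Real.logb 2 (1 + q) + (((1 + (nb (Gam K f) V x).card : ℝ)) / (1 + q) - 1) / Real.log 2 := by
      intro f
      have hy : (0 : ℝ) < 1 + (nb (Gam K f) V x).card := by positivity
      have h1 := Real.log_le_sub_one_of_pos (div_pos hy hm)
      rw [Real.log_div hy.ne' hm.ne'] at h1
      unfold Real.logb
      rw [← add_div]
      apply div_le_div_of_nonneg_right _ hl2.le
      linarith
    refine (Finset.sum_le_sum fun f _ => key f).trans ?_
    rw [Finset.sum_add_distrib, Finset.sum_const, nsmul_eq_mul, hcard]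
    have h2 : ∑ f ∈ Fintype.piFinset (fun _ : Fin s => I),
        ((1 + ((nb (Gam K f) V x).card : ℝ)) / (1 + q) - 1) / Real.log 2 ≤ 0 := by
      rw [← Finset.sum_div, Finset.sum_sub_distrib, ← Finset.sum_div, Finset.sum_add_distrib]
      simp only [Finset.sum_const, nsmul_eq_mul, mul_one, hcard]
      apply div_nonpos_of_nonpos_of_nonneg _ hl2.le
      rw [sub_nonpos, div_le_iff₀ hm]
      nlinarith [htot]
    linarith
  · intro N'
    have h1 : (((Fintype.piFinset (fun _ : Fin s => I)).filter
        fun f => N' < (nb (Gam K f) V x).card).card : ℝ) * (N' + 1) =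
        ∑ f ∈ (Fintype.piFinset (fun _ : Fin s => I)).filter
          (fun f => N' < (nb (Gam K f) V x).card), ((N' : ℝ) + 1) := by
      rw [Finset.sum_const, nsmul_eq_mul]
    rw [h1]
    refine le_trans ?_ htot
    refine (Finset.sum_le_sum (g := fun f => ((nb (Gam K f) V x).card : ℝ)) ?_).trans ?_
    · intro f hf
      have := (Finset.mem_filter.mp hf).2
      exact_mod_cast this
    · exact Finset.sum_le_sum_of_subset_of_nonneg (Finset.filter_subset _ _)
        (fun f _ _ => Nat.cast_nonneg _)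

end H761CQ
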