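import Pool.Agent.H761R3.CQ.Stmts

/-!
Task E4: few heavy vertices in a spread family.
-/

namespace H761CQ

open Finset

theorem taskE4 : TaskE4 := by
  classical
  intro n o j c D' ι I K hI hS ho hj
  have hm : 0 < I.card := hI.card_pos
  set V : Finset (Fin n) := Finset.univ.filter fun x => I.card < mult I K x * 2 ^ D' with hV
  -- total multiplicity
  have hsum : ∑ x, mult I K x = ∑ i ∈ I, (K i).card := by
    have h1 : ∀ x : Fin n, mult I K x = ∑ i ∈ I, if x ∈ K i then 1 else 0 := by
      intro x
      unfold mult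
      rw [Finset.card_filter]
    simp_rw [h1]
    rw [Finset.sum_comm]
    apply Finset.sum_congr rfl
    intro i _
    rw [← Finset.card_filter]
    congr 1
    ext x
    simp
  have hVc : V.card ≤ o * 2 ^ D' := by
    have h1 : V.card * I.card ≤ (o * 2 ^ D') * I.card := by
      calc V.card * I.card = ∑ x ∈ V, I.card := by rw [Finset.sum_const, smul_eq_mul]
        _ ≤ ∑ x ∈ V, mult I K x * 2 ^ D' := by
          apply Finset.sum_le_sum
          intro x hx
          rw [hV, Finset.mem_filter] at hx
          exact hx.2.le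
        _ ≤ ∑ x, mult I K x * 2 ^ D' :=
          Finset.sum_le_sum_of_subset_of_nonneg (Finset.subset_univ _) (fun _ _ _ => Nat.zero_le _)
        _ = (∑ i ∈ I, (K i).card) * 2 ^ D' := by rw [← Finset.sum_mul, hsum]
        _ ≤ (∑ i ∈ I, o) * 2 ^ D' := Nat.mul_le_mul_right _ (Finset.sum_le_sum ho)
        _ = (o * 2 ^ D') * I.card := by rw [Finset.sum_const, smul_eq_mul]; ring
    exact Nat.le_of_mul_le_mul_right h1 hm
  have hfil : ∀ i, ((K i).filter fun x => I.card < mult I K x * 2 ^ D') = K i ∩ V := by
    intro i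
    ext x
    simp [hV]
  set B : Finset ι := I.filter fun i => j ≤ (K i ∩ V).card with hB
  have hBsub : B ⊆ (Finset.powersetCard j V).biUnion fun X => I.filter fun i => X ⊆ K i := by
    intro i hi
    rw [hB, Finset.mem_filter] at hi
    obtain ⟨X, hX, hXc⟩ := Finset.exists_subset_card_eq hi.2
    rw [Finset.mem_biUnion]
    refine ⟨X, ?_, ?_⟩
    · rw [Finset.mem_powersetCard]
      exact ⟨hX.trans Finset.inter_subset_right, hXc⟩
    · rw [Finset.mem_filter]
      exact ⟨hi.1, hX.trans Finset.inter_subset_left⟩
  have hBc : B.card * 2 ^ (2 * D' * j) ≤ (o * 2 ^ D') ^ j * (2 ^ c * I.card) := by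
    calc B.card * 2 ^ (2 * D' * j)
        ≤ ((Finset.powersetCard j V).biUnion fun X => I.filter fun i => X ⊆ K i).card *
            2 ^ (2 * D' * j) := Nat.mul_le_mul_right _ (Finset.card_le_card hBsub)
      _ ≤ (∑ X ∈ Finset.powersetCard j V, (I.filter fun i => X ⊆ K i).card) *
            2 ^ (2 * D' * j) := Nat.mul_le_mul_right _ Finset.card_biUnion_le
      _ = ∑ X ∈ Finset.powersetCard j V, (I.filter fun i => X ⊆ K i).card *
            2 ^ (2 * D' * j) := by rw [Finset.sum_mul]
      _ ≤ ∑ X ∈ Finset.powersetCard j V, 2 ^ c * I.card := by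
          apply Finset.sum_le_sum
          intro X hX
          rw [Finset.mem_powersetCard] at hX
          have := hS X
          rw [hX.2] at this
          exact this
      _ = V.card.choose j * (2 ^ c * I.card) := by
          rw [Finset.sum_const, smul_eq_mul, Finset.card_powersetCard]
      _ ≤ V.card ^ j * (2 ^ c * I.card) := Nat.mul_le_mul_right _ (Nat.choose_le_pow _ _)
      _ ≤ (o * 2 ^ D') ^ j * (2 ^ c * I.card) :=
          Nat.mul_le_mul_right _ (Nat.pow_le_pow_left hVc _)
  have hoB : o * B.card ≤ I.card := by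
    have hpos : 0 < 2 ^ (2 * D' * j) := by positivity
    apply Nat.le_of_mul_le_mul_right _ hpos
    calc o * B.card * 2 ^ (2 * D' * j) = o * (B.card * 2 ^ (2 * D' * j)) := by ring
      _ ≤ o * ((o * 2 ^ D') ^ j * (2 ^ c * I.card)) := Nat.mul_le_mul_left _ hBc
      _ = (o ^ (j + 1) * 2 ^ c) * (2 ^ (D' * j) * I.card) := by
          rw [mul_pow, ← pow_mul]; ring
      _ ≤ 2 ^ (D' * j) * (2 ^ (D' * j) * I.card) := Nat.mul_le_mul_right _ hj
      _ = I.card * 2 ^ (2 * D' * j) := by
          have : 2 ^ (2 * D' * j) = 2 ^ (D' * j) * 2 ^ (D' * j) := by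
            rw [← pow_add]; congr 1; ring
          rw [this]; ring
  calc ∑ i ∈ I, ((K i).filter fun x => I.card < mult I K x * 2 ^ D').card
      = ∑ i ∈ I, (K i ∩ V).card := by
        apply Finset.sum_congr rfl
        intro i _
        rw [hfil]
    _ ≤ ∑ i ∈ I, (j + if j ≤ (K i ∩ V).card then o else 0) := by
        apply Finset.sum_le_sum
        intro i hi
        by_cases h : j ≤ (K i ∩ V).card
        · rw [if_pos h]
          have := (Finset.card_le_card (Finset.inter_subset_left : K i ∩ V ⊆ K i)).trans (ho i hi)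
          omega
        · rw [if_neg h]
          omega
    _ = I.card * j + o * B.card := by
        rw [Finset.sum_add_distrib, Finset.sum_const, smul_eq_mul, ← Finset.sum_filter,
          Finset.sum_const, smul_eq_mul, mul_comm o B.card]
    _ ≤ I.card * (j + 1) := by
        rw [mul_add, mul_one]
        exact Nat.add_le_add_left hoB _

end H761CQ
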