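import Pool.Agent.H761R3.CQ.Stmts

set_option autoImplicit false

namespace H761CQ

theorem TE5_point (q R m : ℝ) (hq : 0 ≤ q) (hR : 1 ≤ R) (hm : 0 < m) :
    q * Real.log (1 + R * q) + q * Real.log (1 / q) ≤ q * Real.log m + (1 + R * q) / m - q := by
  rcases hq.eq_or_lt with h | h
  · rw [← h]
    have : 0 < 1 / m := by positivity
    simp only [zero_mul, mul_zero, add_zero, zero_add, sub_zero]
    exact this.le
  · have hy : 0 < 1 + R * q := by positivity
    have h1 : Real.log (1 + R * q) + Real.log (1 / q) = Real.log ((1 + R * q) / q / m) + Real.log m := by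
      rw [← Real.log_mul (by positivity) (by positivity),
        ← Real.log_mul (by positivity) (by positivity)]
      congr 1
      field_simp
    have h2 : Real.log ((1 + R * q) / q / m) ≤ (1 + R * q) / q / m - 1 :=
      Real.log_le_sub_one_of_pos (by positivity)
    have h3 : q * ((1 + R * q) / q / m - 1) = (1 + R * q) / m - q := by
      field_simp
    calc q * Real.log (1 + R * q) + q * Real.log (1 / q)
        = q * (Real.log (1 + R * q) + Real.log (1 / q)) := by ring
      _ = q * (Real.log ((1 + R * q) / q / m) + Real.log m) := by rw [h1]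
      _ ≤ q * (((1 + R * q) / q / m - 1) + Real.log m) := by
          apply mul_le_mul_of_nonneg_left _ h.le
          linarith
      _ = q * Real.log m + q * ((1 + R * q) / q / m - 1) := by ring
      _ = q * Real.log m + (1 + R * q) / m - q := by rw [h3]; ring

theorem taskE5 : TaskE5 := by
  intro n V p o R hp ho hsum hR
  set m : ℝ := (V.card : ℝ) / o + R with hm
  have hm0 : 0 < m := by
    have : 0 ≤ (V.card : ℝ) / o := by positivity
    linarith
  have h1 : ∑ x ∈ V, (p x * Real.log (1 + R * p x) + p x * Real.log (1 / p x)) ≤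
      o * Real.log m := by
    have h2 : ∑ x ∈ V, (p x * Real.log (1 + R * p x) + p x * Real.log (1 / p x)) ≤
        ∑ x ∈ V, (p x * Real.log m + (1 + R * p x) / m - p x) :=
      Finset.sum_le_sum fun x _ => TE5_point (p x) R m (hp x) hR hm0
    refine h2.trans (le_of_eq ?_)
    rw [Finset.sum_sub_distrib, Finset.sum_add_distrib, ← Finset.sum_mul, ← Finset.sum_div,
      Finset.sum_add_distrib, ← Finset.mul_sum, hsum]
    have h3 : (∑ _x ∈ V, (1 : ℝ) + R * o) / m = o := by
      rw [div_eq_iff hm0.ne', hm]
      simp only [Finset.sum_const, nsmul_eq_mul, mul_one]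
      field_simp
    rw [h3]
    ring
  have hl2 : 0 < Real.log 2 := Real.log_pos (by norm_num)
  have h4 : ∑ x ∈ V, p x * Real.logb 2 (1 + R * p x) + ∑ x ∈ V, p x * Real.logb 2 (1 / p x) =
      (∑ x ∈ V, (p x * Real.log (1 + R * p x) + p x * Real.log (1 / p x))) / Real.log 2 := by
    rw [← Finset.sum_add_distrib, Finset.sum_div]
    apply Finset.sum_congr rfl
    intro x _
    unfold Real.logb
    ring
  rw [h4]
  unfold Real.logb
  rw [← mul_div_assoc]
  exact div_le_div_of_nonneg_right h1 hl2.le

end H761CQ
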