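import Pool.Agent.H761R3.CQ.Stmts

set_option autoImplicit false

namespace H761CQ

open Finset

theorem taskE6 : TaskE6 := by
  classical
  intro n W V p o hp ho hsum hW hp1
  have ho0 : (0 : ℝ) < o := by linarith
  let w : Fin n → ℕ := fun x => if p x = 0 then W else min W ⌈Real.logb 2 (2 * o / p x)⌉₊
  have hVne : V.Nonempty := by
    by_contra h
    rw [not_nonempty_iff_eq_empty] at h
    rw [h, sum_empty] at hsum
    linarith
  have hn : 0 < n := by
    obtain ⟨x, -⟩ := hVne
    exact Fin.pos x
  have hnr : (0 : ℝ) < n := by exact_mod_cast hn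
  have hWr : (1 / 2 : ℝ) ^ W ≤ 1 / (2 * n) := by
    rw [one_div_pow]
    apply one_div_le_one_div_of_le (by positivity)
    exact_mod_cast hW
  have hkraft : ∀ x, (1 / 2 : ℝ) ^ w x ≤ p x / (2 * o) + 1 / (2 * n) := by
    intro x
    have h0 : 0 ≤ p x / (2 * o) := div_nonneg (hp x) (by linarith)
    have h1 : (0 : ℝ) ≤ 1 / (2 * n) := by positivity
    by_cases hx : p x = 0
    · have : w x = W := by simp only [w]; rw [if_pos hx]
      rw [this]; linarith
    · have hpx : 0 < p x := lt_of_le_of_ne (hp x) (Ne.symm hx)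
      have hwx : w x = min W ⌈Real.logb 2 (2 * o / p x)⌉₊ := by simp only [w]; rw [if_neg hx]
      rcases le_total W ⌈Real.logb 2 (2 * o / p x)⌉₊ with h | h
      · rw [hwx, min_eq_left h]; linarith
      · rw [hwx, min_eq_right h]
        have h2 : Real.logb 2 (2 * o / p x) ≤ (⌈Real.logb 2 (2 * o / p x)⌉₊ : ℝ) := Nat.le_ceil _
        have hpos : 0 < 2 * o / p x := by positivity
        have h3 : 2 * o / p x ≤ (2 : ℝ) ^ ⌈Real.logb 2 (2 * o / p x)⌉₊ := by
          have h4 := (Real.logb_le_iff_le_rpow (b := 2) (by norm_num) hpos).1 h2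
          rwa [Real.rpow_natCast] at h4
        have h5 : (1 / 2 : ℝ) ^ ⌈Real.logb 2 (2 * o / p x)⌉₊ ≤ p x / (2 * o) := by
          rw [one_div_pow]
          have h6 : p x / (2 * o) = 1 / (2 * o / p x) := by rw [one_div_div]
          rw [h6]
          exact one_div_le_one_div_of_le hpos h3
        linarith
  refine ⟨w, ?_, ?_, ?_⟩
  · intro x
    simp only [w]
    split_ifs
    · exact le_rfl
    · exact min_le_left _ _
  · calc ∑ x ∈ V, (1 / 2 : ℝ) ^ w x ≤ ∑ x ∈ V, (p x / (2 * o) + 1 / (2 * n)) :=
          sum_le_sum fun x _ => hkraft x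
      _ = o / (2 * o) + V.card * (1 / (2 * n)) := by
          rw [sum_add_distrib, ← sum_div, hsum, sum_const, nsmul_eq_mul]
      _ ≤ 1 / 2 + n * (1 / (2 * n)) := by
          have h1 : (V.card : ℝ) ≤ n := by
            have := card_le_univ V
            rw [Fintype.card_fin] at this
            exact_mod_cast this
          have h2 : o / (2 * o) = 1 / 2 := by field_simp
          have h3 : (0 : ℝ) ≤ 1 / (2 * n) := by positivity
          rw [h2]
          have := mul_le_mul_of_nonneg_right h1 h3
          linarith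
      _ = 1 := by field_simp; norm_num
  · have hterm : ∀ x ∈ V, p x * w x ≤
        p x * Real.logb 2 (1 / p x) + p x * (Real.logb 2 (2 * o) + 1) := by
      intro x _
      by_cases hx : p x = 0
      · rw [hx]; simp
      · have hpx : 0 < p x := lt_of_le_of_ne (hp x) (Ne.symm hx)
        have hwx : w x ≤ ⌈Real.logb 2 (2 * o / p x)⌉₊ := by
          simp only [w]; rw [if_neg hx]; exact min_le_right _ _
        have hpos : 0 < 2 * o / p x := by positivity
        have h1 : 1 ≤ 2 * o / p x := by
          rw [le_div_iff₀ hpx]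
          have := hp1 x
          linarith
        have h2 : 0 ≤ Real.logb 2 (2 * o / p x) := Real.logb_nonneg (by norm_num) h1
        have h3 : (⌈Real.logb 2 (2 * o / p x)⌉₊ : ℝ) < Real.logb 2 (2 * o / p x) + 1 :=
          Nat.ceil_lt_add_one h2
        have h4 : Real.logb 2 (2 * o / p x) = Real.logb 2 (2 * o) + Real.logb 2 (1 / p x) := by
          rw [← Real.logb_mul (by positivity) (by positivity)]
          congr 1
          ring
        have h5 : (w x : ℝ) ≤ (⌈Real.logb 2 (2 * o / p x)⌉₊ : ℝ) := by exact_mod_cast hwx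
        have h6 : (w x : ℝ) ≤ Real.logb 2 (1 / p x) + (Real.logb 2 (2 * o) + 1) := by linarith
        calc p x * w x ≤ p x * (Real.logb 2 (1 / p x) + (Real.logb 2 (2 * o) + 1)) :=
              mul_le_mul_of_nonneg_left h6 hpx.le
          _ = _ := by ring
    calc ∑ x ∈ V, p x * w x ≤
          ∑ x ∈ V, (p x * Real.logb 2 (1 / p x) + p x * (Real.logb 2 (2 * o) + 1)) :=
          sum_le_sum hterm
      _ = _ := by rw [sum_add_distrib, ← sum_mul, hsum]

end H761CQ
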