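import Pool.Agent.H761R3.CQ.Stmts

/-! Task K (helper82) -/

namespace H761CQ

open Finset

theorem taskK : TaskK := by
  classical
  intro n D 𝒜 _
  obtain ⟨F, -, hF⟩ := Finset.exists_max_image (univ : Finset (Finset (Fin n)))
    (fun F => (𝒜.filter fun S => F ⊆ S).card * 2 ^ (D * F.card)) ⟨∅, mem_univ _⟩
  refine ⟨F, ?_, ?_⟩
  · have h := hF ∅ (mem_univ _)
    simp only [empty_subset, filter_true, card_empty, mul_zero, pow_zero, mul_one] at h
    rwa [mul_comm] at h
  · intro X hX
    have h := hF (F ∪ X) (mem_univ _)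
    rw [card_union_of_disjoint hX, mul_add, pow_add, mul_comm (2 ^ (D * F.card)), ← mul_assoc] at h
    have h2 := Nat.le_of_mul_le_mul_right h (by positivity)
    convert h2 using 3

end H761CQ
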