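import Mathlib
import Pool.Agent.H761R3.CQ.Stmts

/-!
Task R of the project H761-CQ: many disjoint tuples in a spread family.
-/

namespace H761CQ

open Finset

open Classical in
theorem taskR : TaskR := by
  intro n D s o ℬ hcard hx hso
  have key : ∀ m : ℕ, m ≤ s → ℬ.card ^ m ≤
      2 ^ m * (univ.filter fun K : Fin m → Finset (Fin n) =>
        (∀ i, K i ∈ ℬ) ∧ ∀ i j, i ≠ j → Disjoint (K i) (K j)).card := by
    intro m
    induction m with
    | zero =>
      intro _
      simp
    | succ m ih =>
      intro hm
      have ih' := ih (by omega)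
      have hext : ∀ f ∈ (univ.filter fun K : Fin m → Finset (Fin n) =>
          (∀ i, K i ∈ ℬ) ∧ ∀ i j, i ≠ j → Disjoint (K i) (K j)),
          ℬ.card ≤ 2 * (ℬ.filter fun K => ∀ i, Disjoint K (f i)).card := by
        intro f hf
        have hf' := (mem_filter.mp hf).2
        have hT : (univ.biUnion f).card ≤ m * o := by
          refine (card_biUnion_le).trans ?_
          rw [Finset.sum_congr rfl fun i _ => hcard (f i) (hf'.1 i)]
          simp
        have hbad : (ℬ.filter fun K => ¬ ∀ i, Disjoint K (f i)).card * 2 ^ D ≤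
            (m * o) * ℬ.card := by
          have hsub : (ℬ.filter fun K => ¬ ∀ i, Disjoint K (f i)) ⊆
              (univ.biUnion f).biUnion (fun x => ℬ.filter fun K => x ∈ K) := by
            intro K hK
            obtain ⟨hK1, hK2⟩ := mem_filter.mp hK
            push Not at hK2
            obtain ⟨i, hi⟩ := hK2
            obtain ⟨x, hx1, hx2⟩ := Finset.not_disjoint_iff.mp hi
            exact mem_biUnion.mpr ⟨x, mem_biUnion.mpr ⟨i, mem_univ _, hx2⟩,
              mem_filter.mpr ⟨hK1, hx1⟩⟩
          calc (ℬ.filter fun K => ¬ ∀ i, Disjoint K (f i)).card * 2 ^ D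
              ≤ (∑ x ∈ univ.biUnion f, (ℬ.filter fun K => x ∈ K).card) * 2 ^ D :=
                Nat.mul_le_mul_right _ ((card_le_card hsub).trans card_biUnion_le)
            _ = ∑ x ∈ univ.biUnion f, (ℬ.filter fun K => x ∈ K).card * 2 ^ D := by
                rw [Finset.sum_mul]
            _ ≤ ∑ _x ∈ univ.biUnion f, ℬ.card := sum_le_sum fun x _ => hx x
            _ = (univ.biUnion f).card * ℬ.card := by rw [sum_const, smul_eq_mul]
            _ ≤ (m * o) * ℬ.card := Nat.mul_le_mul_right _ hT
        have hsplit := Finset.card_filter_add_card_filter_not (s := ℬ)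
          (fun K : Finset (Fin n) => ∀ i, Disjoint K (f i))
        have h2 : 2 * (ℬ.filter fun K => ¬ ∀ i, Disjoint K (f i)).card ≤ ℬ.card := by
          have h3 : (2 * (ℬ.filter fun K => ¬ ∀ i, Disjoint K (f i)).card) * 2 ^ D ≤
              ℬ.card * 2 ^ D := by
            calc (2 * (ℬ.filter fun K => ¬ ∀ i, Disjoint K (f i)).card) * 2 ^ D
                = 2 * ((ℬ.filter fun K => ¬ ∀ i, Disjoint K (f i)).card * 2 ^ D) := by ring
              _ ≤ 2 * ((m * o) * ℬ.card) := Nat.mul_le_mul_left _ hbad
              _ = (2 * m * o) * ℬ.card := by ring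
              _ ≤ (2 * s * o) * ℬ.card := by
                  refine Nat.mul_le_mul_right _ (Nat.mul_le_mul_right _
                    (Nat.mul_le_mul_left _ (by omega)))
              _ ≤ 2 ^ D * ℬ.card := Nat.mul_le_mul_right _ hso
              _ = ℬ.card * 2 ^ D := by ring
          exact Nat.le_of_mul_le_mul_right h3 (by positivity)
        omega
      have hinj : ∑ f ∈ (univ.filter fun K : Fin m → Finset (Fin n) =>
          (∀ i, K i ∈ ℬ) ∧ ∀ i j, i ≠ j → Disjoint (K i) (K j)),
          (ℬ.filter fun K => ∀ i, Disjoint K (f i)).card ≤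
          (univ.filter fun K : Fin (m + 1) → Finset (Fin n) =>
            (∀ i, K i ∈ ℬ) ∧ ∀ i j, i ≠ j → Disjoint (K i) (K j)).card := by
        rw [← card_sigma]
        refine card_le_card_of_injOn
          (fun p => (Fin.cons p.2 p.1 : Fin (m + 1) → Finset (Fin n))) ?_ ?_
        · rintro ⟨f, K⟩ hp
          obtain ⟨h1, h2⟩ := mem_sigma.mp (Finset.mem_coe.mp hp)
          obtain ⟨h3, h4⟩ := (mem_filter.mp h1).2
          obtain ⟨h5, h6⟩ := mem_filter.mp h2
          simp only [] at h3 h4 h5 h6
          refine Finset.mem_coe.mpr (mem_filter.mpr ⟨mem_univ _, ?_, ?_⟩)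
          · intro i
            refine Fin.cases ?_ (fun i => ?_) i
            · simpa using h5
            · simpa using h3 i
          · intro i j
            refine Fin.cases ?_ (fun i => ?_) i
            · refine Fin.cases ?_ (fun j => ?_) j
              · intro h
                exact absurd rfl h
              · intro _
                simpa using h6 j
            · refine Fin.cases ?_ (fun j => ?_) j
              · intro _
                simpa using (h6 i).symm
              · intro h
                simpa using h4 i j (fun hij => h (by rw [hij]))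
        · rintro ⟨f, K⟩ _ ⟨f', K'⟩ _ h
          have h' : (Fin.cons K f : Fin (m + 1) → Finset (Fin n)) = Fin.cons K' f' := h
          obtain ⟨h1, h2⟩ := Fin.cons_inj.mp h'
          subst h1
          subst h2
          rfl
      calc ℬ.card ^ (m + 1) = ℬ.card ^ m * ℬ.card := pow_succ _ _
        _ ≤ (2 ^ m * (univ.filter fun K : Fin m → Finset (Fin n) =>
              (∀ i, K i ∈ ℬ) ∧ ∀ i j, i ≠ j → Disjoint (K i) (K j)).card) * ℬ.card :=
            Nat.mul_le_mul_right _ ih'
        _ = 2 ^ m * ∑ _f ∈ (univ.filter fun K : Fin m → Finset (Fin n) =>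
              (∀ i, K i ∈ ℬ) ∧ ∀ i j, i ≠ j → Disjoint (K i) (K j)), ℬ.card := by
            rw [sum_const, smul_eq_mul, mul_assoc]
        _ ≤ 2 ^ m * ∑ f ∈ (univ.filter fun K : Fin m → Finset (Fin n) =>
              (∀ i, K i ∈ ℬ) ∧ ∀ i j, i ≠ j → Disjoint (K i) (K j)),
              2 * (ℬ.filter fun K => ∀ i, Disjoint K (f i)).card :=
            Nat.mul_le_mul_left _ (sum_le_sum hext)
        _ = 2 ^ (m + 1) * ∑ f ∈ (univ.filter fun K : Fin m → Finset (Fin n) =>
              (∀ i, K i ∈ ℬ) ∧ ∀ i j, i ≠ j → Disjoint (K i) (K j)),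
              (ℬ.filter fun K => ∀ i, Disjoint K (f i)).card := by
            rw [← mul_sum, pow_succ]
            ring
        _ ≤ _ := Nat.mul_le_mul_left _ hinj
  exact key s le_rfl

end H761CQ
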