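import Pool.Agent.H761R3.CQ.Stmts

/-! Task V of project H761-CQ (helper444, duplicate in case helper915 is stuck). -/

namespace H761CQ.V444

open Finset

lemma pairs_le {n : ℕ} (T : Finset (Sym2 (Fin n))) (P : Finset (Fin n × Fin n))
    (h : ∀ p ∈ P, s(p.1, p.2) ∈ T) : P.card ≤ 2 * T.card := by
  classical
  refine Finset.card_le_mul_card_image_of_maps_to (f := fun p : Fin n × Fin n => s(p.1, p.2)) h 2 ?_
  intro e _
  induction e with
  | h a b =>
    refine (Finset.card_le_card (t := {(a, b), (b, a)}) ?_).trans Finset.card_le_two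
    intro p hp
    rw [Finset.mem_filter] at hp
    have := hp.2
    rw [Sym2.eq_iff] at this
    simp only [Finset.mem_insert, Finset.mem_singleton]
    rcases this with ⟨h1, h2⟩ | ⟨h1, h2⟩
    · left; ext <;> simp [h1, h2]
    · right; ext <;> simp [h1, h2]

open Classical in
theorem taskV : TaskV := by
  intro n q u θ d m Q 𝒜 hQ hne hu hθ hdm hq hd hS
  let Nb : Fin n → Finset (Fin n) := fun z => univ.filter fun w => s(z, w) ∈ Q
  let High : Finset (Fin n) := univ.filter fun z => d < (Nb z).card
  have hHigh : High.card ≤ m := by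
    have h1 : High.card * (d + 1) ≤ ∑ z ∈ High, (Nb z).card := by
      rw [← smul_eq_mul, ← Finset.sum_const]
      refine Finset.sum_le_sum fun z hz => ?_
      have := (Finset.mem_filter.mp hz).2
      omega
    have h2 : ∑ z ∈ High, (Nb z).card ≤ 2 * Q.card := by
      rw [← Finset.card_sigma]
      have h3 : (High.sigma Nb).card = ((High.sigma Nb).image
          (fun p : (_ : Fin n) × Fin n => (p.1, p.2))).card := by
        rw [Finset.card_image_of_injective]
        rintro ⟨a, b⟩ ⟨a', b'⟩ hab
        simp only [Prod.mk.injEq] at hab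
        obtain ⟨h1, h2⟩ := hab
        subst h1
        subst h2
        rfl
      rw [h3]
      apply pairs_le
      intro p hp
      rw [Finset.mem_image] at hp
      obtain ⟨⟨a, b⟩, hab, rfl⟩ := hp
      rw [Finset.mem_sigma] at hab
      exact (Finset.mem_filter.mp hab.2).2
    by_contra hcon
    push Not at hcon
    have h4 : (m + 1) * (d + 1) ≤ High.card * (d + 1) := Nat.mul_le_mul_right _ hcon
    nlinarith
  let VV : Option (Fin n) → Finset (Fin n) := fun o =>
    match o with
    | none => High
    | some z => if (Nb z).card ≤ d then Nb z else ∅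
  have hVV : ∀ o, (VV o).card ≤ m := by
    intro o
    cases o with
    | none => exact hHigh
    | some z =>
      show (if (Nb z).card ≤ d then Nb z else ∅).card ≤ m
      split_ifs with h
      · omega
      · simp
  have hcov : ∀ S ∈ 𝒜, ∃ o, (S \ VV o).card ≤ θ + 1 := by
    intro S hSA
    by_cases hz : ∃ z ∈ S, (Nb z).card ≤ d ∧
        (S.filter fun w => w ≠ z ∧ s(z, w) ∉ Q).card ≤ θ
    · obtain ⟨z, hzS, hz1, hz2⟩ := hz
      refine ⟨some z, ?_⟩
      show (S \ (if (Nb z).card ≤ d then Nb z else ∅)).card ≤ θ + 1
      rw [if_pos hz1]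
      have hsub : S \ Nb z ⊆ insert z (S.filter fun w => w ≠ z ∧ s(z, w) ∉ Q) := by
        intro w hw
        rw [Finset.mem_sdiff] at hw
        rw [Finset.mem_insert, Finset.mem_filter]
        by_cases hwz : w = z
        · exact Or.inl hwz
        · right
          refine ⟨hw.1, hwz, fun hq => hw.2 ?_⟩
          exact Finset.mem_filter.mpr ⟨Finset.mem_univ _, hq⟩
      exact (Finset.card_le_card hsub).trans ((Finset.card_insert_le _ _).trans (by omega))
    · push Not at hz
      refine ⟨none, ?_⟩
      show (S \ High).card ≤ θ + 1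
      have h1 : (S \ High).card * (θ + 1) ≤
          ∑ z ∈ S \ High, (S.filter fun w => w ≠ z ∧ s(z, w) ∉ Q).card := by
        rw [← smul_eq_mul, ← Finset.sum_const]
        refine Finset.sum_le_sum fun z hz' => ?_
        rw [Finset.mem_sdiff] at hz'
        have h2 : (Nb z).card ≤ d := by
          by_contra hcon
          exact hz'.2 (Finset.mem_filter.mpr ⟨Finset.mem_univ _, by omega⟩)
        have := hz z hz'.1 h2
        omega
      have h2 : ∑ z ∈ S \ High, (S.filter fun w => w ≠ z ∧ s(z, w) ∉ Q).card ≤
          2 * (prs S \ Q).card := by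
        rw [← Finset.card_sigma]
        have h3 : ((S \ High).sigma fun z => S.filter fun w => w ≠ z ∧ s(z, w) ∉ Q).card =
            (((S \ High).sigma fun z => S.filter fun w => w ≠ z ∧ s(z, w) ∉ Q).image
            (fun p : (_ : Fin n) × Fin n => (p.1, p.2))).card := by
          rw [Finset.card_image_of_injective]
          rintro ⟨a, b⟩ ⟨a', b'⟩ hab
          simp only [Prod.mk.injEq] at hab
          obtain ⟨h1, h2⟩ := hab
          subst h1
          subst h2
          rfl
        rw [h3]
        apply pairs_le
        intro p hp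
        rw [Finset.mem_image] at hp
        obtain ⟨⟨a, b⟩, hab, rfl⟩ := hp
        rw [Finset.mem_sigma] at hab
        obtain ⟨ha, hb⟩ := hab
        rw [Finset.mem_sdiff] at ha
        rw [Finset.mem_filter] at hb
        rw [Finset.mem_sdiff]
        refine ⟨?_, hb.2.2⟩
        unfold prs
        rw [Finset.mem_filter]
        refine ⟨?_, ?_⟩
        · rw [Finset.mk_mem_sym2_iff]
          exact ⟨ha.1, hb.1⟩
        · rw [Sym2.mk_isDiag_iff]
          exact fun h => hb.2.1 h.symm
      have h3 := hS S hSA
      by_contra hcon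
      push Not at hcon
      have h4 : (θ + 2) * (θ + 1) ≤ (S \ High).card * (θ + 1) := Nat.mul_le_mul_right _ hcon
      nlinarith
  -- pigeonhole
  have hsum : 𝒜.card ≤ ∑ o : Option (Fin n), (𝒜.filter fun S => (S \ VV o).card ≤ θ + 1).card := by
    calc 𝒜.card ≤ (univ.biUnion fun o : Option (Fin n) =>
          𝒜.filter fun S => (S \ VV o).card ≤ θ + 1).card := by
          apply Finset.card_le_card
          intro S hSA
          obtain ⟨o, ho⟩ := hcov S hSA
          rw [Finset.mem_biUnion]
          exact ⟨o, Finset.mem_univ _, Finset.mem_filter.mpr ⟨hSA, ho⟩⟩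
      _ ≤ _ := Finset.card_biUnion_le
  obtain ⟨o, _, ho⟩ := Finset.exists_max_image (univ : Finset (Option (Fin n)))
    (fun o => (𝒜.filter fun S => (S \ VV o).card ≤ θ + 1).card) ⟨none, Finset.mem_univ _⟩
  refine ⟨VV o, hVV o, hsum.trans ?_⟩
  refine (Finset.sum_le_card_nsmul _ _ _ (fun o' ho' => ho o' ho')).trans ?_
  simp [Fintype.card_option]

end H761CQ.V444
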