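import Mathlib
import Pool.Agent.H761R3.CQ.Main
import Pool.Agent.H761R3.CQ.TA1
import Pool.Agent.H761R3.CQ.TA2
import Pool.Agent.H761R3.CQ.TC
import Pool.Agent.H761R3.CQ.TD
import Pool.Agent.H761R3.CQ.TE1
import Pool.Agent.H761R3.CQ.TE2
import Pool.Agent.H761R3.CQ.TE3
import Pool.Agent.H761R3.CQ.TE4
import Pool.Agent.H761R3.CQ.TE5
import Pool.Agent.H761R3.CQ.TE6
import Pool.Agent.H761R3.CQ.TK
import Pool.Agent.H761R3.CQ.TR
import Pool.Agent.H761R3.CQ.TStep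
import Pool.Agent.H761R3.CQ.TV_h444

namespace H761CQ

open Finset Filter MeasureTheory

/-- the bound for deterministic algorithms, with all tasks discharged -/
theorem det_final (c : ℝ) (hc : 3 / 2 < c) (C : ℕ) (ε : ℝ) (hε : 0 < ε) :
    ∀ᶠ n : ℕ in atTop, ∀ q : ℕ, (q:ℝ) ≤ C * n * (Real.logb 2 n) ^ C →
      ∀ A : Alg n, succ A q (c * Real.logb 2 n) ≤ ε :=
  det_bound taskA1 taskA2 taskC taskD taskE4
    (taskStep taskE1 taskE2 taskE3 taskE4 taskE5 taskE6) taskK V444.taskV taskR c hc C ε hε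

/-- `c` is achievable: there are a constant `C` and a randomised query algorithm which, for every
`n`, makes at most `C n (log n)^C` queries and finds a clique of size at least `c log n` in the
random graph with probability tending to `1`. -/
def Achievable (c : ℝ) : Prop :=
  ∃ (C : ℕ) (q : ℕ → ℕ), (∀ n : ℕ, (q n : ℝ) ≤ C * n * (Real.logb 2 n) ^ C) ∧
    ∃ (Ω : ℕ → Type) (_ : ∀ n, MeasurableSpace (Ω n)) (μ : ∀ n, Measure (Ω n))
      (_ : ∀ n, IsProbabilityMeasure (μ n)) (A : ∀ n, Ω n → Alg n),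
      Tendsto (fun n : ℕ => ∫⁻ ω, ENNReal.ofReal (succ (A n ω) (q n) (c * Real.logb 2 n)) ∂(μ n))
        atTop (nhds 1)

theorem main (c : ℝ) (hc : 3 / 2 < c) (C : ℕ) (ε : ℝ) (hε : 0 < ε) :
    ∀ᶠ n : ℕ in atTop, ∀ q : ℕ, (q:ℝ) ≤ C * n * (Real.logb 2 n) ^ C →
      ∀ (Ω : Type) [MeasurableSpace Ω] (μ : Measure Ω) [IsProbabilityMeasure μ]
        (A : Ω → Alg n),
        ∫⁻ ω, ENNReal.ofReal (succ (A ω) q (c * Real.logb 2 n)) ∂μ ≤ ENNReal.ofReal ε := by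
  filter_upwards [det_final c hc C ε hε] with n hn q hq Ω _ μ _ A
  calc ∫⁻ ω, ENNReal.ofReal (succ (A ω) q (c * Real.logb 2 n)) ∂μ
      ≤ ∫⁻ _, ENNReal.ofReal ε ∂μ :=
        lintegral_mono fun ω => ENNReal.ofReal_le_ofReal (hn q hq (A ω))
    _ = ENNReal.ofReal ε := by simp

theorem achievable_le (c : ℝ) (hc : Achievable c) : c ≤ 3 / 2 := by
  by_contra hcon
  push Not at hcon
  obtain ⟨C, q, hq, Ω, mΩ, μ, hμ, A, hA⟩ := hc
  have h1 := main c hcon C (1 / 2) (by norm_num)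
  have h2 : ∀ᶠ n : ℕ in atTop, (ENNReal.ofReal (1 / 2)) <
      ∫⁻ ω, ENNReal.ofReal (succ (A n ω) (q n) (c * Real.logb 2 n)) ∂(μ n) := by
    apply hA.eventually_const_lt
    rw [ENNReal.ofReal_lt_one]
    norm_num
  obtain ⟨n, hn1, hn2⟩ := (h1.and h2).exists
  exact absurd (hn1 (q n) (hq n) (Ω n) (μ n) (A n)) (not_le.mpr hn2)

end H761CQ
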