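import Mathlib
import Pool.Agent.H761R3.CQ.Stmts

set_option autoImplicit false

namespace H761CQ

open Finset

namespace TStep

variable {n : ℕ} {ι : Type}

/-- exchange of sums -/
lemma exch (I : Finset ι) (K : ι → Finset (Fin n)) (V : Finset (Fin n)) (h : ∀ i ∈ I, K i ⊆ V)
    (g : Fin n → ℝ) : ∑ i ∈ I, ∑ x ∈ K i, g x = ∑ x ∈ V, (mult I K x : ℝ) * g x := by
  classical
  have h1 : ∀ i ∈ I, ∑ x ∈ K i, g x = ∑ x ∈ V, if x ∈ K i then g x else 0 := by
    intro i hi
    rw [← Finset.sum_filter]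
    apply Finset.sum_congr _ (fun _ _ => rfl)
    ext x
    rw [Finset.mem_filter]
    exact ⟨fun hx => ⟨h i hi hx, hx⟩, fun hx => hx.2⟩
  rw [Finset.sum_congr rfl h1, Finset.sum_comm]
  apply Finset.sum_congr rfl
  intro x _
  rw [← Finset.sum_filter, Finset.sum_const, nsmul_eq_mul]
  unfold mult
  congr!

lemma exch_card (I : Finset ι) (K : ι → Finset (Fin n)) (V : Finset (Fin n))
    (h : ∀ i ∈ I, K i ⊆ V) (P : Fin n → Prop) [DecidablePred P] :
    ∑ i ∈ I, (((K i).filter P).card : ℝ) = ∑ x ∈ V, (mult I K x : ℝ) * (if P x then 1 else 0) := by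
  rw [← exch I K V h]
  apply Finset.sum_congr rfl
  intro i _
  rw [Finset.sum_boole]

lemma mult_le (I : Finset ι) (K : ι → Finset (Fin n)) (x : Fin n) : mult I K x ≤ I.card := by
  unfold mult
  exact Finset.card_filter_le _ _

end TStep

open TStep

theorem taskStep : TaskStep := by
  intro E1 E2 E3 E4 E5 E6
  intro n L S u W o j c D' D2 N' σ b ok ι I K V hL hS hW hσ hb hmono hP hNF hI hV ho hK hSpr hbig
    hVN hD hE
  classical
  have ha0 : (0 : ℝ) < (I.card : ℝ) := by exact_mod_cast hI.card_pos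
  have hV0 : (1 : ℝ) ≤ (V.card : ℝ) := by exact_mod_cast hV.card_pos
  have hS0 : (1 : ℝ) ≤ (S : ℝ) := by exact_mod_cast hS
  have ho0 : (1 : ℝ) ≤ (o : ℝ) := by exact_mod_cast ho
  have hKV : ∀ i ∈ I, K i ⊆ V := fun i hi => (hK i hi).2.1
  have hKo : ∀ i ∈ I, (K i).card ≤ o := fun i hi => (hK i hi).2.2.le
  -- the probabilities
  have hp0 : ∀ x, 0 ≤ (mult I K x : ℝ) / I.card := fun x => by positivity
  have hp1 : ∀ x, (mult I K x : ℝ) / I.card ≤ 1 := fun x => by
    rw [div_le_one ha0]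
    exact_mod_cast mult_le I K x
  have hsum1 : ∑ x ∈ V, (mult I K x : ℝ) = o * I.card := by
    have h1 := exch I K V hKV (fun _ => 1)
    simp only [mul_one, Finset.sum_const, nsmul_eq_mul] at h1
    rw [← h1]
    rw [Finset.sum_congr rfl (fun i hi => by rw [(hK i hi).2.2] : ∀ i ∈ I, ((K i).card : ℝ) = o)]
    rw [Finset.sum_const, nsmul_eq_mul, mul_comm]
  have hsum : ∑ x ∈ V, (mult I K x : ℝ) / I.card = o := by
    rw [← Finset.sum_div, hsum1]
    field_simp
  obtain ⟨w, hwW, hw1, hw⟩ := E6 n W V (fun x => (mult I K x : ℝ) / I.card) o hp0 ho0 hsum hW hp1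
  have e1 := E1 n S u W o ok ι I K V w hP hS hV hI hwW hw1 hK
  -- first term
  have t1 : (∑ i ∈ I, ∑ x ∈ K i, (w x : ℝ)) / I.card =
      ∑ x ∈ V, (mult I K x : ℝ) / I.card * w x := by
    rw [exch I K V hKV, Finset.sum_div]
    exact Finset.sum_congr rfl fun x _ => by ring
  rw [t1] at e1
  -- second term
  have hcardP : ((Fintype.piFinset (fun _ : Fin (V.card * S) => I)).card : ℝ) =
      (I.card : ℝ) ^ (V.card * S) := by
    rw [Fintype.card_piFinset_const]; push_cast; rfl
  have e2 : ∀ f ∈ Fintype.piFinset (fun _ : Fin (V.card * S) => I),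
      ∑ i ∈ I, ((prs (K i) ∩ Gam K f).card : ℝ) ≤
      (∑ x ∈ V, (mult I K x : ℝ) * ((1 + σ / 2) * Real.logb 2 (1 + (nb (Gam K f) V x).card) + b / 2))
        + I.card + o * ∑ x ∈ V, (mult I K x : ℝ) *
          (if N' < (nb (Gam K f) V x).card then 1 else 0) := by
    intro f _
    have := E2 n L c (2 * D') N' o σ b ok ι hL hσ hb hmono hNF I K V (Gam K f) hI hSpr
      (fun i hi => ⟨(hK i hi).1, (hK i hi).2.1, (hK i hi).2.2.le⟩)
    rw [exch I K V hKV] at this
    rw [exch_card I K V hKV (fun x => N' < (nb (Gam K f) V x).card)] at this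
    exact this
  have e2s : ∑ f ∈ Fintype.piFinset (fun _ : Fin (V.card * S) => I),
      ∑ i ∈ I, ((prs (K i) ∩ Gam K f).card : ℝ) ≤
      (∑ x ∈ V, ∑ f ∈ Fintype.piFinset (fun _ : Fin (V.card * S) => I),
        (mult I K x : ℝ) * ((1 + σ / 2) * Real.logb 2 (1 + (nb (Gam K f) V x).card) + b / 2))
        + (I.card : ℝ) ^ (V.card * S) * I.card +
        o * ∑ x ∈ V, ∑ f ∈ Fintype.piFinset (fun _ : Fin (V.card * S) => I), (mult I K x : ℝ) *
          (if N' < (nb (Gam K f) V x).card then 1 else 0) := by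
    refine (Finset.sum_le_sum e2).trans (le_of_eq ?_)
    rw [Finset.sum_add_distrib, Finset.sum_add_distrib, Finset.sum_const, nsmul_eq_mul, hcardP,
      ← Finset.mul_sum]
    congr 1
    · congr 1
      exact Finset.sum_comm
    · congr 1
      exact Finset.sum_comm
  have hA0 : (0 : ℝ) < (I.card : ℝ) ^ (V.card * S) := pow_pos ha0 _
  have b1 : ∀ x ∈ V, ∑ f ∈ Fintype.piFinset (fun _ : Fin (V.card * S) => I),
      (mult I K x : ℝ) * ((1 + σ / 2) * Real.logb 2 (1 + (nb (Gam K f) V x).card) + b / 2) ≤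
      (I.card : ℝ) ^ (V.card * S) * ((mult I K x : ℝ) * ((1 + σ / 2) *
        Real.logb 2 (1 + o * ((V.card * S : ℕ) : ℝ) * ((mult I K x : ℝ) / I.card)) + b / 2)) := by
    intro x _
    obtain ⟨h3, _⟩ := E3 n (V.card * S) o ι I K V x hI hKo
    rw [← Finset.mul_sum, Finset.sum_add_distrib, ← Finset.mul_sum, Finset.sum_const, nsmul_eq_mul,
      hcardP]
    have hm : (0 : ℝ) ≤ (mult I K x : ℝ) := by positivity
    have h4 : (1 + σ / 2) * (∑ f ∈ Fintype.piFinset (fun _ : Fin (V.card * S) => I),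
        Real.logb 2 (1 + (nb (Gam K f) V x).card)) ≤ (1 + σ / 2) * ((I.card : ℝ) ^ (V.card * S) *
          Real.logb 2 (1 + o * ((V.card * S : ℕ) : ℝ) * ((mult I K x : ℝ) / I.card))) :=
      mul_le_mul_of_nonneg_left h3 (by positivity)
    calc (mult I K x : ℝ) * ((1 + σ / 2) * (∑ f ∈ Fintype.piFinset (fun _ : Fin (V.card * S) => I),
        Real.logb 2 (1 + (nb (Gam K f) V x).card)) + (I.card : ℝ) ^ (V.card * S) * (b / 2))
        ≤ (mult I K x : ℝ) * ((1 + σ / 2) * ((I.card : ℝ) ^ (V.card * S) *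
          Real.logb 2 (1 + o * ((V.card * S : ℕ) : ℝ) * ((mult I K x : ℝ) / I.card))) +
            (I.card : ℝ) ^ (V.card * S) * (b / 2)) :=
          mul_le_mul_of_nonneg_left (by linarith) hm
      _ = _ := by ring
  have b2 : ∀ x ∈ V, ∑ f ∈ Fintype.piFinset (fun _ : Fin (V.card * S) => I),
      (mult I K x : ℝ) * (if N' < (nb (Gam K f) V x).card then 1 else 0) ≤
      (I.card : ℝ) ^ (V.card * S) * ((mult I K x : ℝ) *
        (if I.card < mult I K x * 2 ^ D' then 1 else 0)) +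
      (I.card : ℝ) ^ (V.card * S) * ((mult I K x : ℝ) / o) := by
    intro x _
    obtain ⟨_, h3⟩ := E3 n (V.card * S) o ι I K V x hI hKo
    have h3' := h3 N'
    rw [← Finset.mul_sum, Finset.sum_boole]
    have hm : (0 : ℝ) ≤ (mult I K x : ℝ) := by positivity
    have hc : ((((Fintype.piFinset (fun _ : Fin (V.card * S) => I)).filter
      fun f => N' < (nb (Gam K f) V x).card).card : ℕ) : ℝ) ≤ (I.card : ℝ) ^ (V.card * S) := by
      rw [← hcardP]
      exact_mod_cast Finset.card_filter_le _ _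
    by_cases hH : I.card < mult I K x * 2 ^ D'
    · rw [if_pos hH]
      have h5 := mul_le_mul_of_nonneg_left hc hm
      have h6 : 0 ≤ (I.card : ℝ) ^ (V.card * S) * ((mult I K x : ℝ) / o) := by positivity
      linarith
    · rw [if_neg hH]
      push Not at hH
      have hH' : (mult I K x : ℝ) * 2 ^ D' ≤ I.card := by exact_mod_cast hH
      have hD' : (o : ℝ) ^ 2 * S * 2 ^ D2 ≤ 2 ^ D' := by exact_mod_cast hD
      have hVN' : (V.card : ℝ) ≤ (N' + 1) * 2 ^ D2 := by exact_mod_cast hVN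
      have hN0 : (0 : ℝ) < (N' : ℝ) + 1 := by positivity
      have key : (o : ℝ) * ((V.card * S : ℕ) : ℝ) * ((mult I K x : ℝ) / I.card) * o ≤ N' + 1 := by
        have hpx : (mult I K x : ℝ) / I.card * 2 ^ D' ≤ 1 := by
          rw [div_mul_eq_mul_div, div_le_one ha0]; exact hH'
        push_cast
        have hpp := hp0 x
        calc (o : ℝ) * ((V.card : ℝ) * S) * ((mult I K x : ℝ) / I.card) * o
            = V.card * ((o : ℝ) ^ 2 * S * ((mult I K x : ℝ) / I.card)) := by ring
          _ ≤ ((N' + 1) * 2 ^ D2) * ((o : ℝ) ^ 2 * S * ((mult I K x : ℝ) / I.card)) :=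
              mul_le_mul_of_nonneg_right hVN' (by positivity)
          _ = (N' + 1) * (((o : ℝ) ^ 2 * S * 2 ^ D2) * ((mult I K x : ℝ) / I.card)) := by ring
          _ ≤ (N' + 1) * (2 ^ D' * ((mult I K x : ℝ) / I.card)) :=
              mul_le_mul_of_nonneg_left (mul_le_mul_of_nonneg_right hD' hpp) hN0.le
          _ ≤ (N' + 1) * 1 := mul_le_mul_of_nonneg_left (by linarith) hN0.le
          _ = N' + 1 := mul_one _
      have h7 : ((((Fintype.piFinset (fun _ : Fin (V.card * S) => I)).filter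
          fun f => N' < (nb (Gam K f) V x).card).card : ℕ) : ℝ) ≤
          (I.card : ℝ) ^ (V.card * S) / o := by
        rw [le_div_iff₀ (by linarith)]
        have h8 : ((((Fintype.piFinset (fun _ : Fin (V.card * S) => I)).filter
          fun f => N' < (nb (Gam K f) V x).card).card : ℕ) : ℝ) * o * (N' + 1) ≤
            (I.card : ℝ) ^ (V.card * S) * (N' + 1) := by
          calc ((((Fintype.piFinset (fun _ : Fin (V.card * S) => I)).filter
          fun f => N' < (nb (Gam K f) V x).card).card : ℕ) : ℝ) * o * (N' + 1)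
              = ((((Fintype.piFinset (fun _ : Fin (V.card * S) => I)).filter
          fun f => N' < (nb (Gam K f) V x).card).card : ℕ) : ℝ) * (N' + 1) * o := by ring
            _ ≤ (I.card : ℝ) ^ (V.card * S) * (o * ((V.card * S : ℕ) : ℝ) *
                ((mult I K x : ℝ) / I.card)) * o := mul_le_mul_of_nonneg_right h3' (by linarith)
            _ = (I.card : ℝ) ^ (V.card * S) * ((o : ℝ) * ((V.card * S : ℕ) : ℝ) *
                ((mult I K x : ℝ) / I.card) * o) := by ring
            _ ≤ (I.card : ℝ) ^ (V.card * S) * (N' + 1) := mul_le_mul_of_nonneg_left key hA0.le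
        exact le_of_mul_le_mul_right h8 hN0
      have h9 := mul_le_mul_of_nonneg_left h7 hm
      have h10 : (mult I K x : ℝ) * ((I.card : ℝ) ^ (V.card * S) / o) =
        (I.card : ℝ) ^ (V.card * S) * ((mult I K x : ℝ) / o) := by ring
      rw [h10] at h9
      simpa using h9
  have b1s := Finset.sum_le_sum b1
  have b2s := Finset.sum_le_sum b2
  rw [← Finset.mul_sum] at b1s
  rw [Finset.sum_add_distrib, ← Finset.mul_sum, ← Finset.mul_sum, ← Finset.sum_div, hsum1,
    ← exch_card I K V hKV (fun x => I.card < mult I K x * 2 ^ D')] at b2s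
  have e4 := E4 n o j c D' ι I K hI hSpr hKo hE
  have e4' : ∑ i ∈ I, (((K i).filter fun x => I.card < mult I K x * 2 ^ D').card : ℝ) ≤
      I.card * (j + 1) := by exact_mod_cast e4
  have e5 := E5 n V (fun x => (mult I K x : ℝ) / I.card) o (o * ((V.card * S : ℕ) : ℝ)) hp0
    (by linarith) hsum (by
      push_cast
      exact one_le_mul_of_one_le_of_one_le ho0 (one_le_mul_of_one_le_of_one_le hV0 hS0))
  -- the bound for the second term
  have hb1 : ∑ x ∈ V, (mult I K x : ℝ) * ((1 + σ / 2) *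
        Real.logb 2 (1 + o * ((V.card * S : ℕ) : ℝ) * ((mult I K x : ℝ) / I.card)) + b / 2) =
      I.card * ((1 + σ / 2) * ∑ x ∈ V, (mult I K x : ℝ) / I.card *
        Real.logb 2 (1 + o * ((V.card * S : ℕ) : ℝ) * ((mult I K x : ℝ) / I.card)) +
          o * (b / 2)) := by
    have h1 : ∀ x ∈ V, (mult I K x : ℝ) * ((1 + σ / 2) *
        Real.logb 2 (1 + o * ((V.card * S : ℕ) : ℝ) * ((mult I K x : ℝ) / I.card)) + b / 2) =
        I.card * ((1 + σ / 2) * ((mult I K x : ℝ) / I.card *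
        Real.logb 2 (1 + o * ((V.card * S : ℕ) : ℝ) * ((mult I K x : ℝ) / I.card)))) +
          (mult I K x : ℝ) * (b / 2) := by
      intro x _
      field_simp
    rw [Finset.sum_congr rfl h1, Finset.sum_add_distrib, ← Finset.mul_sum, ← Finset.mul_sum,
      ← Finset.sum_mul, hsum1]
    ring
  rw [hb1] at b1s
  set Q := ∑ x ∈ V, (mult I K x : ℝ) / I.card *
        Real.logb 2 (1 + o * ((V.card * S : ℕ) : ℝ) * ((mult I K x : ℝ) / I.card)) with hQ
  set Bd := ∑ x ∈ V, ((mult I K x : ℝ) / I.card) * Real.logb 2 (1 / ((mult I K x : ℝ) / I.card))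
    with hBd
  have hoI : (o : ℝ) * I.card / o = I.card := by field_simp
  rw [hoI] at b2s
  have tot : (∑ f ∈ Fintype.piFinset (fun _ : Fin (V.card * S) => I), ∑ i ∈ I,
      ((prs (K i) ∩ Gam K f).card : ℝ)) / ((I.card : ℝ) ^ (V.card * S) * I.card) ≤
      (1 + σ / 2) * Q + o * (b / 2) + 1 + o * (j + 2) := by
    rw [div_le_iff₀ (by positivity)]
    refine e2s.trans ?_
    have h1 := mul_le_mul_of_nonneg_left (b2s.trans (add_le_add_left
      (mul_le_mul_of_nonneg_left e4' hA0.le) _)) (by linarith : (0 : ℝ) ≤ o)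
    calc _ ≤ (I.card : ℝ) ^ (V.card * S) * (I.card * ((1 + σ / 2) * Q + o * (b / 2))) +
          (I.card : ℝ) ^ (V.card * S) * I.card + (o * ((I.card : ℝ) ^ (V.card * S) *
            (I.card * (j + 1)) + (I.card : ℝ) ^ (V.card * S) * I.card)) := by
          refine add_le_add (add_le_add b1s le_rfl) h1
      _ = _ := by ring
  -- final computation
  have hch : (o.choose 2 : ℝ) = (o : ℝ) ^ 2 / 2 - o / 2 := by
    rw [Nat.cast_choose_two]; ring
  have hlog : Real.logb 2 (V.card / o + o * ((V.card * S : ℕ) : ℝ)) ≤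
      Real.logb 2 V.card + Real.logb 2 (2 * o * S) := by
    rw [← Real.logb_mul (by positivity) (by positivity)]
    apply Real.logb_le_logb_of_le (by norm_num) (by positivity)
    push_cast
    have h1 : (V.card : ℝ) / o ≤ V.card * (o * S) := by
      rw [div_le_iff₀ (by linarith)]
      have h2 : (1 : ℝ) ≤ o * S * o :=
        one_le_mul_of_one_le_of_one_le (one_le_mul_of_one_le_of_one_le ho0 hS0) ho0
      have h3 := mul_le_mul_of_nonneg_left h2 (by linarith : (0 : ℝ) ≤ V.card)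
      linarith
    linarith
  have hlogm := mul_le_mul_of_nonneg_left hlog (by linarith : (0 : ℝ) ≤ o)
  have hQB : Q ≤ -Bd + o * (Real.logb 2 V.card + Real.logb 2 (2 * o * S)) := by linarith
  have hQB' := mul_le_mul_of_nonneg_left hQB (by positivity : (0 : ℝ) ≤ 1 + σ / 2)
  have hbig' := mul_le_mul_of_nonneg_left hbig (by linarith : (0 : ℝ) ≤ (o : ℝ) / 2)
  rw [hch] at e1
  have hw' : ∑ x ∈ V, (mult I K x : ℝ) / I.card * w x ≤ Bd + o * (Real.logb 2 (2 * o) + 1) := hw
  have f1 : (o : ℝ) ^ 2 / 2 - o / 2 ≤ Bd + o * (Real.logb 2 (2 * o) + 1) +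
      ((1 + σ / 2) * (-Bd + o * (Real.logb 2 V.card + Real.logb 2 (2 * o * S))) + o * (b / 2) + 1
        + o * (j + 2)) + (u + 3) := by linarith
  have f2 : (o : ℝ) / 2 * ((2 + σ) * Real.logb 2 V.card + b) =
      (1 + σ / 2) * (o * Real.logb 2 V.card) + o * (b / 2) := by ring
  have f3 : (o : ℝ) / 2 * o = (o : ℝ) ^ 2 / 2 := by ring
  rw [f2, f3] at hbig'
  have f4 : (1 + σ / 2) * (-Bd + o * (Real.logb 2 V.card + Real.logb 2 (2 * o * S))) =
      -Bd - σ / 2 * Bd + (1 + σ / 2) * (o * Real.logb 2 V.card) +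
        o * ((1 + σ / 2) * Real.logb 2 (2 * o * S)) := by ring
  rw [f4] at f1
  have f5 : (o : ℝ) * (4 + j + Real.logb 2 (2 * o) + (1 + σ / 2) * Real.logb 2 (2 * o * S)) =
      4 * o + o * j + o * Real.logb 2 (2 * o) + o * ((1 + σ / 2) * Real.logb 2 (2 * o * S)) := by
    ring
  rw [f5]
  have f6 : (o : ℝ) * (Real.logb 2 (2 * o) + 1) = o * Real.logb 2 (2 * o) + o := by ring
  have f7 : (o : ℝ) * ((j : ℝ) + 2) = o * j + 2 * o := by ring
  rw [f6, f7] at f1
  linarith

end H761CQ
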