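import Pool.Agent.H761R3.CQ.Stmts

/-!
Task V of the project H761-CQ: confinement to a small set.
-/

namespace H761CQ

open Finset

theorem tv_sum {n : ℕ} (P : Finset (Sym2 (Fin n))) (A : Finset (Fin n))
    (F : Fin n → Finset (Fin n)) (h : ∀ z ∈ A, ∀ y ∈ F z, s(z, y) ∈ P) :
    ∑ z ∈ A, (F z).card ≤ 2 * P.card := by
  classical
  rw [← Finset.card_sigma]
  refine Finset.card_le_mul_card_image_of_maps_to
    (f := fun p : (_ : Fin n) × Fin n => s(p.1, p.2)) ?_ 2 ?_
  · intro p hp
    rw [Finset.mem_sigma] at hp
    exact h p.1 hp.1 p.2 hp.2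
  · intro e he
    induction e using Sym2.ind with
    | _ a b =>
      calc ((A.sigma F).filter fun p => s(p.1, p.2) = s(a, b)).card
          ≤ ({⟨a, b⟩, ⟨b, a⟩} : Finset ((_ : Fin n) × Fin n)).card := by
            apply Finset.card_le_card
            rintro ⟨p1, p2⟩ hp
            rw [Finset.mem_filter] at hp
            have h2 := hp.2
            simp only [] at h2
            rw [Sym2.eq_iff] at h2
            rcases h2 with ⟨h1, h2⟩ | ⟨h1, h2⟩
            · subst h1 h2
              simp
            · subst h1 h2
              simp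
        _ ≤ 2 := Finset.card_le_two

theorem taskV : TaskV := by
  classical
  intro n q u θ d m Q 𝒜 hQ h𝒜 hu hθ hdm hq hd hS
  set N : Fin n → Finset (Fin n) := fun z => univ.filter fun y => s(z, y) ∈ Q with hN
  set High : Finset (Fin n) := univ.filter fun z => d < (N z).card with hHigh
  have hHc : High.card ≤ m := by
    have h1 : High.card * d ≤ ∑ z ∈ High, (N z).card := by
      rw [← smul_eq_mul, ← Finset.sum_const]
      apply Finset.sum_le_sum
      intro z hz
      rw [hHigh, Finset.mem_filter] at hz
      exact hz.2.le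
    have h2 : ∑ z ∈ High, (N z).card ≤ 2 * Q.card := by
      apply tv_sum
      intro z _ y hy
      rw [hN, Finset.mem_filter] at hy
      exact hy.2
    have h3 : d * High.card ≤ d * m := by
      calc d * High.card = High.card * d := mul_comm _ _
        _ ≤ 2 * Q.card := h1.trans h2
        _ ≤ 2 * q := by omega
        _ ≤ d * m := hq
    exact Nat.le_of_mul_le_mul_left h3 (by omega)
  set Vf : Option (Fin n) → Finset (Fin n) := fun i =>
    match i with
    | none => High
    | some z => if (N z).card ≤ d then N z else ∅ with hVf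
  have hVc : ∀ i, (Vf i).card ≤ m := by
    intro i
    rcases i with _ | z
    · exact hHc
    · simp only [hVf]
      split_ifs with h
      · exact h.trans hdm
      · simp
  have key : ∀ S ∈ 𝒜, ∃ i : Option (Fin n), (S \ Vf i).card ≤ θ + 1 := by
    intro S hSA
    by_cases h : ∃ z ∈ S, (N z).card ≤ d ∧ ((S \ N z).erase z).card ≤ θ
    · obtain ⟨z, hz, h1, h2⟩ := h
      refine ⟨some z, ?_⟩
      have h3 : Vf (some z) = N z := by
        simp only [hVf]
        rw [if_pos h1]
      rw [h3]
      have h4 := Finset.pred_card_le_card_erase (s := S \ N z) (a := z)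
      omega
    · push Not at h
      refine ⟨none, ?_⟩
      have h3 : Vf none = High := rfl
      rw [h3]
      have h4 : (S \ High).card * (θ + 1) ≤ ∑ z ∈ S \ High, ((S \ N z).erase z).card := by
        rw [← smul_eq_mul, ← Finset.sum_const]
        apply Finset.sum_le_sum
        intro z hz
        rw [Finset.mem_sdiff] at hz
        have h5 : (N z).card ≤ d := by
          by_contra hc
          exact hz.2 (by rw [hHigh, Finset.mem_filter]; exact ⟨Finset.mem_univ _, by omega⟩)
        have := h z hz.1 h5
        omega
      have h6 : ∑ z ∈ S \ High, ((S \ N z).erase z).card ≤ 2 * (prs S \ Q).card := by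
        apply tv_sum
        intro z hz y hy
        rw [Finset.mem_erase, Finset.mem_sdiff] at hy
        rw [Finset.mem_sdiff] at hz
        rw [Finset.mem_sdiff]
        constructor
        · unfold prs
          rw [Finset.mem_filter, Finset.mk_mem_sym2_iff]
          refine ⟨⟨hz.1, hy.2.1⟩, ?_⟩
          rw [Sym2.mk_isDiag_iff]
          exact fun hc => hy.1 hc.symm
        · intro hc
          exact hy.2.2 (by rw [hN, Finset.mem_filter]; exact ⟨Finset.mem_univ _, hc⟩)
      have h7 := hS S hSA
      by_contra hc
      have h8 : θ + 1 ≤ (S \ High).card := by omega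
      have h9 : (θ + 1) * (θ + 1) ≤ θ * θ := by
        calc (θ + 1) * (θ + 1) ≤ (S \ High).card * (θ + 1) := Nat.mul_le_mul_right _ h8
          _ ≤ 2 * (prs S \ Q).card := h4.trans h6
          _ ≤ 2 * u := by omega
          _ ≤ θ * θ := hu
      nlinarith
  by_contra hcon
  push Not at hcon
  have h1 : 𝒜.card ≤ ∑ i : Option (Fin n), (𝒜.filter fun S => (S \ Vf i).card ≤ θ + 1).card := by
    refine le_trans (Finset.card_le_card ?_) Finset.card_biUnion_le
    intro S hSA
    obtain ⟨i, hi⟩ := key S hSA
    rw [Finset.mem_biUnion]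
    exact ⟨i, Finset.mem_univ _, Finset.mem_filter.mpr ⟨hSA, hi⟩⟩
  have h2 : ∑ i : Option (Fin n),
      (n + 1) * (𝒜.filter fun S => (S \ Vf i).card ≤ θ + 1).card <
      ∑ _i : Option (Fin n), 𝒜.card := by
    apply Finset.sum_lt_sum_of_nonempty ⟨none, Finset.mem_univ _⟩
    intro i _
    exact hcon (Vf i) (hVc i)
  rw [← Finset.mul_sum, Finset.sum_const, Finset.card_univ, Fintype.card_option,
    Fintype.card_fin, smul_eq_mul] at h2
  have h3 := Nat.lt_of_mul_lt_mul_left h2
  omega

end H761CQ
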