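import Mathlib
import Pool.Agent.H761R3.CQ.Stmts

set_option autoImplicit false

namespace H761CQ

open Finset

namespace TV594

/-- pair counting -/
lemma count {n : ℕ} (W : Finset (Fin n × Fin n)) (P : Finset (Sym2 (Fin n)))
    (h : ∀ p ∈ W, s(p.1, p.2) ∈ P) : W.card ≤ 2 * P.card := by
  classical
  have h1 := Finset.card_le_mul_card_image (f := fun p : Fin n × Fin n => s(p.1, p.2)) W 2 (by
    intro e he
    obtain ⟨⟨a, b⟩, hab, rfl⟩ := Finset.mem_image.1 he
    have hsub : (W.filter fun x : Fin n × Fin n => s(x.1, x.2) = s(a, b)) ⊆ {(a, b), (b, a)} := by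
      rintro ⟨x, y⟩ hx
      have h2 := (Finset.mem_filter.1 hx).2
      rw [Finset.mem_insert, Finset.mem_singleton]
      rcases Sym2.eq_iff.1 h2 with ⟨h3, h4⟩ | ⟨h3, h4⟩
      · left
        simp only at h3 h4
        rw [h3, h4]
      · right
        simp only at h3 h4
        rw [h3, h4]
    exact (Finset.card_le_card hsub).trans Finset.card_le_two)
  refine h1.trans (Nat.mul_le_mul_left 2 (Finset.card_le_card ?_))
  intro e he
  obtain ⟨p, hp, rfl⟩ := Finset.mem_image.1 he
  exact h p hp

lemma count_sum {n : ℕ} (S : Finset (Fin n)) (P : Finset (Sym2 (Fin n)))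
    (R : Fin n → Fin n → Prop) [∀ z, DecidablePred (R z)]
    (h : ∀ z ∈ S, ∀ y, R z y → s(z, y) ∈ P) :
    ∑ z ∈ S, ((univ : Finset (Fin n)).filter (R z)).card ≤ 2 * P.card := by
  classical
  have h1 := count ((S ×ˢ (univ : Finset (Fin n))).filter fun p => R p.1 p.2) P (by
    intro p hp
    rw [Finset.mem_filter, Finset.mem_product] at hp
    exact h p.1 hp.1.1 p.2 hp.2)
  rw [Finset.card_filter, Finset.sum_product] at h1
  refine le_trans (le_of_eq ?_) h1
  apply Finset.sum_congr rfl
  intro z _
  rw [Finset.card_filter]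

end TV594

open TV594 in
theorem taskV594 : TaskV := by
  classical
  intro n q u θ d m Q 𝒜 hQ hA hu hθ hdm hq hd hS
  set N : Fin n → Finset (Fin n) := fun z => univ.filter fun y => y ≠ z ∧ s(z, y) ∈ Q with hN
  set High : Finset (Fin n) := univ.filter fun z => d < (N z).card with hHigh
  have hdeg : ∑ z ∈ High, (N z).card ≤ 2 * Q.card :=
    count_sum High Q (fun z y => y ≠ z ∧ s(z, y) ∈ Q) (fun z _ y h => h.2)
  have hHm : High.card ≤ m := by
    have h1 : High.card * d ≤ ∑ z ∈ High, (N z).card := by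
      rw [← smul_eq_mul]
      exact Finset.card_nsmul_le_sum _ _ _ fun z hz => (Finset.mem_filter.1 hz).2.le
    have h2 : High.card * d ≤ m * d := by
      calc High.card * d ≤ 2 * Q.card := h1.trans hdeg
        _ ≤ 2 * q := Nat.mul_le_mul_left 2 hQ
        _ ≤ d * m := hq
        _ = m * d := Nat.mul_comm _ _
    exact Nat.le_of_mul_le_mul_right h2 (by omega)
  let Vs : Option (Fin n) → Finset (Fin n) := fun i =>
    match i with
    | none => High
    | some z => if (N z).card ≤ d then N z else ∅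
  have hVm : ∀ i, (Vs i).card ≤ m := by
    intro i
    rcases i with _ | z
    · exact hHm
    · show (if (N z).card ≤ d then N z else ∅ : Finset (Fin n)).card ≤ m
      split_ifs with h
      · exact h.trans hdm
      · simp
  have hcov : ∀ S ∈ 𝒜, ∃ i, (S \ Vs i).card ≤ θ + 1 := by
    intro S hSA
    by_cases hz : ∃ z ∈ S, (N z).card ≤ d ∧
        ((univ : Finset (Fin n)).filter fun y => y ∈ S ∧ y ≠ z ∧ s(z, y) ∉ Q).card ≤ θ
    · obtain ⟨z, hzS, hzd, hzu⟩ := hz
      refine ⟨some z, ?_⟩
      have hV : Vs (some z) = N z := by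
        show (if (N z).card ≤ d then N z else ∅ : Finset (Fin n)) = N z
        rw [if_pos hzd]
      rw [hV]
      have hsub : S \ N z ⊆ insert z
          ((univ : Finset (Fin n)).filter fun y => y ∈ S ∧ y ≠ z ∧ s(z, y) ∉ Q) := by
        intro y hy
        rw [Finset.mem_sdiff] at hy
        rw [Finset.mem_insert]
        by_cases hyz : y = z
        · exact Or.inl hyz
        · right
          rw [Finset.mem_filter]
          refine ⟨Finset.mem_univ _, hy.1, hyz, fun h => hy.2 ?_⟩
          rw [hN]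
          simp only [Finset.mem_filter, Finset.mem_univ, true_and]
          exact ⟨hyz, h⟩
      refine (Finset.card_le_card hsub).trans ((Finset.card_insert_le _ _).trans ?_)
      omega
    · push Not at hz
      refine ⟨none, ?_⟩
      show (S \ High).card ≤ θ + 1
      have h1 : ∀ z ∈ S \ High, θ + 1 ≤
          ((univ : Finset (Fin n)).filter fun y => y ∈ S ∧ y ≠ z ∧ s(z, y) ∉ Q).card := by
        intro z hzz
        rw [Finset.mem_sdiff] at hzz
        have h2 : (N z).card ≤ d := by
          by_contra hcon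
          apply hzz.2
          rw [hHigh, Finset.mem_filter]
          exact ⟨Finset.mem_univ _, by omega⟩
        exact hz z hzz.1 h2
      have h2 : ∑ z ∈ S \ High,
          ((univ : Finset (Fin n)).filter fun y => y ∈ S ∧ y ≠ z ∧ s(z, y) ∉ Q).card ≤
            2 * (prs S \ Q).card := by
        apply count_sum (S \ High) (prs S \ Q) (fun z y => y ∈ S ∧ y ≠ z ∧ s(z, y) ∉ Q)
        intro z hzz y hy
        rw [Finset.mem_sdiff] at hzz ⊢
        refine ⟨?_, hy.2.2⟩
        unfold prs
        rw [Finset.mem_filter, Finset.mk_mem_sym2_iff, Sym2.mk_isDiag_iff]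
        exact ⟨⟨hzz.1, hy.1⟩, fun h => hy.2.1 h.symm⟩
      have h3 : (S \ High).card * (θ + 1) ≤ θ * θ := by
        calc (S \ High).card * (θ + 1) ≤ ∑ z ∈ S \ High,
          ((univ : Finset (Fin n)).filter fun y => y ∈ S ∧ y ≠ z ∧ s(z, y) ∉ Q).card := by
              rw [← smul_eq_mul]
              exact Finset.card_nsmul_le_sum _ _ _ h1
          _ ≤ 2 * (prs S \ Q).card := h2
          _ ≤ 2 * u := Nat.mul_le_mul_left 2 (hS S hSA)
          _ ≤ θ * θ := hu
      by_contra hcon
      push Not at hcon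
      have h4 : (θ + 1) * (θ + 1) ≤ (S \ High).card * (θ + 1) :=
        Nat.mul_le_mul_right _ hcon.le
      have h5 : θ * θ < (θ + 1) * (θ + 1) := Nat.mul_self_lt_mul_self (Nat.lt_succ_self θ)
      omega
  obtain ⟨i, _, hi⟩ := Finset.exists_max_image (univ : Finset (Option (Fin n)))
    (fun i => (𝒜.filter fun S => (S \ Vs i).card ≤ θ + 1).card) ⟨none, Finset.mem_univ _⟩
  refine ⟨Vs i, hVm i, ?_⟩
  have h1 : 𝒜 ⊆ (univ : Finset (Option (Fin n))).biUnion
      (fun i => 𝒜.filter fun S => (S \ Vs i).card ≤ θ + 1) := by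
    intro S hSA
    obtain ⟨j, hj⟩ := hcov S hSA
    rw [Finset.mem_biUnion]
    exact ⟨j, Finset.mem_univ _, Finset.mem_filter.2 ⟨hSA, hj⟩⟩
  calc 𝒜.card ≤ _ := Finset.card_le_card h1
    _ ≤ ∑ j : Option (Fin n), (𝒜.filter fun S => (S \ Vs j).card ≤ θ + 1).card :=
        Finset.card_biUnion_le
    _ ≤ (univ : Finset (Option (Fin n))).card •
        (𝒜.filter fun S => (S \ Vs i).card ≤ θ + 1).card :=
        Finset.sum_le_card_nsmul _ _ _ fun j hj => hi j hj
    _ = (n + 1) * (𝒜.filter fun S => (S \ Vs i).card ≤ θ + 1).card := by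
        rw [smul_eq_mul, Finset.card_univ, Fintype.card_option, Fintype.card_fin]
    _ ≤ _ := by
        apply le_of_eq
        congr!

end H761CQ
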